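import Mathlib

/-!
# Real random access programs and the averaged condition number

Definitions for the question on the optimal exponent of averaged condition numbers for linear
system solvers. The model of computation is a real random access machine: one finite program
for all dimensions, exact real arithmetic, and every executed instruction (arithmetic on real
numbers, comparisons of real numbers, and all the operations on the index registers used for
addressing and loop control) has cost one.
-/

namespace Pool.Agent.Lib.MP_2781e4_lc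

/-- Memory cells: `(k, i, j)` is the cell in row `i` and column `j` of the array number `k`. -/
abbrev Cell : Type := ℕ × ℕ × ℕ

/-- The state of the real memory: a real number in every cell. -/
abbrev Mem : Type := Cell → ℝ

/-- The state of the index registers: a natural number in every index register. -/
abbrev Regs : Type := ℕ → ℕ

/-- An index: a literal constant or the content of an index register. -/
inductive Ix : Type
  | lit (k : ℕ)
  | reg (r : ℕ)

/-- The value of an index. -/
def Ix.val (ρ : Regs) : Ix → ℕ
  | .lit k => k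
  | .reg r => ρ r

/-- An address: a fixed array number, a row index and a column index. -/
structure Addr : Type where
  arr : ℕ
  row : Ix
  col : Ix

/-- The cell with a given address. -/
def Addr.cell (ρ : Regs) (a : Addr) : Cell := (a.arr, a.row.val ρ, a.col.val ρ)

/-- The arithmetic operations. -/
inductive Op : Type
  | add | sub | mul | div

/-- The value of an arithmetic operation (exact real arithmetic). -/
noncomputable def Op.app : Op → ℝ → ℝ → ℝ
  | .add, x, y => x + y
  | .sub, x, y => x - y
  | .mul, x, y => x * y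
  | .div, x, y => x / y

/-- Programs. Real numbers can only be combined by the four arithmetic operations and compared
(`ifLe`); index registers can only be set to a constant or to another register, incremented,
decremented and compared (`ifLt`, `whileLt`). There is no rounding or floor operation and no
conversion between real numbers and indices. -/
inductive Prog : Type
  /-- do nothing -/
  | skip
  /-- `d := a o b` for real memory cells -/
  | arith (o : Op) (d a b : Addr)
  /-- set the index register `r` to the value of `e` -/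
  | set (r : ℕ) (e : Ix)
  /-- increment the index register `r` -/
  | succ (r : ℕ)
  /-- decrement the index register `r` -/
  | pred (r : ℕ)
  /-- first `P`, then `Q` -/
  | seq (P Q : Prog)
  /-- if the real number in `a` is at most the one in `b` then `P` else `Q` -/
  | ifLe (a b : Addr) (P Q : Prog)
  /-- if the index `e` is less than the index `f` then `P` else `Q` -/
  | ifLt (e f : Ix) (P Q : Prog)
  /-- while the index `e` is less than the index `f` do `P` -/
  | whileLt (e f : Ix) (P : Prog)

/-- `Exec P ρ m t ρ' m'`: started with the index registers `ρ` and the real memory `m`, the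
program `P` halts after exactly `t` steps, with the index registers `ρ'` and the real memory
`m'`. Every instruction and every evaluation of a test is one step. -/
inductive Exec : Prog → Regs → Mem → ℕ → Regs → Mem → Prop
  | skip (ρ : Regs) (m : Mem) : Exec .skip ρ m 1 ρ m
  | arith (o : Op) (d a b : Addr) (ρ : Regs) (m : Mem) :
      Exec (.arith o d a b) ρ m 1 ρ
        (Function.update m (d.cell ρ) (o.app (m (a.cell ρ)) (m (b.cell ρ))))
  | set (r : ℕ) (e : Ix) (ρ : Regs) (m : Mem) :
      Exec (.set r e) ρ m 1 (Function.update ρ r (e.val ρ)) m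
  | succ (r : ℕ) (ρ : Regs) (m : Mem) :
      Exec (.succ r) ρ m 1 (Function.update ρ r (ρ r + 1)) m
  | pred (r : ℕ) (ρ : Regs) (m : Mem) :
      Exec (.pred r) ρ m 1 (Function.update ρ r (ρ r - 1)) m
  | seq {P Q : Prog} {ρ ρ' ρ'' : Regs} {m m' m'' : Mem} {t t' : ℕ}
      (h : Exec P ρ m t ρ' m') (h' : Exec Q ρ' m' t' ρ'' m'') :
      Exec (.seq P Q) ρ m (t + t') ρ'' m''
  | ifLe_true {a b : Addr} {P Q : Prog} {ρ ρ' : Regs} {m m' : Mem} {t : ℕ}
      (hab : m (a.cell ρ) ≤ m (b.cell ρ)) (h : Exec P ρ m t ρ' m') :
      Exec (.ifLe a b P Q) ρ m (t + 1) ρ' m'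
  | ifLe_false {a b : Addr} {P Q : Prog} {ρ ρ' : Regs} {m m' : Mem} {t : ℕ}
      (hab : ¬ m (a.cell ρ) ≤ m (b.cell ρ)) (h : Exec Q ρ m t ρ' m') :
      Exec (.ifLe a b P Q) ρ m (t + 1) ρ' m'
  | ifLt_true {e f : Ix} {P Q : Prog} {ρ ρ' : Regs} {m m' : Mem} {t : ℕ}
      (hef : e.val ρ < f.val ρ) (h : Exec P ρ m t ρ' m') :
      Exec (.ifLt e f P Q) ρ m (t + 1) ρ' m'
  | ifLt_false {e f : Ix} {P Q : Prog} {ρ ρ' : Regs} {m m' : Mem} {t : ℕ}
      (hef : ¬ e.val ρ < f.val ρ) (h : Exec Q ρ m t ρ' m') :
      Exec (.ifLt e f P Q) ρ m (t + 1) ρ' m'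
  | while_false {e f : Ix} {P : Prog} {ρ : Regs} {m : Mem}
      (hef : ¬ e.val ρ < f.val ρ) : Exec (.whileLt e f P) ρ m 1 ρ m
  | while_true {e f : Ix} {P : Prog} {ρ ρ' ρ'' : Regs} {m m' m'' : Mem} {t t' : ℕ}
      (hef : e.val ρ < f.val ρ) (h : Exec P ρ m t ρ' m')
      (h' : Exec (.whileLt e f P) ρ' m' t' ρ'' m'') :
      Exec (.whileLt e f P) ρ m (t + t' + 1) ρ'' m''

/-- The initial state of the index registers: register `0` holds the dimension `n`, all the
others hold `0`. -/
def initRegs (n : ℕ) : Regs := fun r => if r = 0 then n else 0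

/-- The initial real memory for the input `A`, `b`, `ε`: the cell `(0, i, j)` holds `A i j`,
the cell `(1, i, 0)` holds `b i`, the cell `(2, 0, 0)` holds `ε` and the cell `(2, 1, 0)`
holds the constant `1`; all the other cells hold `0`. -/
noncomputable def input {n : ℕ} (A : Matrix (Fin n) (Fin n) ℝ) (b : Fin n → ℝ) (ε : ℝ) : Mem :=
  fun c =>
    if c.1 = 0 then (if h : c.2.1 < n ∧ c.2.2 < n then A ⟨c.2.1, h.1⟩ ⟨c.2.2, h.2⟩ else 0)
    else if c.1 = 1 ∧ c.2.2 = 0 then (if h : c.2.1 < n then b ⟨c.2.1, h⟩ else 0)
    else if c = (2, 0, 0) then ε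
    else if c = (2, 1, 0) then 1
    else 0

/-- The vector stored in the first column of the array number `k`. -/
def output (n k : ℕ) (m : Mem) : Fin n → ℝ := fun i => m (k, i, 0)

/-- The Euclidean norm of a vector. -/
noncomputable def norm2 {n : ℕ} (v : Fin n → ℝ) : ℝ := Real.sqrt (∑ i, v i ^ 2)

/-- The singular values `σ₀ ≥ σ₁ ≥ … ≥ σ_{n-1}` of a square matrix, numbered from `0`. -/
noncomputable def sing {n : ℕ} (A : Matrix (Fin n) (Fin n) ℝ) (i : ℕ) : ℝ :=
  (Matrix.toEuclideanLin A).singularValues i

/-- The `p`-averaged condition number `((1/n) ∑ (σ_i / σ_min)^p)^(1/p)`. -/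
noncomputable def kappaBar {n : ℕ} (p : ℝ) (A : Matrix (Fin n) (Fin n) ℝ) : ℝ :=
  ((1 / (n : ℝ)) * ∑ i ∈ Finset.range n, (sing A i / sing A (n - 1)) ^ p) ^ (1 / p)

/-- The exponent `p` is achievable with the cost measure `n²`: there are one program `P`, an
array number `k` and constants `C`, `c` such that for every dimension `n ≥ 1`, every
invertible real `n × n` matrix `A`, every right-hand side `b` and every `ε ∈ (0, 1)`, the
program halts on the input `(n, A, b, ε)`, leaves in the array `k` a vector `x` with
`‖x - A⁻¹ b‖ ≤ ε ‖A⁻¹ b‖`, and makes at most `C (1 + log n + log (1/ε))^c n² κ̄_p(A)` steps.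
(Deterministic programs; these are a special case of randomized ones.) -/
def Achievable (p : ℝ) : Prop :=
  ∃ (P : Prog) (k : ℕ) (C : ℝ) (c : ℕ),
    ∀ (n : ℕ), 1 ≤ n → ∀ (A : Matrix (Fin n) (Fin n) ℝ), IsUnit A.det →
      ∀ (b : Fin n → ℝ) (ε : ℝ), 0 < ε → ε < 1 →
        ∃ (t : ℕ) (ρ : Regs) (m : Mem), Exec P (initRegs n) (input A b ε) t ρ m ∧
          norm2 (output n k m - A⁻¹.mulVec b) ≤ ε * norm2 (A⁻¹.mulVec b) ∧
          (t : ℝ) ≤ C * (1 + Real.log n + Real.log (1 / ε)) ^ c *
            ((n : ℝ) ^ 2 * kappaBar p A)

end Pool.Agent.Lib.MP_2781e4_lc
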