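import Mathlib
import Pool.Agent.Lib.MP_2781e4_lc.Defs

/-!
# Finite computation trees and their sequential composition
-/

namespace Pool.Agent.Lib.MP_2781e4_lc

/-- finite computation trees with leaves labelled by `α` -/
inductive Tree (α : Type) : Type
  | ret (a : α) : Tree α
  | op (o : Op) (d a b : Cell) (k : Tree α) : Tree α
  | le (a b : Cell) (t f : Tree α) : Tree α

namespace Tree

variable {α β : Type}

/-- sequential composition -/
def bind : Tree α → (α → Tree β) → Tree β
  | ret a, g => g a
  | op o d a b k, g => op o d a b (k.bind g)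
  | le a b t f, g => le a b (t.bind g) (f.bind g)

open Classical in
/-- result of a tree -/
noncomputable def res : Tree α → Mem → α
  | ret a, _ => a
  | op o d a b k, m => k.res (Function.update m d (o.app (m a) (m b)))
  | le a b t f, m => if m a ≤ m b then t.res m else f.res m

open Classical in
/-- final memory of a tree -/
noncomputable def mem : Tree α → Mem → Mem
  | ret _, m => m
  | op o d a b k, m => k.mem (Function.update m d (o.app (m a) (m b)))
  | le a b t f, m => if m a ≤ m b then t.mem m else f.mem m

open Classical in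
/-- cost of a tree -/
noncomputable def cost : Tree α → Mem → ℕ
  | ret _, _ => 0
  | op o d a b k, m => k.cost (Function.update m d (o.app (m a) (m b))) + 1
  | le a b t f, m => (if m a ≤ m b then t.cost m else f.cost m) + 1

/-- depth of a tree -/
def depth : Tree α → ℕ
  | ret _ => 0
  | op _ _ _ _ k => k.depth + 1
  | le _ _ t f => max t.depth f.depth + 1

/-- all the cells written by a tree lie in `S` -/
def Wr (S : Set Cell) : Tree α → Prop
  | ret _ => True
  | op _ d _ _ k => d ∈ S ∧ k.Wr S
  | le _ _ t f => t.Wr S ∧ f.Wr S

theorem cost_le_depth (T : Tree α) : ∀ m, T.cost m ≤ T.depth := by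
  induction T with
  | ret a => intro m; exact le_rfl
  | op o d a b k ih => intro m; exact Nat.succ_le_succ (ih _)
  | le a b t f iht ihf =>
    intro m
    simp only [cost, depth]
    have h1 := iht m
    have h2 := ihf m
    split_ifs <;> omega

theorem mem_of_wr {S : Set Cell} (T : Tree α) :
    ∀ m, T.Wr S → ∀ c, c ∉ S → T.mem m c = m c := by
  induction T with
  | ret a => intro m _ c _; rfl
  | op o d a b k ih =>
    intro m h c hc
    simp only [mem]
    rw [ih _ h.2 c hc, Function.update_of_ne]
    rintro rfl
    exact hc h.1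
  | le a b t f iht ihf =>
    intro m h c hc
    simp only [mem]
    split_ifs
    · exact iht m h.1 c hc
    · exact ihf m h.2 c hc

theorem Wr.mono {S S' : Set Cell} (hS : S ⊆ S') {T : Tree α} (h : T.Wr S) : T.Wr S' := by
  induction T with
  | ret a => trivial
  | op o d a b k ih => exact ⟨hS h.1, ih h.2⟩
  | le a b t f iht ihf => exact ⟨iht h.1, ihf h.2⟩

theorem res_bind (T : Tree α) (g : α → Tree β) :
    ∀ m, (T.bind g).res m = (g (T.res m)).res (T.mem m) := by
  induction T with
  | ret a => intro m; rfl
  | op o d a b k ih => intro m; exact ih _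
  | le a b t f iht ihf =>
    intro m
    simp only [bind, res, mem]
    split_ifs
    · exact iht m
    · exact ihf m

theorem mem_bind (T : Tree α) (g : α → Tree β) :
    ∀ m, (T.bind g).mem m = (g (T.res m)).mem (T.mem m) := by
  induction T with
  | ret a => intro m; rfl
  | op o d a b k ih => intro m; exact ih _
  | le a b t f iht ihf =>
    intro m
    simp only [bind, res, mem]
    split_ifs
    · exact iht m
    · exact ihf m

theorem wr_bind {S : Set Cell} (T : Tree α) (g : α → Tree β) (hT : T.Wr S)
    (hg : ∀ a, (g a).Wr S) : (T.bind g).Wr S := by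
  induction T with
  | ret a => exact hg a
  | op o d a b k ih => exact ⟨hT.1, ih hT.2⟩
  | le a b t f iht ihf => exact ⟨iht hT.1, ihf hT.2⟩

theorem depth_bind_le (T : Tree α) (g : α → Tree β) (c : ℕ) (hg : ∀ a, (g a).depth ≤ c) :
    (T.bind g).depth ≤ T.depth + c := by
  induction T with
  | ret a => simpa [bind, depth] using hg a
  | op o d a b k ih => simp only [bind, depth]; omega
  | le a b t f iht ihf => simp only [bind, depth]; omega

/-- sequencing of trees without result -/
def seq (T : Tree Unit) (U : Tree β) : Tree β := T.bind fun _ => U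

theorem res_seq (T : Tree Unit) (U : Tree β) (m : Mem) :
    (T.seq U).res m = U.res (T.mem m) := res_bind _ _ _

theorem mem_seq (T : Tree Unit) (U : Tree β) (m : Mem) :
    (T.seq U).mem m = U.mem (T.mem m) := mem_bind _ _ _

theorem wr_seq {S : Set Cell} {T : Tree Unit} {U : Tree β} (hT : T.Wr S) (hU : U.Wr S) :
    (T.seq U).Wr S := wr_bind _ _ hT fun _ => hU

theorem depth_seq_le {T : Tree Unit} {U : Tree β} {c c' : ℕ} (hT : T.depth ≤ c)
    (hU : U.depth ≤ c') : (T.seq U).depth ≤ c + c' :=
  (depth_bind_le T (fun _ => U) c' fun _ => hU).trans (by omega)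

/-- a single operation -/
def op1 (o : Op) (d a b : Cell) : Tree Unit := op o d a b (ret ())

theorem mem_op1 (o : Op) (d a b : Cell) (m : Mem) :
    (op1 o d a b).mem m = Function.update m d (o.app (m a) (m b)) := rfl

theorem wr_op1 {S : Set Cell} {o : Op} {d a b : Cell} (h : d ∈ S) : (op1 o d a b).Wr S :=
  ⟨h, trivial⟩

theorem depth_op1 (o : Op) (d a b : Cell) : (op1 o d a b).depth = 1 := rfl

/-- bounded loops -/
def forN : ℕ → (ℕ → Tree Unit) → Tree Unit
  | 0, _ => ret ()
  | k + 1, body => (forN k body).seq (body k)

theorem forN_zero (body : ℕ → Tree Unit) : forN 0 body = ret () := rfl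

theorem mem_forN_succ (k : ℕ) (body : ℕ → Tree Unit) (m : Mem) :
    (forN (k + 1) body).mem m = (body k).mem ((forN k body).mem m) := mem_seq _ _ _

theorem wr_forN {S : Set Cell} {k : ℕ} {body : ℕ → Tree Unit} (h : ∀ j, (body j).Wr S) :
    (forN k body).Wr S := by
  induction k with
  | zero => trivial
  | succ k ih => exact wr_seq ih (h k)

theorem depth_forN_le {k c : ℕ} {body : ℕ → Tree Unit} (h : ∀ j, (body j).depth ≤ c) :
    (forN k body).depth ≤ k * c := by
  induction k with
  | zero => exact Nat.zero_le _
  | succ k ih =>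
    have := depth_seq_le ih (h k)
    calc (forN (k + 1) body).depth ≤ k * c + c := this
      _ = (k + 1) * c := by ring

theorem forN_inv {k : ℕ} {body : ℕ → Tree Unit} (I : ℕ → Mem → Prop) {m : Mem}
    (h0 : I 0 m) (hs : ∀ j, j < k → ∀ m', I j m' → I (j + 1) ((body j).mem m')) :
    I k ((forN k body).mem m) := by
  induction k with
  | zero => exact h0
  | succ k ih =>
    rw [mem_forN_succ]
    exact hs k (Nat.lt_succ_self k) _ (ih fun j hj => hs j (by omega))

end Tree

end Pool.Agent.Lib.MP_2781e4_lc
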