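import Mathlib
import Pool.Agent.Lib.MP_2781e4_lc.Tree

/-!
# Simulation of computation trees by programs

The index registers are used as a stack: a piece of code at level `N` may only change the
registers `≥ N`.
-/

namespace Pool.Agent.Lib.MP_2781e4_lc

open Pool.Agent.Lib.MP_2781e4_lc.Tree

/-- the registers below `N` hold the values `v` -/
def Ag (N : ℕ) (v ρ : Regs) : Prop := ∀ x, x < N → ρ x = v x

/-- the value of an index is `k` -/
def EvI (N : ℕ) (v : Regs) (e : Ix) (k : ℕ) : Prop := ∀ ρ, Ag N v ρ → e.val ρ = k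

/-- the address `a` is the cell `c` -/
def EvA (N : ℕ) (v : Regs) (a : Addr) (c : Cell) : Prop := ∀ ρ, Ag N v ρ → a.cell ρ = c

/-- the program `P` performs the operations of the tree `T` in at most `t` steps -/
def Sim (N : ℕ) (v : Regs) (P : Prog) (T : Tree Unit) (t : ℕ) : Prop :=
  ∀ ρ m, Ag N v ρ → ∃ t', t' ≤ t ∧ ∃ ρ', Exec P ρ m t' ρ' (T.mem m) ∧ Ag N v ρ'

/-- the program `P` loads `k` in the register `N` -/
def Loads (N : ℕ) (v : Regs) (P : Prog) (k t : ℕ) : Prop :=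
  ∀ ρ m, Ag N v ρ → ∃ t', t' ≤ t ∧ ∃ ρ', Exec P ρ m t' ρ' m ∧ Ag (N + 1) (Function.update v N k) ρ'

theorem Ag.low {N : ℕ} {v ρ : Regs} {k : ℕ} (h : Ag (N + 1) (Function.update v N k) ρ) :
    Ag N v ρ := fun x hx => by
  rw [h x (by omega), Function.update_of_ne (by omega)]

theorem Ag.top {N : ℕ} {v ρ : Regs} {k : ℕ} (h : Ag (N + 1) (Function.update v N k) ρ) :
    ρ N = k := by
  rw [h N (by omega), Function.update_self]

theorem Ag.mk' {N : ℕ} {v ρ : Regs} {k : ℕ} (h : Ag N v ρ) (hk : ρ N = k) :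
    Ag (N + 1) (Function.update v N k) ρ := fun x hx => by
  rcases eq_or_ne x N with rfl | hne
  · rw [Function.update_self, hk]
  · rw [Function.update_of_ne hne]
    exact h x (by omega)

theorem Ag.upd {N : ℕ} {v ρ : Regs} {x k : ℕ} (h : Ag N v ρ) (hx : N ≤ x) :
    Ag N v (Function.update ρ x k) := fun y hy => by
  rw [Function.update_of_ne (by omega)]
  exact h y hy

theorem EvI.lit {N : ℕ} {v : Regs} (k : ℕ) : EvI N v (.lit k) k := fun _ _ => rfl

theorem EvI.reg {N : ℕ} {v : Regs} {r k : ℕ} (hr : r < N) (hk : v r = k) :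
    EvI N v (.reg r) k := fun ρ h => by
  show ρ r = k
  rw [h r hr, hk]

theorem EvI.up {N : ℕ} {v : Regs} {e : Ix} {k j : ℕ} (h : EvI N v e k) :
    EvI (N + 1) (Function.update v N j) e k := fun ρ hρ => h ρ hρ.low

theorem EvI.top {N : ℕ} {v : Regs} {j : ℕ} :
    EvI (N + 1) (Function.update v N j) (.reg N) j := fun _ hρ => hρ.top

theorem EvA.mk {N : ℕ} {v : Regs} {k i j : ℕ} {e f : Ix} (he : EvI N v e i)
    (hf : EvI N v f j) : EvA N v ⟨k, e, f⟩ (k, i, j) := fun ρ hρ => by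
  show (k, e.val ρ, f.val ρ) = _
  rw [he ρ hρ, hf ρ hρ]

theorem EvA.up {N : ℕ} {v : Regs} {a : Addr} {c : Cell} {j : ℕ} (h : EvA N v a c) :
    EvA (N + 1) (Function.update v N j) a c := fun ρ hρ => h ρ hρ.low

theorem Sim.mono {N : ℕ} {v : Regs} {P : Prog} {T : Tree Unit} {t t' : ℕ}
    (h : Sim N v P T t) (ht : t ≤ t') : Sim N v P T t' := fun ρ m hρ => by
  obtain ⟨s, hs, h'⟩ := h ρ m hρ
  exact ⟨s, hs.trans ht, h'⟩

theorem Sim.congr {N : ℕ} {v : Regs} {P : Prog} {T T' : Tree Unit} {t : ℕ}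
    (h : Sim N v P T t) (hT : ∀ m, T.mem m = T'.mem m) : Sim N v P T' t := fun ρ m hρ => by
  rw [← hT m]
  exact h ρ m hρ

theorem sim_skip {N : ℕ} {v : Regs} : Sim N v .skip (.ret ()) 1 := fun ρ m hρ =>
  ⟨1, le_rfl, ρ, Exec.skip ρ m, hρ⟩

theorem sim_op {N : ℕ} {v : Regs} {o : Op} {d a b : Addr} {d' a' b' : Cell}
    (hd : EvA N v d d') (ha : EvA N v a a') (hb : EvA N v b b') :
    Sim N v (.arith o d a b) (op1 o d' a' b') 1 := fun ρ m hρ => by
  refine ⟨1, le_rfl, ρ, ?_, hρ⟩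
  rw [mem_op1, ← hd ρ hρ, ← ha ρ hρ, ← hb ρ hρ]
  exact Exec.arith o d a b ρ m

theorem sim_seq {N : ℕ} {v : Regs} {P Q : Prog} {T U : Tree Unit} {t u : ℕ}
    (hP : Sim N v P T t) (hQ : Sim N v Q U u) : Sim N v (.seq P Q) (T.seq U) (t + u) :=
  fun ρ m hρ => by
  obtain ⟨t', ht, ρ', h1, h2⟩ := hP ρ m hρ
  obtain ⟨u', hu, ρ'', h3, h4⟩ := hQ ρ' (T.mem m) h2
  refine ⟨t' + u', by omega, ρ'', ?_, h4⟩
  rw [mem_seq]
  exact Exec.seq h1 h3

theorem sim_le {N : ℕ} {v : Regs} {a b : Addr} {a' b' : Cell} {P Q : Prog} {T U : Tree Unit}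
    {t : ℕ} (ha : EvA N v a a') (hb : EvA N v b b') (hP : Sim N v P T t) (hQ : Sim N v Q U t) :
    Sim N v (.ifLe a b P Q) (.le a' b' T U) (t + 1) := fun ρ m hρ => by
  by_cases h : m a' ≤ m b'
  · obtain ⟨t', ht, ρ', h1, h2⟩ := hP ρ m hρ
    refine ⟨t' + 1, by omega, ρ', ?_, h2⟩
    have e : (Tree.le a' b' T U).mem m = T.mem m := by simp [mem, h]
    rw [e]
    exact Exec.ifLe_true (by rw [ha ρ hρ, hb ρ hρ]; exact h) h1
  · obtain ⟨t', ht, ρ', h1, h2⟩ := hQ ρ m hρ
    refine ⟨t' + 1, by omega, ρ', ?_, h2⟩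
    have e : (Tree.le a' b' T U).mem m = U.mem m := by simp [mem, h]
    rw [e]
    exact Exec.ifLe_false (by rw [ha ρ hρ, hb ρ hρ]; exact h) h1

theorem sim_ifLt {N : ℕ} {v : Regs} {e f : Ix} {i j : ℕ} {P Q : Prog} {T : Tree Unit}
    {t : ℕ} (he : EvI N v e i) (hf : EvI N v f j) (hP : i < j → Sim N v P T t)
    (hQ : ¬ i < j → Sim N v Q T t) :
    Sim N v (.ifLt e f P Q) T (t + 1) := fun ρ m hρ => by
  by_cases h : i < j
  · obtain ⟨t', ht, ρ', h1, h2⟩ := hP h ρ m hρ
    exact ⟨t' + 1, by omega, ρ', Exec.ifLt_true (by rw [he ρ hρ, hf ρ hρ]; exact h) h1, h2⟩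
  · obtain ⟨t', ht, ρ', h1, h2⟩ := hQ h ρ m hρ
    exact ⟨t' + 1, by omega, ρ', Exec.ifLt_false (by rw [he ρ hρ, hf ρ hρ]; exact h) h1, h2⟩

/-! ### Loading registers -/

theorem Loads.mono {N : ℕ} {v : Regs} {P : Prog} {k t t' : ℕ}
    (h : Loads N v P k t) (ht : t ≤ t') : Loads N v P k t' := fun ρ m hρ => by
  obtain ⟨s, hs, h'⟩ := h ρ m hρ
  exact ⟨s, hs.trans ht, h'⟩

theorem loads_set {N : ℕ} {v : Regs} {e : Ix} {k : ℕ} (he : EvI N v e k) :
    Loads N v (.set N e) k 1 := fun ρ m hρ =>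
  ⟨1, le_rfl, _, Exec.set N e ρ m, (hρ.upd le_rfl).mk' (by rw [Function.update_self, he ρ hρ])⟩

theorem loads_succ {N : ℕ} {v : Regs} {P : Prog} {k t : ℕ} (h : Loads N v P k t) :
    Loads N v (.seq P (.succ N)) (k + 1) (t + 1) := fun ρ m hρ => by
  obtain ⟨t', ht, ρ', h1, h2⟩ := h ρ m hρ
  exact ⟨t' + 1, by omega, _, Exec.seq h1 (Exec.succ N ρ' m),
    (h2.low.upd le_rfl).mk' (by rw [Function.update_self, h2.top])⟩

/-- add an index to the register `N` -/
def addReg (N : ℕ) (e : Ix) : Prog :=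
  .seq (.set (N + 1) (.lit 0)) (.whileLt (.reg (N + 1)) e (.seq (.succ N) (.succ (N + 1))))

theorem loads_add {N : ℕ} {v : Regs} {P : Prog} {k t : ℕ} {e : Ix} {j : ℕ}
    (h : Loads N v P k t) (he : EvI N v e j) :
    Loads N v (.seq P (addReg N e)) (k + j) (t + (3 * j + 2)) := fun ρ m hρ => by
  obtain ⟨t', ht, ρ', h1, h2⟩ := h ρ m hρ
  -- the loop
  have loop : ∀ d i, i + d = j → ∀ ρ : Regs, Ag N v ρ → ρ N = k + i → ρ (N + 1) = i →
      ∃ ρ', Exec (.whileLt (.reg (N + 1)) e (.seq (.succ N) (.succ (N + 1)))) ρ m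
        (3 * d + 1) ρ' m ∧ Ag (N + 1) (Function.update v N (k + j)) ρ' := by
    intro d
    induction d with
    | zero =>
      intro i hi ρ hρ e1 e2
      refine ⟨ρ, Exec.while_false ?_, hρ.mk' (by rw [e1]; omega)⟩
      rw [he ρ hρ]
      show ¬ ρ (N + 1) < j
      omega
    | succ d ih =>
      intro i hi ρ hρ e1 e2
      obtain ⟨ρ', h3, h4⟩ := ih (i + 1) (by omega)
        (Function.update (Function.update ρ N (ρ N + 1)) (N + 1)
          ((Function.update ρ N (ρ N + 1)) (N + 1) + 1))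
        ((hρ.upd le_rfl).upd (by omega))
        (by rw [Function.update_of_ne (by omega), Function.update_self, e1]; omega)
        (by rw [Function.update_self, Function.update_of_ne (by omega), e2])
      refine ⟨ρ', ?_, h4⟩
      have h5 := Exec.while_true (e := .reg (N + 1)) (f := e) (P := .seq (.succ N) (.succ (N + 1)))
        (ρ := ρ) (m := m) (by
          rw [he ρ hρ]
          show ρ (N + 1) < j
          omega) (Exec.seq (Exec.succ N ρ m) (Exec.succ (N + 1) _ m)) h3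
      have e3 : 3 * (d + 1) + 1 = 1 + 1 + (3 * d + 1) + 1 := by ring
      rw [e3]
      exact h5
  obtain ⟨ρ'', h3, h4⟩ := loop j 0 (by omega) (Function.update ρ' (N + 1) 0)
    (h2.low.upd (by omega)) (by rw [Function.update_of_ne (by omega), h2.top]; rfl)
    (by rw [Function.update_self])
  refine ⟨t' + (1 + (3 * j + 1)), by omega, ρ'', Exec.seq h1 (Exec.seq ?_ h3), h4⟩
  exact Exec.set (N + 1) (.lit 0) ρ' m

theorem sim_let {N : ℕ} {v : Regs} {L P : Prog} {T : Tree Unit} {k s t : ℕ}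
    (hL : Loads N v L k s) (hP : Sim (N + 1) (Function.update v N k) P T t) :
    Sim N v (.seq L P) T (s + t) := fun ρ m hρ => by
  obtain ⟨s', hs, ρ', h1, h2⟩ := hL ρ m hρ
  obtain ⟨t', ht, ρ'', h3, h4⟩ := hP ρ' m h2
  exact ⟨s' + t', by omega, ρ'', Exec.seq h1 h3, h4.low⟩

/-! ### Loops -/

/-- loop with the register `N` counting up from `0` to `e` -/
def forUp (N : ℕ) (e : Ix) (P : Prog) : Prog :=
  .seq (.set N (.lit 0)) (.whileLt (.reg N) e (.seq P (.succ N)))

theorem sim_forUp {N : ℕ} {v : Regs} {e : Ix} {K : ℕ} {P : Prog} {T : ℕ → Tree Unit} {t : ℕ}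
    (he : EvI N v e K) (hP : ∀ k, k < K → Sim (N + 1) (Function.update v N k) P (T k) t) :
    Sim N v (forUp N e P) (forN K T) (K * (t + 2) + 2) := fun ρ m hρ => by
  have loop : ∀ d k, k + d = K → ∀ ρ : Regs, Ag N v ρ → ρ N = k →
      ∃ t', t' ≤ d * (t + 2) + 1 ∧ ∃ ρ', Exec (.whileLt (.reg N) e (.seq P (.succ N))) ρ
        ((forN k T).mem m) t' ρ' ((forN K T).mem m) ∧ Ag N v ρ' := by
    intro d
    induction d with
    | zero =>
      intro k hk ρ hρ e1
      obtain rfl : k = K := by omega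
      refine ⟨1, by omega, ρ, Exec.while_false ?_, hρ⟩
      rw [he ρ hρ]
      show ¬ ρ N < k
      omega
    | succ d ih =>
      intro k hk ρ hρ e1
      obtain ⟨t', ht, ρ', h1, h2⟩ := hP k (by omega) ρ ((forN k T).mem m) (hρ.mk' e1)
      rw [← mem_forN_succ] at h1
      obtain ⟨t'', ht', ρ'', h3, h4⟩ := ih (k + 1) (by omega)
        (Function.update ρ' N (ρ' N + 1)) (h2.low.upd le_rfl)
        (by rw [Function.update_self, h2.top])
      refine ⟨t' + 1 + t'' + 1, ?_, ρ'', Exec.while_true ?_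
        (Exec.seq h1 (Exec.succ N ρ' _)) h3, h4⟩
      · have : (d + 1) * (t + 2) = d * (t + 2) + (t + 2) := by ring
        omega
      · rw [he ρ hρ]
        show ρ N < K
        omega
  obtain ⟨t', ht, ρ', h1, h2⟩ := loop K 0 (by omega) (Function.update ρ N 0)
    (hρ.upd le_rfl) (Function.update_self _ _ _)
  exact ⟨1 + t', by omega, ρ', Exec.seq (Exec.set N (.lit 0) ρ m) h1, h2⟩

/-- loop with the register `N` counting down; `L` loads the initial value -/
def forDn (N : ℕ) (L P : Prog) : Prog :=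
  .seq L (.whileLt (.lit 0) (.reg N) (.seq (.pred N) P))

theorem sim_forDn {N : ℕ} {v : Regs} {K : ℕ} {L P : Prog} {T : ℕ → Tree Unit} {s t : ℕ}
    (hL : Loads N v L K s)
    (hP : ∀ k, k < K → Sim (N + 1) (Function.update v N (K - 1 - k)) P (T k) t) :
    Sim N v (forDn N L P) (forN K T) (s + (K * (t + 2) + 1)) := fun ρ m hρ => by
  have loop : ∀ d k, k + d = K → ∀ ρ : Regs, Ag N v ρ → ρ N = d →
      ∃ t', t' ≤ d * (t + 2) + 1 ∧ ∃ ρ', Exec (.whileLt (.lit 0) (.reg N) (.seq (.pred N) P)) ρ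
        ((forN k T).mem m) t' ρ' ((forN K T).mem m) ∧ Ag N v ρ' := by
    intro d
    induction d with
    | zero =>
      intro k hk ρ hρ e1
      obtain rfl : k = K := by omega
      refine ⟨1, by omega, ρ, Exec.while_false ?_, hρ⟩
      show ¬ 0 < ρ N
      omega
    | succ d ih =>
      intro k hk ρ hρ e1
      obtain ⟨t', ht, ρ', h1, h2⟩ := hP k (by omega) (Function.update ρ N (ρ N - 1))
        ((forN k T).mem m)
        ((hρ.upd le_rfl).mk' (by rw [Function.update_self, e1]; omega))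
      rw [← mem_forN_succ] at h1
      obtain ⟨t'', ht', ρ'', h3, h4⟩ := ih (k + 1) (by omega) ρ' h2.low
        (by rw [h2.top]; omega)
      refine ⟨1 + t' + t'' + 1, ?_, ρ'', Exec.while_true ?_
        (Exec.seq (Exec.pred N ρ _) h1) h3, h4⟩
      · have : (d + 1) * (t + 2) = d * (t + 2) + (t + 2) := by ring
        omega
      · show 0 < ρ N
        omega
  obtain ⟨s', hs, ρ1, h5, h6⟩ := hL ρ m hρ
  obtain ⟨t', ht, ρ', h1, h2⟩ := loop K 0 (by omega) ρ1 h6.low h6.top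
  exact ⟨s' + t', by omega, ρ', Exec.seq h5 h1, h2⟩

/-! ### Nested loops -/

theorem mem_forN_congr {K : ℕ} {T U : ℕ → Tree Unit}
    (h : ∀ k, k < K → ∀ m, (T k).mem m = (U k).mem m) (m : Mem) :
    (forN K T).mem m = (forN K U).mem m := by
  induction K with
  | zero => rfl
  | succ K ih =>
    rw [mem_forN_succ, mem_forN_succ, ih fun k hk => h k (by omega), h K (by omega)]

theorem mem_forN_add (a b : ℕ) (T : ℕ → Tree Unit) (m : Mem) :
    (forN (a + b) T).mem m = (forN b fun k => T (a + k)).mem ((forN a T).mem m) := by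
  induction b with
  | zero => rfl
  | succ b ih =>
    rw [← add_assoc, mem_forN_succ, mem_forN_succ, ih]

theorem mem_flat (n : ℕ) (T : ℕ → ℕ → Tree Unit) (m : Mem) :
    (forN n fun i => forN n fun j => T i j).mem m =
      (forN (n * n) fun k => T (k / n) (k % n)).mem m := by
  have : ∀ a, (forN a fun i => forN n fun j => T i j).mem m =
      (forN (a * n) fun k => T (k / n) (k % n)).mem m := by
    intro a
    induction a with
    | zero => rw [Nat.zero_mul]; rfl
    | succ a ih =>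
      rw [mem_forN_succ, ih, Nat.succ_mul, mem_forN_add]
      refine mem_forN_congr (fun k hk m => ?_) _
      have h1 : (a * n + k) / n = a := by
        rw [mul_comm, Nat.mul_add_div (by omega), Nat.div_eq_of_lt hk, add_zero]
      have h2 : (a * n + k) % n = k := by
        rw [mul_comm, Nat.mul_add_mod, Nat.mod_eq_of_lt hk]
      rw [h1, h2]
  exact this n

end Pool.Agent.Lib.MP_2781e4_lc
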