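import Mathlib
import Pool.Agent.Lib.MP_2781e4_lc.Tree

/-!
# Rounding a real number to an integer by comparisons
-/

namespace Pool.Agent.Lib.MP_2781e4_lc

open Pool.Agent.Lib.MP_2781e4_lc.Tree

/-- the constant one -/
abbrev cOne : Cell := (2, 1, 0)
/-- the constant one half -/
abbrev cHalf : Cell := (3, 0, 0)
/-- temporary cell of the rounding procedure -/
abbrev cY : Cell := (4, 0, 0)
/-- powers of two -/
abbrev cPow (i : ℕ) : Cell := (6, i, 0)

/-- The table of powers of two and the constant one half are in place. -/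
def PowOK (L : ℕ) (m : Mem) : Prop :=
  (∀ i, i ≤ L → m (cPow i) = 2 ^ i) ∧ m cHalf = 1 / 2 ∧ m cOne = 1

theorem PowOK.of_eq {L : ℕ} {m m' : Mem} (h : PowOK L m)
    (h1 : ∀ i, m' (cPow i) = m (cPow i)) (h2 : m' cHalf = m cHalf) (h3 : m' cOne = m cOne) :
    PowOK L m' :=
  ⟨fun i hi => (h1 i).trans (h.1 i hi), h2.trans h.2.1, h3.trans h.2.2⟩

/-- one step of the binary expansion -/
def roundStep (dst : Cell) (i : ℕ) : Tree Unit :=
  .le (cPow i) cY
    ((op1 .sub cY cY (cPow i)).seq (op1 .add dst dst (cPow i)))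
    (.ret ())

/-- Round the content of `x` to an integer, stored in `dst`. -/
def roundP (a : ℕ) (x dst : Cell) : Tree Unit :=
  (op1 .add cY x (cPow a)).seq <|
  (op1 .add cY cY cHalf).seq <|
  (op1 .sub dst cOne cOne).seq <|
  (forN (a + 2) fun k => roundStep dst (a + 1 - k)).seq <|
  op1 .sub dst dst (cPow a)

theorem wr_roundP (a : ℕ) (x dst : Cell) : (roundP a x dst).Wr {cY, dst} := by
  refine wr_seq (wr_op1 (by simp)) (wr_seq (wr_op1 (by simp)) (wr_seq (wr_op1 (by simp))
    (wr_seq (wr_forN fun j => ?_) (wr_op1 (by simp)))))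
  exact ⟨wr_seq (wr_op1 (by simp)) (wr_op1 (by simp)), trivial⟩

theorem depth_roundP (a : ℕ) (x dst : Cell) : (roundP a x dst).depth ≤ 3 * a + 10 := by
  have h : ∀ j, (roundStep dst (a + 1 - j)).depth ≤ 3 := fun j => by
    show max _ _ + 1 ≤ 3
    have := depth_seq_le (depth_op1 .sub cY cY (cPow (a + 1 - j))).le
      (depth_op1 .add dst dst (cPow (a + 1 - j))).le
    simp only [depth]
    omega
  have h2 := depth_seq_le (depth_op1 .add cY x (cPow a)).le <|
    depth_seq_le (depth_op1 .add cY cY cHalf).le <|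
    depth_seq_le (depth_op1 .sub dst cOne cOne).le <|
    depth_seq_le (depth_forN_le (k := a + 2) h) (depth_op1 .sub dst dst (cPow a)).le
  refine h2.trans (by omega)

theorem roundP_spec {a L : ℕ} (hL : a + 1 ≤ L) {x dst : Cell}
    (hd : dst ≠ cY) (hd1 : ∀ i, dst ≠ cPow i)
    (m : Mem) (hm : PowOK L m) :
    ∃ z : ℤ, (roundP a x dst).mem m dst = z ∧ |z| ≤ 2 ^ (a + 2) ∧
      (|m x| ≤ 2 ^ a → |m x - z| ≤ 1 / 2) := by
  obtain ⟨hpow, hhalf, -⟩ := hm
  -- memory after the three initial instructions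
  set y0 : ℝ := m x + 2 ^ a + 1 / 2 with hy0
  set m1 : Mem := Function.update m cY (m x + m (cPow a)) with hm1
  set m2 : Mem := Function.update m1 cY (m1 cY + m1 cHalf) with hm2
  set m3 : Mem := Function.update m2 dst (m2 cOne - m2 cOne) with hm3
  have hYP : ∀ i, cPow i ≠ cY := fun i => by simp [cPow, cY]
  have hHY : cHalf ≠ cY := by simp [cHalf, cY]
  have e1 : m1 cY = m x + 2 ^ a := by
    rw [hm1, Function.update_self, hpow a (by omega)]
  have e2 : m2 cY = y0 := by
    rw [hm2, Function.update_self, e1, hm1, Function.update_of_ne hHY, hhalf]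
  have e3 : m3 cY = y0 := by rw [hm3, Function.update_of_ne hd.symm, e2]
  have e4 : m3 dst = 0 := by rw [hm3, Function.update_self, sub_self]
  have e5 : ∀ i, m3 (cPow i) = m (cPow i) := by
    intro i
    rw [hm3, Function.update_of_ne (hd1 i).symm, hm2, Function.update_of_ne (hYP i), hm1,
      Function.update_of_ne (hYP i)]
  -- the loop
  set mL : Mem := (forN (a + 2) fun k => roundStep dst (a + 1 - k)).mem m3 with hmL
  have hloop : ∃ D : ℤ, mL dst = D ∧ mL cY = y0 - D ∧ 0 ≤ D ∧
      D ≤ 2 ^ (a + 2) - 2 ^ (a + 2 - (a + 2)) ∧ (0 ≤ y0 → 0 ≤ y0 - D) ∧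
      (y0 < 2 ^ (a + 2) → y0 - D < 2 ^ (a + 2 - (a + 2))) ∧
      (∀ i, mL (cPow i) = m (cPow i)) := by
    refine forN_inv (fun k m' => ∃ D : ℤ, m' dst = D ∧ m' cY = y0 - D ∧ 0 ≤ D ∧
      D ≤ 2 ^ (a + 2) - 2 ^ (a + 2 - k) ∧ (0 ≤ y0 → 0 ≤ y0 - D) ∧
      (y0 < 2 ^ (a + 2) → y0 - D < 2 ^ (a + 2 - k)) ∧
      (∀ i, m' (cPow i) = m (cPow i))) ?_ ?_
    · refine ⟨0, by simpa using e4, by simpa using e3, le_rfl, by simp, by simp, by simp, e5⟩
    · rintro k hk m' ⟨D, h1, h2, h3, h4, h5, h6, h7⟩
      have hi : a + 2 - k = (a + 1 - k) + 1 := by omega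
      have hi' : a + 2 - (k + 1) = a + 1 - k := by omega
      rw [hi] at h4 h6
      rw [hi']
      set i := a + 1 - k with hidef
      have hpi : m' (cPow i) = 2 ^ i := (h7 i).trans (hpow i (by omega))
      have h2i : (2 : ℤ) ^ (i + 1) = 2 ^ i + 2 ^ i := by ring
      have h2i' : (2 : ℝ) ^ (i + 1) = 2 ^ i + 2 ^ i := by ring
      by_cases hc : m' (cPow i) ≤ m' cY
      · have hmem : (roundStep dst i).mem m' =
            Function.update (Function.update m' cY (m' cY - m' (cPow i))) dst
              (m' dst + m' (cPow i)) := by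
          unfold roundStep
          simp only [mem, if_pos hc, mem_seq, mem_op1, Op.app]
          rw [Function.update_of_ne hd, Function.update_of_ne (hYP i)]
        rw [hmem]
        refine ⟨D + 2 ^ i, ?_, ?_, by positivity, by linarith, ?_, ?_, ?_⟩
        · rw [Function.update_self, h1, hpi]; push_cast; ring
        · rw [Function.update_of_ne hd.symm, Function.update_self, h2, hpi]; push_cast; ring
        · intro _
          rw [hpi, h2] at hc
          push_cast
          linarith
        · intro hy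
          have := h6 hy
          push_cast
          linarith
        · intro i'
          rw [Function.update_of_ne (hd1 i').symm, Function.update_of_ne (hYP i'), h7]
      · have hmem : (roundStep dst i).mem m' = m' := by
          unfold roundStep
          simp only [mem, if_neg hc]
        rw [hmem]
        refine ⟨D, h1, h2, h3, ?_, h5, ?_, h7⟩
        · have : (0 : ℤ) < 2 ^ i := by positivity
          linarith
        · intro _
          rw [hpi, h2] at hc
          exact not_le.mp hc
  obtain ⟨D, h1, h2, h3, h4, h5, h6, h7⟩ := hloop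
  have hfinal : (roundP a x dst).mem m dst = ((D - 2 ^ a : ℤ) : ℝ) := by
    have : (roundP a x dst).mem m = Function.update mL dst (mL dst - mL (cPow a)) := by
      unfold roundP
      simp only [mem_seq, mem_op1, Op.app]
      rfl
    rw [this, Function.update_self, h1, h7, hpow a (by omega)]
    push_cast
    ring
  refine ⟨D - 2 ^ a, hfinal, ?_, ?_⟩
  · have p1 : (0 : ℤ) < 2 ^ a := by positivity
    have p2 : (2 : ℤ) ^ (a + 2) = 4 * 2 ^ a := by ring
    have p3 : (0 : ℤ) < 2 ^ (a + 2 - (a + 2)) := by positivity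
    rw [abs_le]
    constructor <;> linarith
  · intro hx
    rw [abs_le] at hx
    have p1 : (1 : ℝ) ≤ 2 ^ a := one_le_pow₀ (by norm_num)
    have p2 : (2 : ℝ) ^ (a + 2) = 4 * 2 ^ a := by ring
    have hy1 : 0 ≤ y0 := by rw [hy0]; linarith
    have hy2 : y0 < 2 ^ (a + 2) := by rw [hy0]; linarith
    have q1 := h5 hy1
    have q2 := h6 hy2
    rw [Nat.sub_self, pow_zero] at q2
    rw [abs_le]
    push_cast
    rw [hy0] at q1 q2
    constructor <;> linarith

end Pool.Agent.Lib.MP_2781e4_lc
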