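import Mathlib
import Pool.Agent.Lib.MP_2781e4_lc.Round

/-!
# Products of integer matrices by packing rows into single numbers
-/

namespace Pool.Agent.Lib.MP_2781e4_lc

open Pool.Agent.Lib.MP_2781e4_lc.Tree Finset

/-- accumulator of packed numbers -/
abbrev cN : Cell := (5, 0, 0)
/-- temporary cell for products -/
abbrev cT : Cell := (5, 1, 0)
/-- powers of the base `2^β` -/
abbrev cBase (j : ℕ) : Cell := (7, j, 0)
/-- packed rows -/
abbrev cPack (k : ℕ) : Cell := (8, k, 0)

/-- scalar product of two lists of cells -/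
def dot (n : ℕ) (acc : Cell) (f g : ℕ → Cell) : Tree Unit :=
  (op1 .sub acc cOne cOne).seq <|
  forN n fun k => (op1 .mul cT (f k) (g k)).seq (op1 .add acc acc cT)

theorem wr_dot (n : ℕ) (acc : Cell) (f g : ℕ → Cell) : (dot n acc f g).Wr {acc, cT} :=
  wr_seq (wr_op1 (by simp)) (wr_forN fun _ => wr_seq (wr_op1 (by simp)) (wr_op1 (by simp)))

theorem depth_dot (n : ℕ) (acc : Cell) (f g : ℕ → Cell) : (dot n acc f g).depth ≤ 2 * n + 1 := by
  refine (depth_seq_le (depth_op1 _ _ _ _).le (depth_forN_le (k := n) (c := 2) fun k =>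
    depth_seq_le (depth_op1 _ _ _ _).le (depth_op1 _ _ _ _).le)).trans (by omega)

theorem dot_spec (n : ℕ) (acc : Cell) (f g : ℕ → Cell) (h : acc ≠ cT)
    (hf : ∀ k, k < n → f k ≠ acc ∧ f k ≠ cT) (hg : ∀ k, k < n → g k ≠ acc ∧ g k ≠ cT)
    (m : Mem) :
    (dot n acc f g).mem m acc = ∑ k ∈ range n, m (f k) * m (g k) := by
  unfold dot
  rw [mem_seq, mem_op1]
  simp only [Op.app]
  set m1 := Function.update m acc (m cOne - m cOne) with hm1
  have := forN_inv (k := n)
    (body := fun k => (op1 .mul cT (f k) (g k)).seq (op1 .add acc acc cT))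
    (fun k m' => m' acc = ∑ i ∈ range k, m (f i) * m (g i) ∧
      ∀ c, c ≠ acc → c ≠ cT → m' c = m c) (m := m1) ?_ ?_
  · exact this.1
  · constructor
    · rw [hm1, Function.update_self]; simp
    · intro c hc _
      rw [hm1, Function.update_of_ne hc]
  · rintro k hk m' ⟨h1, h2⟩
    rw [mem_seq, mem_op1, mem_op1]
    simp only [Op.app]
    constructor
    · rw [Function.update_self, Function.update_of_ne h, Function.update_self,
        h1, h2 _ (hf k hk).1 (hf k hk).2, h2 _ (hg k hk).1 (hg k hk).2, Finset.sum_range_succ]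
    · intro c hc1 hc2
      rw [Function.update_of_ne hc1, Function.update_of_ne hc2, h2 c hc1 hc2]

/-- extraction of one digit -/
def unpackStep (β : ℕ) (d : Cell) (j : ℕ) : Tree Unit :=
  (op1 .div cT cN (cBase j)).seq <|
  (roundP β cT d).seq <|
  (op1 .mul cT d (cBase j)).seq <|
  op1 .sub cN cN cT

/-- extraction of the digits of a packed row -/
def unpackRow (n β C i : ℕ) : Tree Unit :=
  forN n fun j' => unpackStep β (C, i, n - 1 - j') (n - 1 - j')

/-- The product of the integer matrices stored in the arrays `P` and `Q`, stored in `C`. -/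
def matmul (n β P Q C : ℕ) : Tree Unit :=
  (forN n fun k => dot n (cPack k) (fun j => (Q, k, j)) cBase).seq <|
  forN n fun i => (dot n cN (fun k => (P, i, k)) cPack).seq (unpackRow n β C i)

/-- cells of given arrays -/
def Arr (s : Set ℕ) : Set Cell := {c | c.1 ∈ s}

theorem wr_unpackStep (β : ℕ) (C i j j' : ℕ) :
    (unpackStep β (C, i, j) j').Wr (Arr {4, 5, C}) := by
  refine wr_seq (wr_op1 (by simp [Arr])) (wr_seq ((wr_roundP _ _ _).mono ?_)
    (wr_seq (wr_op1 (by simp [Arr])) (wr_op1 (by simp [Arr]))))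
  rintro c (rfl | rfl) <;> simp [Arr]

theorem wr_unpackRow (n β C i : ℕ) : (unpackRow n β C i).Wr (Arr {4, 5, C}) :=
  wr_forN fun _ => wr_unpackStep _ _ _ _ _

theorem wr_unpackRow' (n β C i : ℕ) :
    (unpackRow n β C i).Wr {c | c.1 = 4 ∨ c.1 = 5 ∨ (c.1 = C ∧ c.2.1 = i)} := by
  refine wr_forN fun j => ?_
  refine wr_seq (wr_op1 (by simp)) (wr_seq ((wr_roundP _ _ _).mono ?_)
    (wr_seq (wr_op1 (by simp)) (wr_op1 (by simp))))
  rintro c (rfl | rfl) <;> simp

theorem wr_matmul (n β P Q C : ℕ) : (matmul n β P Q C).Wr (Arr {4, 5, 8, C}) := by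
  refine wr_seq (wr_forN fun k => (wr_dot _ _ _ _).mono ?_) (wr_forN fun i => wr_seq
    ((wr_dot _ _ _ _).mono ?_) ((wr_unpackRow _ _ _ _).mono ?_))
  · rintro c (rfl | rfl) <;> simp [Arr]
  · rintro c (rfl | rfl) <;> simp [Arr]
  · intro c hc
    simp only [Arr, Set.mem_ofPred_eq, Set.mem_insert_iff, Set.mem_singleton_iff] at hc ⊢
    tauto

theorem depth_unpackRow (n β C i : ℕ) : (unpackRow n β C i).depth ≤ n * (3 * β + 13) := by
  refine depth_forN_le fun j' => ?_
  refine (depth_seq_le (depth_op1 _ _ _ _).le (depth_seq_le (depth_roundP _ _ _)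
    (depth_seq_le (depth_op1 _ _ _ _).le (depth_op1 _ _ _ _).le))).trans (by omega)

theorem depth_matmul (n β P Q C : ℕ) :
    (matmul n β P Q C).depth ≤ n * (2 * n + 1) + n * (2 * n + 1 + n * (3 * β + 13)) :=
  depth_seq_le (depth_forN_le fun _ => depth_dot _ _ _ _)
    (depth_forN_le fun _ => depth_seq_le (depth_dot _ _ _ _) (depth_unpackRow _ _ _ _))

/-- The tail of a number written with small digits is small. -/
theorem tail_le {Y : ℝ} (hY : 4 ≤ Y) (c : ℕ → ℝ) (j : ℕ) (hc : ∀ i, i < j → 4 * |c i| ≤ Y) :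
    |∑ i ∈ range j, c i * Y ^ i| ≤ 1 / 3 * Y ^ j := by
  induction j with
  | zero => simp
  | succ j ih =>
    have h1 := ih fun i hi => hc i (by omega)
    have h2 := hc j (by omega)
    have hYj : 0 < Y ^ j := by positivity
    rw [Finset.sum_range_succ]
    calc |∑ i ∈ range j, c i * Y ^ i + c j * Y ^ j|
        ≤ |∑ i ∈ range j, c i * Y ^ i| + |c j * Y ^ j| := abs_add_le _ _
      _ ≤ 1 / 3 * Y ^ j + Y / 4 * Y ^ j := by
          rw [abs_mul, abs_of_pos hYj]
          have : |c j| * Y ^ j ≤ Y / 4 * Y ^ j := by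
            apply mul_le_mul_of_nonneg_right _ hYj.le
            linarith
          linarith
      _ ≤ 1 / 3 * Y ^ (j + 1) := by
          rw [pow_succ]
          nlinarith

theorem unpackRow_spec {n β L : ℕ} (hL : β + 1 ≤ L) (hβ : 2 ≤ β) {C i : ℕ} (hC : 9 ≤ C)
    (m : Mem) (hm : PowOK L m) (hB : ∀ j, j < n → m (cBase j) = (2 ^ β) ^ j)
    (c : ℕ → ℤ) (hc : ∀ j, j < n → 4 * |(c j : ℝ)| ≤ 2 ^ β)
    (hN : m cN = ∑ j ∈ range n, (c j : ℝ) * (2 ^ β) ^ j) :
    ∀ j, j < n → (unpackRow n β C i).mem m (C, i, j) = c j := by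
  have hY : (4 : ℝ) ≤ 2 ^ β := by
    calc (4 : ℝ) = 2 ^ 2 := by norm_num
      _ ≤ 2 ^ β := pow_le_pow_right₀ (by norm_num) hβ
  have hw : ∀ c' : Cell, c'.1 ≠ 4 → c'.1 ≠ 5 → c'.1 ≠ C → ∀ (m' : Mem) (j j' : ℕ),
      (unpackStep β (C, i, j) j').mem m' c' = m' c' := by
    intro c' h4 h5 h6 m' j j'
    exact mem_of_wr _ _ (wr_unpackStep β C i j j') c' (by simp [Arr, h4, h5, h6])
  have key := forN_inv (k := n)
    (body := fun j' => unpackStep β (C, i, n - 1 - j') (n - 1 - j'))
    (fun j' m' => m' cN = ∑ j ∈ range (n - j'), (c j : ℝ) * (2 ^ β) ^ j ∧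
      (∀ j, n - j' ≤ j → j < n → m' (C, i, j) = c j) ∧
      (∀ c' : Cell, c'.1 ≠ 4 → c'.1 ≠ 5 → c'.1 ≠ C → m' c' = m c')) (m := m) ?_ ?_
  · intro j hj
    exact key.2.1 j (by omega) hj
  · refine ⟨by simpa using hN, fun j h1 h2 => absurd h1 (by omega), fun _ _ _ _ => rfl⟩
  · rintro j' hj' m' ⟨h1, h2, h3⟩
    set j := n - 1 - j' with hj
    have hnj : n - j' = j + 1 := by omega
    have hnj' : n - (j' + 1) = j := by omega
    have hjn : j < n := by omega
    rw [hnj, Finset.sum_range_succ] at h1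
    set Y : ℝ := 2 ^ β with hYdef
    set T : ℝ := ∑ k ∈ range j, (c k : ℝ) * Y ^ k with hT
    have hYj : 0 < Y ^ j := by positivity
    have htail : |T| ≤ 1 / 3 * Y ^ j :=
      tail_le hY (fun k => (c k : ℝ)) j fun k hk => hc k (by omega)
    have hbase : m' (cBase j) = Y ^ j := by
      rw [h3 (cBase j) (by simp) (by simp) (by simp; omega), hB j hjn]
    -- memory after the division
    set m1 : Mem := Function.update m' cT (m' cN / m' (cBase j)) with hm1
    have hPow1 : PowOK L m1 := by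
      refine hm.of_eq (fun k => ?_) ?_ ?_
      · rw [hm1, Function.update_of_ne (by simp)]
        exact h3 _ (by simp) (by simp) (by simp; omega)
      · rw [hm1, Function.update_of_ne (by simp)]
        exact h3 _ (by simp) (by simp) (by simp; omega)
      · rw [hm1, Function.update_of_ne (by simp)]
        exact h3 _ (by simp) (by simp) (by simp; omega)
    have hval : m1 cT = c j + T / Y ^ j := by
      rw [hm1, Function.update_self, hbase, h1]
      field_simp
      ring
    have hθ : |T / Y ^ j| ≤ 1 / 3 := by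
      rw [abs_div, abs_of_pos hYj, div_le_iff₀ hYj]
      exact htail
    obtain ⟨z, hz1, -, hz3⟩ := roundP_spec (a := β) hL (x := cT) (dst := (C, i, j))
      (by simp; omega) (by intro k; simp; omega) m1 hPow1
    have hzc : z = c j := by
      have h4 : |m1 cT| ≤ 2 ^ β := by
        rw [hval]
        have h5 := hc j hjn
        have h6 := abs_add_le (c j : ℝ) (T / Y ^ j)
        have h7 : (4 : ℝ) ≤ 2 ^ β := hY
        have h8 : 4 * |(c j : ℝ)| ≤ 2 ^ β := h5
        linarith
      have h5 := hz3 h4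
      rw [hval] at h5
      have h6 : |((z : ℝ) - c j)| < 1 := by
        have e : (z : ℝ) - c j = T / Y ^ j - (c j + T / Y ^ j - z) := by ring
        rw [e]
        have := abs_sub (T / Y ^ j) (c j + T / Y ^ j - z)
        linarith
      have h7 : |z - c j| < 1 := by exact_mod_cast h6
      have := Int.abs_lt_one_iff.mp h7
      omega
    set m2 : Mem := (roundP β cT (C, i, j)).mem m1 with hm2
    have hm2d : m2 (C, i, j) = c j := by rw [hz1, hzc]
    have hm2o : ∀ c' : Cell, c' ≠ cY → c' ≠ (C, i, j) → m2 c' = m1 c' := fun c' hc1 hc2 =>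
      mem_of_wr _ _ (wr_roundP β cT (C, i, j)) c' (by simp [hc1, hc2])
    have hmem : (unpackStep β (C, i, j) j).mem m' =
        Function.update (Function.update m2 cT (m2 (C, i, j) * m2 (cBase j))) cN
          (m2 cN - m2 (C, i, j) * m2 (cBase j)) := by
      unfold unpackStep
      simp only [mem_seq, mem_op1, Op.app]
      rw [← hm1, ← hm2]
      rw [Function.update_self, Function.update_of_ne (by simp : cN ≠ cT)]
    have hCT : ((C, i, j) : Cell) ≠ cT := by simp; omega
    have hCN : ((C, i, j) : Cell) ≠ cN := by simp; omega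
    refine ⟨?_, ?_, ?_⟩
    · rw [hmem, Function.update_self, hm2d, hm2o (cBase j) (by simp) (by simp; omega),
        hm2o cN (by simp) (by simp; omega), hm1, Function.update_of_ne (by simp),
        Function.update_of_ne (by simp), hbase, h1, hnj']
      ring
    · intro k hk1 hk2
      rw [hnj'] at hk1
      rw [hmem]
      rcases eq_or_ne k j with rfl | hkj
      · rw [Function.update_of_ne hCN, Function.update_of_ne hCT, hm2d]
      · rw [Function.update_of_ne (by simp; omega), Function.update_of_ne (by simp; omega),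
          hm2o _ (by simp; omega) (by simp [hkj]), hm1, Function.update_of_ne (by simp; omega)]
        exact h2 k (by omega) hk2
    · intro c' h4 h5 h6
      rw [hw c' h4 h5 h6]
      exact h3 c' h4 h5 h6

/-- The table of the powers of the base is in place. -/
def BaseOK (n β : ℕ) (m : Mem) : Prop := ∀ j, j < n → m (cBase j) = (2 ^ β) ^ j

theorem matmul_spec {n β L : ℕ} (hL : β + 1 ≤ L) (hβ : 2 ≤ β) {P Q C : ℕ} (hP : 9 ≤ P)
    (hQ : 9 ≤ Q) (hC : 9 ≤ C) (hCP : C ≠ P) (hCQ : C ≠ Q)
    (m : Mem) (hm : PowOK L m) (hB : BaseOK n β m) (c : ℕ → ℕ → ℤ)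
    (hc : ∀ i j, i < n → j < n → 4 * |(c i j : ℝ)| ≤ 2 ^ β)
    (hPQ : ∀ i j, i < n → j < n →
      ∑ k ∈ range n, m (P, i, k) * m (Q, k, j) = (c i j : ℝ)) :
    ∀ i j, i < n → j < n → (matmul n β P Q C).mem m (C, i, j) = c i j := by
  set m1 : Mem := (forN n fun k => dot n (cPack k) (fun j => (Q, k, j)) cBase).mem m with hm1
  -- the packed rows
  have h1 : (∀ k, k < n → m1 (cPack k) = ∑ j ∈ range n, m (Q, k, j) * m (cBase j)) ∧
      ∀ c' : Cell, c'.1 ≠ 5 → c'.1 ≠ 8 → m1 c' = m c' := by
    refine forN_inv (k := n) (body := fun k => dot n (cPack k) (fun j => (Q, k, j)) cBase)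
      (fun K m' => (∀ k, k < K → m' (cPack k) = ∑ j ∈ range n, m (Q, k, j) * m (cBase j)) ∧
      ∀ c' : Cell, c'.1 ≠ 5 → c'.1 ≠ 8 → m' c' = m c') (m := m) ?_ ?_
    · exact ⟨fun k hk => absurd hk (by omega), fun _ _ _ => rfl⟩
    · rintro K hK m' ⟨g1, g2⟩
      have hwr : ∀ c' : Cell, c' ≠ cPack K → c' ≠ cT →
          (dot n (cPack K) (fun j => (Q, K, j)) cBase).mem m' c' = m' c' := fun c' hc1 hc2 =>
        mem_of_wr _ _ (wr_dot _ _ _ _) c' (by simp [hc1, hc2])
      constructor
      · intro k hk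
        rcases Nat.lt_succ_iff_lt_or_eq.mp hk with hk | rfl
        · rw [hwr _ (by simp; omega) (by simp)]
          exact g1 k hk
        · rw [dot_spec n (cPack k) _ _ (by simp) (fun j _ => ⟨by simp; omega, by simp; omega⟩)
            (fun j _ => ⟨by simp, by simp⟩)]
          refine Finset.sum_congr rfl fun j _ => ?_
          rw [g2 _ (by simp; omega) (by simp; omega), g2 _ (by simp) (by simp)]
      · intro c' h5 h8
        rw [hwr c' (by rintro rfl; exact h8 rfl) (by rintro rfl; exact h5 rfl)]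
        exact g2 c' h5 h8
  obtain ⟨h1a, h1b⟩ := h1
  have hmem : (matmul n β P Q C).mem m = (forN n fun i =>
      (dot n cN (fun k => (P, i, k)) cPack).seq (unpackRow n β C i)).mem m1 := by
    unfold matmul
    rw [mem_seq]
  rw [hmem]
  have key := forN_inv (k := n)
    (body := fun i => (dot n cN (fun k => (P, i, k)) cPack).seq (unpackRow n β C i))
    (fun I m' => (∀ i j, i < I → j < n → m' (C, i, j) = c i j) ∧
      ∀ c' : Cell, c'.1 ≠ 4 → c'.1 ≠ 5 → c'.1 ≠ C → m' c' = m1 c') (m := m1) ?_ ?_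
  · intro i j hi hj
    exact key.1 i j hi hj
  · exact ⟨fun i j hi => absurd hi (by omega), fun _ _ _ _ => rfl⟩
  · rintro I hI m' ⟨g1, g2⟩
    rw [mem_seq]
    set m2 : Mem := (dot n cN (fun k => (P, I, k)) cPack).mem m' with hm2
    have hwr : ∀ c' : Cell, c' ≠ cN → c' ≠ cT → m2 c' = m' c' := fun c' hc1 hc2 =>
      mem_of_wr _ _ (wr_dot _ _ _ _) c' (by simp [hc1, hc2])
    have e1 : m2 cN = ∑ j ∈ range n, (c I j : ℝ) * (2 ^ β) ^ j := by
      rw [hm2, dot_spec n cN _ _ (by simp) (fun k _ => ⟨by simp; omega, by simp; omega⟩)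
        (fun k _ => ⟨by simp, by simp⟩)]
      have e2 : ∀ k ∈ range n, m' (P, I, k) * m' (cPack k) =
          ∑ j ∈ range n, m (P, I, k) * m (Q, k, j) * (2 ^ β) ^ j := by
        intro k hk
        rw [Finset.mem_range] at hk
        rw [g2 _ (by simp; omega) (by simp; omega) (by simp; omega), g2 _ (by simp) (by simp)
          (by simp; omega), h1a k hk, h1b _ (by simp; omega) (by simp; omega), Finset.mul_sum]
        refine Finset.sum_congr rfl fun j hj => ?_
        rw [Finset.mem_range] at hj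
        rw [hB j hj]
        ring
      rw [Finset.sum_congr rfl e2, Finset.sum_comm]
      refine Finset.sum_congr rfl fun j hj => ?_
      rw [Finset.mem_range] at hj
      rw [← Finset.sum_mul, hPQ I j hI hj]
    have hPow2 : PowOK L m2 := by
      refine hm.of_eq (fun k => ?_) ?_ ?_
      · rw [hwr _ (by simp) (by simp), g2 _ (by simp) (by simp) (by simp; omega),
          h1b _ (by simp) (by simp)]
      · rw [hwr _ (by simp) (by simp), g2 _ (by simp) (by simp) (by simp; omega),
          h1b _ (by simp) (by simp)]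
      · rw [hwr _ (by simp) (by simp), g2 _ (by simp) (by simp) (by simp; omega),
          h1b _ (by simp) (by simp)]
    have hB2 : ∀ j, j < n → m2 (cBase j) = (2 ^ β) ^ j := by
      intro j hj
      rw [hwr _ (by simp) (by simp), g2 _ (by simp) (by simp) (by simp; omega),
          h1b _ (by simp) (by simp)]
      exact hB j hj
    have hun := unpackRow_spec hL hβ (i := I) hC m2 hPow2 hB2 (c I)
      (fun j hj => hc I j hI hj) e1
    have hw2 : ∀ c' : Cell, c'.1 ≠ 4 → c'.1 ≠ 5 → c'.1 ≠ C →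
        (unpackRow n β C I).mem m2 c' = m2 c' := fun c' h4 h5 h6 =>
      mem_of_wr _ _ (wr_unpackRow n β C I) c' (by simp [Arr, h4, h5, h6])
    constructor
    · intro i j hi hj
      rcases Nat.lt_succ_iff_lt_or_eq.mp hi with hi | rfl
      · rw [mem_of_wr _ _ (wr_unpackRow' n β C I) _ (by simp; omega),
          hwr _ (by simp; omega) (by simp; omega)]
        exact g1 i j hi hj
      · exact hun j hj
    · intro c' h4 h5 h6
      rw [hw2 c' h4 h5 h6, hwr c' (by rintro rfl; exact h5 rfl) (by rintro rfl; exact h5 rfl)]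
      exact g2 c' h4 h5 h6

end Pool.Agent.Lib.MP_2781e4_lc
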