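import Mathlib
import Pool.Agent.Lib.MP_2781e4_lc.Matmul

/-!
# Elementwise loops and the tables of powers
-/

namespace Pool.Agent.Lib.MP_2781e4_lc

open Pool.Agent.Lib.MP_2781e4_lc.Tree Finset

theorem forN_rel {K : ℕ} {body : ℕ → Tree Unit} {D : ℕ → Cell} {S : Set Cell}
    (hD : ∀ k k', k < K → k' < K → D k = D k' → k = k') (hS : ∀ k, k < K → D k ∉ S)
    (hw : ∀ k, (body k).Wr (S ∪ {D k})) (m : Mem) (R : ℕ → ℝ → Prop)
    (hb : ∀ k, k < K → ∀ m' : Mem,
      (∀ c, c ∉ S → (∀ k', k' < K → k' ≠ k → c ≠ D k') → m' c = m c) →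
      R k ((body k).mem m' (D k))) :
    ∀ k, k < K → R k ((forN K body).mem m (D k)) := by
  have key := forN_inv (k := K) (body := body)
    (fun J m' => J ≤ K ∧ (∀ k, k < J → R k (m' (D k))) ∧
      ∀ c, c ∉ S → (∀ k, k < J → c ≠ D k) → m' c = m c) (m := m) ?_ ?_
  · exact key.2.1
  · exact ⟨Nat.zero_le _, fun k hk => absurd hk (by omega), fun _ _ _ => rfl⟩
  · rintro J hJ m' ⟨-, g1, g2⟩
    refine ⟨hJ, ?_, ?_⟩
    · intro k hk
      rcases Nat.lt_succ_iff_lt_or_eq.mp hk with hk | rfl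
      · rw [mem_of_wr _ _ (hw J)]
        · exact g1 k hk
        · rintro (h | h)
          · exact hS k (by omega) h
          · have := hD k J (by omega) hJ h
            omega
      · refine hb k hJ m' fun c hc hc' => g2 c hc fun k' hk' => hc' k' (by omega) (by omega)
    · intro c hc hc'
      rw [mem_of_wr _ _ (hw J)]
      · exact g2 c hc fun k hk => hc' k (by omega)
      · rintro (h | h)
        · exact hc h
        · exact hc' J (by omega) h

/-- loop over all pairs `(i, j)` with `i, j < n` -/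
def for2 (n : ℕ) (body : ℕ → ℕ → Tree Unit) : Tree Unit :=
  forN (n * n) fun k => body (k / n) (k % n)

theorem wr_for2 {S : Set Cell} {n : ℕ} {body : ℕ → ℕ → Tree Unit}
    (h : ∀ i j, (body i j).Wr S) : (for2 n body).Wr S := wr_forN fun _ => h _ _

theorem depth_for2_le {n c : ℕ} {body : ℕ → ℕ → Tree Unit} (h : ∀ i j, (body i j).depth ≤ c) :
    (for2 n body).depth ≤ n * n * c := depth_forN_le fun _ => h _ _

theorem for2_rel {n C : ℕ} {body : ℕ → ℕ → Tree Unit} {S : Set Cell}
    (hS : ∀ i j, ((C, i, j) : Cell) ∉ S)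
    (hw : ∀ i j, (body i j).Wr (S ∪ {(C, i, j)})) (m : Mem) (R : ℕ → ℕ → ℝ → Prop)
    (hb : ∀ i j, i < n → j < n → ∀ m' : Mem,
      (∀ c, c ∉ S → (c.1 ≠ C ∨ c = (C, i, j)) → m' c = m c) →
      R i j ((body i j).mem m' (C, i, j))) :
    ∀ i j, i < n → j < n → R i j ((for2 n body).mem m (C, i, j)) := by
  intro i j hi hj
  have hn : 0 < n := by omega
  have key := forN_rel (K := n * n) (body := fun k => body (k / n) (k % n))
    (D := fun k => (C, k / n, k % n)) (S := S) ?_ (fun k _ => hS _ _) (fun k => hw _ _) m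
    (fun k v => R (k / n) (k % n) v) ?_ (i * n + j) ?_
  · have h1 : (i * n + j) / n = i := by
      rw [mul_comm, Nat.mul_add_div hn, Nat.div_eq_of_lt hj, add_zero]
    have h2 : (i * n + j) % n = j := by
      rw [mul_comm, Nat.mul_add_mod, Nat.mod_eq_of_lt hj]
    simp only [h1, h2] at key
    exact key
  · intro k k' _ _ h
    simp only [Prod.mk.injEq] at h
    rw [← Nat.div_add_mod k n, ← Nat.div_add_mod k' n, h.2.1, h.2.2]
  · intro k hk m' hm'
    refine hb (k / n) (k % n) (Nat.div_lt_of_lt_mul hk) (Nat.mod_lt _ hn) m' ?_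
    rintro c hc hc'
    refine hm' c hc ?_
    rintro k' _ hne h
    rcases hc' with hc' | hc'
    · exact hc' (by rw [h])
    · rw [hc'] at h
      simp only [Prod.mk.injEq] at h
      apply hne
      rw [← Nat.div_add_mod k n, ← Nat.div_add_mod k' n, h.2.1, h.2.2]
  · calc i * n + j < i * n + n := by omega
      _ = (i + 1) * n := by ring
      _ ≤ n * n := Nat.mul_le_mul_right n hi

/-- Sum over a flattened square. -/
theorem sum_flat (n : ℕ) (g : ℕ → ℕ → ℝ) :
    ∑ k ∈ range (n * n), g (k / n) (k % n) = ∑ i ∈ range n, ∑ j ∈ range n, g i j := by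
  rcases Nat.eq_zero_or_pos n with rfl | hn
  · simp
  have : ∀ a, ∑ k ∈ range (a * n), g (k / n) (k % n) = ∑ i ∈ range a, ∑ j ∈ range n, g i j := by
    intro a
    induction a with
    | zero => simp
    | succ a ih =>
      rw [Nat.succ_mul, Finset.sum_range_add, ih, Finset.sum_range_succ]
      congr 1
      refine Finset.sum_congr rfl fun j hj => ?_
      rw [Finset.mem_range] at hj
      have h1 : (a * n + j) / n = a := by
        rw [mul_comm, Nat.mul_add_div hn, Nat.div_eq_of_lt hj, add_zero]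
      have h2 : (a * n + j) % n = j := by
        rw [mul_comm, Nat.mul_add_mod, Nat.mod_eq_of_lt hj]
      rw [h1, h2]
  exact this n

/-! ### Tables -/

/-- constant zero -/
abbrev cZero : Cell := (3, 1, 0)

/-- set up the constants and the tables of powers -/
def setup (n L β : ℕ) : Tree Unit :=
  (op1 .sub cZero cOne cOne).seq <|
  (op1 .add cT cOne cOne).seq <|
  (op1 .div cHalf cOne cT).seq <|
  (op1 .mul (cPow 0) cOne cOne).seq <|
  (forN L fun i => op1 .add (cPow (i + 1)) (cPow i) (cPow i)).seq <|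
  (op1 .mul (cBase 0) cOne cOne).seq <|
  forN n fun j => op1 .mul (cBase (j + 1)) (cBase j) (cPow β)

theorem wr_setup (n L β : ℕ) : (setup n L β).Wr (Arr {3, 5, 6, 7}) := by
  refine wr_seq (wr_op1 (by simp [Arr])) (wr_seq (wr_op1 (by simp [Arr]))
    (wr_seq (wr_op1 (by simp [Arr])) (wr_seq (wr_op1 (by simp [Arr]))
    (wr_seq (wr_forN fun i => wr_op1 (by simp [Arr])) (wr_seq (wr_op1 (by simp [Arr]))
    (wr_forN fun i => wr_op1 (by simp [Arr])))))))

theorem depth_setup (n L β : ℕ) : (setup n L β).depth ≤ L + n + 5 := by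
  refine (depth_seq_le (depth_op1 _ _ _ _).le (depth_seq_le (depth_op1 _ _ _ _).le
    (depth_seq_le (depth_op1 _ _ _ _).le (depth_seq_le (depth_op1 _ _ _ _).le
    (depth_seq_le (depth_forN_le fun i => (depth_op1 _ _ _ _).le)
    (depth_seq_le (depth_op1 _ _ _ _).le
    (depth_forN_le fun i => (depth_op1 _ _ _ _).le))))))).trans (by omega)

theorem setup_spec (n L β : ℕ) (hβ : β ≤ L) (m : Mem) (h1 : m cOne = 1) :
    PowOK L ((setup n L β).mem m) ∧ BaseOK n β ((setup n L β).mem m) ∧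
      (setup n L β).mem m cZero = 0 := by
  set m1 : Mem := (op1 .sub cZero cOne cOne).mem m with hm1
  set m2 : Mem := (op1 .add cT cOne cOne).mem m1 with hm2
  set m3 : Mem := (op1 .div cHalf cOne cT).mem m2 with hm3
  set m4 : Mem := (op1 .mul (cPow 0) cOne cOne).mem m3 with hm4
  set m5 : Mem := (forN L fun i => op1 .add (cPow (i + 1)) (cPow i) (cPow i)).mem m4 with hm5
  set m6 : Mem := (op1 .mul (cBase 0) cOne cOne).mem m5 with hm6
  set m7 : Mem := (forN n fun j => op1 .mul (cBase (j + 1)) (cBase j) (cPow β)).mem m6 with hm7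
  have hmem : (setup n L β).mem m = m7 := by
    unfold setup
    simp only [mem_seq]
    rfl
  have a1 : m1 cOne = 1 ∧ m1 cZero = 0 := by
    rw [hm1, mem_op1]
    constructor
    · rw [Function.update_of_ne (by simp)]; exact h1
    · rw [Function.update_self]; simp [Op.app]
  have a2 : m2 cOne = 1 ∧ m2 cZero = 0 ∧ m2 cT = 2 := by
    rw [hm2, mem_op1]
    refine ⟨?_, ?_, ?_⟩
    · rw [Function.update_of_ne (by simp)]; exact a1.1
    · rw [Function.update_of_ne (by simp)]; exact a1.2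
    · rw [Function.update_self, a1.1]; norm_num [Op.app]
  have a3 : m3 cOne = 1 ∧ m3 cZero = 0 ∧ m3 cHalf = 1 / 2 := by
    rw [hm3, mem_op1]
    refine ⟨?_, ?_, ?_⟩
    · rw [Function.update_of_ne (by simp)]; exact a2.1
    · rw [Function.update_of_ne (by simp)]; exact a2.2.1
    · rw [Function.update_self, a2.1, a2.2.2]; rfl
  have a4 : m4 cOne = 1 ∧ m4 cZero = 0 ∧ m4 cHalf = 1 / 2 ∧ m4 (cPow 0) = 1 := by
    rw [hm4, mem_op1]
    refine ⟨?_, ?_, ?_, ?_⟩
    · rw [Function.update_of_ne (by simp)]; exact a3.1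
    · rw [Function.update_of_ne (by simp)]; exact a3.2.1
    · rw [Function.update_of_ne (by simp)]; exact a3.2.2
    · rw [Function.update_self, a3.1]; norm_num [Op.app]
  have a5 : (m5 cOne = 1 ∧ m5 cZero = 0 ∧ m5 cHalf = 1 / 2) ∧
      ∀ i, i ≤ L → m5 (cPow i) = 2 ^ i := by
    refine forN_inv (k := L) (body := fun i => op1 .add (cPow (i + 1)) (cPow i) (cPow i))
      (fun K m' => (m' cOne = 1 ∧ m' cZero = 0 ∧ m' cHalf = 1 / 2) ∧
        ∀ i, i ≤ K → m' (cPow i) = 2 ^ i) (m := m4) ?_ ?_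
    · refine ⟨⟨a4.1, a4.2.1, a4.2.2.1⟩, fun i hi => ?_⟩
      obtain rfl : i = 0 := by omega
      simpa using a4.2.2.2
    · rintro K hK m' ⟨⟨b1, b2, b3⟩, b4⟩
      rw [mem_op1]
      refine ⟨⟨?_, ?_, ?_⟩, ?_⟩
      · rw [Function.update_of_ne (by simp)]; exact b1
      · rw [Function.update_of_ne (by simp)]; exact b2
      · rw [Function.update_of_ne (by simp)]; exact b3
      · intro i hi
        rcases eq_or_ne i (K + 1) with rfl | hne
        · rw [Function.update_self, b4 K le_rfl]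
          simp only [Op.app]
          ring
        · rw [Function.update_of_ne (by simpa using hne)]
          exact b4 i (by omega)
  have a6 : (m6 cOne = 1 ∧ m6 cZero = 0 ∧ m6 cHalf = 1 / 2) ∧
      (∀ i, i ≤ L → m6 (cPow i) = 2 ^ i) ∧ m6 (cBase 0) = 1 := by
    rw [hm6, mem_op1]
    refine ⟨⟨?_, ?_, ?_⟩, ?_, ?_⟩
    · rw [Function.update_of_ne (by simp)]; exact a5.1.1
    · rw [Function.update_of_ne (by simp)]; exact a5.1.2.1
    · rw [Function.update_of_ne (by simp)]; exact a5.1.2.2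
    · intro i hi
      rw [Function.update_of_ne (by simp)]; exact a5.2 i hi
    · rw [Function.update_self, a5.1.1]; norm_num [Op.app]
  have a7 : (m7 cOne = 1 ∧ m7 cZero = 0 ∧ m7 cHalf = 1 / 2) ∧
      (∀ i, i ≤ L → m7 (cPow i) = 2 ^ i) ∧ ∀ j, j ≤ n → m7 (cBase j) = (2 ^ β) ^ j := by
    refine forN_inv (k := n) (body := fun j => op1 .mul (cBase (j + 1)) (cBase j) (cPow β))
      (fun K m' => (m' cOne = 1 ∧ m' cZero = 0 ∧ m' cHalf = 1 / 2) ∧
      (∀ i, i ≤ L → m' (cPow i) = 2 ^ i) ∧ ∀ j, j ≤ K → m' (cBase j) = (2 ^ β) ^ j)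
      (m := m6) ?_ ?_
    · refine ⟨a6.1, a6.2.1, fun i hi => ?_⟩
      obtain rfl : i = 0 := by omega
      simpa using a6.2.2
    · rintro K hK m' ⟨⟨b1, b2, b3⟩, b4, b5⟩
      rw [mem_op1]
      refine ⟨⟨?_, ?_, ?_⟩, ?_, ?_⟩
      · rw [Function.update_of_ne (by simp)]; exact b1
      · rw [Function.update_of_ne (by simp)]; exact b2
      · rw [Function.update_of_ne (by simp)]; exact b3
      · intro i hi
        rw [Function.update_of_ne (by simp)]; exact b4 i hi
      · intro i hi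
        rcases eq_or_ne i (K + 1) with rfl | hne
        · rw [Function.update_self, b5 K le_rfl, b4 β hβ]
          simp only [Op.app]
          ring
        · rw [Function.update_of_ne (by simpa using hne)]
          exact b5 i (by omega)
  rw [hmem]
  exact ⟨⟨a7.2.1, a7.1.2.2, a7.1.1⟩, fun j hj => a7.2.2 j hj.le, a7.1.2.1⟩

end Pool.Agent.Lib.MP_2781e4_lc
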