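import Mathlib
import Pool.Agent.Lib.MP_2781e4_lc.Loops

/-!
# The stages of the solver
-/

namespace Pool.Agent.Lib.MP_2781e4_lc

open Pool.Agent.Lib.MP_2781e4_lc.Tree Finset

/-- a power of two above the dimension -/
def ell (n : ℕ) : ℕ := Nat.clog 2 n
/-- exponent of the base used for packing -/
def bet (n q : ℕ) : ℕ := 5 * q + 2 * ell n + 9
/-- size of the table of powers of two -/
def top (n q : ℕ) : ℕ := 5 * q + 2 * ell n + 10

/-- scaling factor -/
abbrev cS : Cell := (3, 2, 0)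
/-- sum of squares of the residual -/
abbrev cE : Cell := (3, 3, 0)
/-- sum of squares of the approximate inverse -/
abbrev cZ : Cell := (3, 4, 0)
/-- `ε 2^q` -/
abbrev cV : Cell := (3, 5, 0)
/-- temporary -/
abbrev cU : Cell := (3, 6, 0)
/-- the input `ε` -/
abbrev cEps : Cell := (2, 0, 0)

/-- absolute values of the entries -/
def absP (n : ℕ) : Tree Unit :=
  for2 n fun i j => .le cZero (0, i, j) (op1 .add (20, i, j) (0, i, j) cZero)
    (op1 .sub (20, i, j) cZero (0, i, j))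

/-- twice the sum of the absolute values of the entries -/
def sumP (n : ℕ) : Tree Unit :=
  (dot (n * n) cS (fun k => (20, k / n, k % n)) fun _ => cOne).seq (op1 .add cS cS cS)

/-- scaling, rounding and transposition -/
def scaleP (n q : ℕ) : Tree Unit :=
  (for2 n fun i j => op1 .div (10, i, j) (0, i, j) cS).seq <|
  (forN n fun i => op1 .div (11, i, 0) (1, i, 0) cS).seq <|
  (for2 n fun i j => (op1 .mul cT (10, i, j) (cPow q)).seq (roundP q cT (12, i, j))).seq <|
  for2 n fun i j => op1 .add (13, i, j) (12, j, i) cZero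

/-- `R := 2^e I - P` -/
def subI (n e P R : ℕ) : Tree Unit :=
  for2 n fun i j => if i = j then op1 .sub (R, i, j) (cPow e) (P, i, j)
    else op1 .sub (R, i, j) cZero (P, i, j)

/-- one Newton step with rounding -/
def newton (n q : ℕ) : Tree Unit :=
  (matmul n (bet n q) 13 12 14).seq <|
  (subI n (2 * q + 1) 14 15).seq <|
  (matmul n (bet n q) 15 13 16).seq <|
  for2 n fun i j => (op1 .div cT (16, i, j) (cPow (2 * q))).seq (roundP (2 * q) cT (13, i, j))

/-- computation of the quantities to be tested -/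
def verify (n q : ℕ) : Tree Unit :=
  (matmul n (bet n q) 13 12 14).seq <|
  (subI n (2 * q) 14 19).seq <|
  (dot (n * n) cE (fun k => (19, k / n, k % n)) fun k => (19, k / n, k % n)).seq <|
  (dot (n * n) cZ (fun k => (13, k / n, k % n)) fun k => (13, k / n, k % n)).seq <|
  (op1 .mul cE cE (cPow 4)).seq <|
  (op1 .mul cZ cZ (cPow (2 * ell n + 4))).seq <|
  op1 .mul cV cEps (cPow q)

/-- one step of iterative refinement -/
def refine1 (n q : ℕ) : Tree Unit :=
  (forN n fun i => (dot n cU (fun j => (10, i, j)) fun j => (17, j, 0)).seq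
    (op1 .sub (18, i, 0) (11, i, 0) cU)).seq <|
  forN n fun i => (dot n cU (fun j => (13, i, j)) fun j => (18, j, 0)).seq <|
    (op1 .div cU cU (cPow q)).seq (op1 .add (17, i, 0) (17, i, 0) cU)

/-- the tests -/
def final (q : ℕ) : Tree Bool :=
  .le cE (cPow (4 * q)) (.le cZ (cPow (4 * q)) (.le cOne cV (.ret true) (.ret false))
    (.ret false)) (.ret false)

/-- the `q`-th stage -/
def stage (n q : ℕ) : Tree Bool :=
  (setup n (top n q) (bet n q)).seq <|
  (absP n).seq <|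
  (sumP n).seq <|
  (scaleP n q).seq <|
  (forN (5 * q) fun _ => newton n q).seq <|
  (verify n q).seq <|
  (forN n fun i => op1 .sub (17, i, 0) cOne cOne).seq <|
  (forN q fun _ => refine1 n q).seq <|
  final q

/-! ### Frames -/

theorem Arr_mono {s t : Set ℕ} (h : s ⊆ t) : Arr s ⊆ Arr t := fun _ hc => h hc

theorem wr_absP (n : ℕ) : (absP n).Wr (Arr {20}) :=
  wr_for2 fun _ _ => ⟨wr_op1 (by simp [Arr]), wr_op1 (by simp [Arr])⟩

theorem wr_sumP (n : ℕ) : (sumP n).Wr (Arr {3, 5}) := by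
  refine wr_seq ((wr_dot _ _ _ _).mono ?_) (wr_op1 (by simp [Arr]))
  rintro c (rfl | rfl) <;> simp [Arr]

theorem wr_scaleP (n q : ℕ) : (scaleP n q).Wr (Arr {4, 5, 10, 11, 12, 13}) := by
  refine wr_seq (wr_for2 fun _ _ => wr_op1 (by simp [Arr])) (wr_seq
    (wr_forN fun _ => wr_op1 (by simp [Arr])) (wr_seq (wr_for2 fun i j =>
    wr_seq (wr_op1 (by simp [Arr])) ((wr_roundP _ _ _).mono ?_))
    (wr_for2 fun _ _ => wr_op1 (by simp [Arr]))))
  rintro c (rfl | rfl) <;> simp [Arr]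

theorem wr_subI (n e P R : ℕ) : (subI n e P R).Wr (Arr {R}) := by
  refine wr_for2 fun i j => ?_
  split_ifs <;> exact wr_op1 (by simp [Arr])

theorem wr_newton (n q : ℕ) : (newton n q).Wr (Arr {4, 5, 8, 13, 14, 15, 16}) := by
  refine wr_seq ((wr_matmul _ _ _ _ _).mono (Arr_mono ?_)) (wr_seq ((wr_subI _ _ _ _).mono
    (Arr_mono ?_)) (wr_seq ((wr_matmul _ _ _ _ _).mono (Arr_mono ?_))
    (wr_for2 fun i j => wr_seq (wr_op1 (by simp [Arr])) ((wr_roundP _ _ _).mono ?_))))
  · intro x; simp; tauto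
  · intro x; simp; tauto
  · intro x; simp; tauto
  · rintro c (rfl | rfl) <;> simp [Arr]

theorem wr_verify (n q : ℕ) : (verify n q).Wr (Arr {3, 4, 5, 8, 14, 19}) := by
  refine wr_seq ((wr_matmul _ _ _ _ _).mono (Arr_mono ?_)) (wr_seq ((wr_subI _ _ _ _).mono
    (Arr_mono ?_)) (wr_seq ((wr_dot _ _ _ _).mono ?_) (wr_seq ((wr_dot _ _ _ _).mono ?_)
    (wr_seq (wr_op1 (by simp [Arr])) (wr_seq (wr_op1 (by simp [Arr]))
    (wr_op1 (by simp [Arr])))))))
  · intro x; simp; tauto
  · intro x; simp; tauto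
  · rintro c (rfl | rfl) <;> simp [Arr]
  · rintro c (rfl | rfl) <;> simp [Arr]

theorem wr_refine1 (n q : ℕ) : (refine1 n q).Wr (Arr {3, 5, 17, 18}) := by
  refine wr_seq (wr_forN fun i => wr_seq ((wr_dot _ _ _ _).mono ?_) (wr_op1 (by simp [Arr])))
    (wr_forN fun i => wr_seq ((wr_dot _ _ _ _).mono ?_) (wr_seq (wr_op1 (by simp [Arr]))
      (wr_op1 (by simp [Arr]))))
  · rintro c (rfl | rfl) <;> simp [Arr]
  · rintro c (rfl | rfl) <;> simp [Arr]

theorem wr_final (q : ℕ) : (final q).Wr ∅ := ⟨⟨⟨trivial, trivial⟩, trivial⟩, trivial⟩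

/-- the stages do not touch the input -/
theorem wr_stage (n q : ℕ) : (stage n q).Wr {c | 3 ≤ c.1} := by
  have key : ∀ s : Set ℕ, (∀ x ∈ s, 3 ≤ x) → Arr s ⊆ {c : Cell | 3 ≤ c.1} :=
    fun s hs c hc => hs _ hc
  refine wr_seq ((wr_setup _ _ _).mono (key _ ?_)) (wr_seq ((wr_absP _).mono (key _ ?_))
    (wr_seq ((wr_sumP _).mono (key _ ?_)) (wr_seq ((wr_scaleP _ _).mono (key _ ?_))
    (wr_seq (wr_forN fun _ => (wr_newton _ _).mono (key _ ?_))
    (wr_seq ((wr_verify _ _).mono (key _ ?_)) (wr_seq (wr_forN fun _ => wr_op1 ?_)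
    (wr_seq (wr_forN fun _ => (wr_refine1 _ _).mono (key _ ?_))
    ((wr_final _).mono (Set.empty_subset _)))))))))
  all_goals simp

/-! ### Depths -/

theorem depth_absP (n : ℕ) : (absP n).depth ≤ n * n * 2 :=
  depth_for2_le fun _ _ => le_of_eq rfl

theorem depth_sumP (n : ℕ) : (sumP n).depth ≤ 2 * (n * n) + 2 :=
  (depth_seq_le (depth_dot _ _ _ _) (depth_op1 _ _ _ _).le).trans (by omega)

theorem depth_scaleP (n q : ℕ) : (scaleP n q).depth ≤ n * n * (3 * q + 13) + n := by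
  refine (depth_seq_le (depth_for2_le fun _ _ => (depth_op1 _ _ _ _).le) (depth_seq_le
    (depth_forN_le fun _ => (depth_op1 _ _ _ _).le) (depth_seq_le (depth_for2_le fun _ _ =>
    depth_seq_le (depth_op1 _ _ _ _).le (depth_roundP _ _ _)) (depth_for2_le fun _ _ =>
    (depth_op1 _ _ _ _).le)))).trans ?_
  have : n * n * 1 + (n * 1 + (n * n * (1 + (3 * q + 10)) + n * n * 1)) =
    n * n * (3 * q + 13) + n := by ring
  omega

theorem depth_subI (n e P R : ℕ) : (subI n e P R).depth ≤ n * n * 1 :=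
  depth_for2_le fun _ _ => by split_ifs <;> exact le_of_eq rfl

theorem depth_newton (n q : ℕ) : (newton n q).depth ≤
    2 * (n * (2 * n + 1) + n * (2 * n + 1 + n * (3 * bet n q + 13))) +
      n * n * (6 * q + 12) := by
  refine (depth_seq_le (depth_matmul _ _ _ _ _) (depth_seq_le (depth_subI _ _ _ _)
    (depth_seq_le (depth_matmul _ _ _ _ _) (depth_for2_le fun _ _ =>
    depth_seq_le (depth_op1 _ _ _ _).le (depth_roundP _ _ _))))).trans ?_
  have : n * n * (1 + (3 * (2 * q) + 10)) + n * n * 1 = n * n * (6 * q + 12) := by ring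
  omega

theorem depth_verify (n q : ℕ) : (verify n q).depth ≤
    (n * (2 * n + 1) + n * (2 * n + 1 + n * (3 * bet n q + 13))) + 5 * (n * n) + 5 := by
  refine (depth_seq_le (depth_matmul _ _ _ _ _) (depth_seq_le (depth_subI _ _ _ _)
    (depth_seq_le (depth_dot _ _ _ _) (depth_seq_le (depth_dot _ _ _ _)
    (depth_seq_le (depth_op1 _ _ _ _).le (depth_seq_le (depth_op1 _ _ _ _).le
    (depth_op1 _ _ _ _).le)))))).trans ?_
  omega

theorem depth_refine1 (n q : ℕ) : (refine1 n q).depth ≤ n * (4 * n + 5) := by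
  refine (depth_seq_le (depth_forN_le fun _ => depth_seq_le (depth_dot _ _ _ _)
    (depth_op1 _ _ _ _).le) (depth_forN_le fun _ => depth_seq_le (depth_dot _ _ _ _)
    (depth_seq_le (depth_op1 _ _ _ _).le (depth_op1 _ _ _ _).le))).trans ?_
  have : n * (2 * n + 1 + 1) + n * (2 * n + 1 + (1 + 1)) = n * (4 * n + 5) := by ring
  omega

theorem depth_final (q : ℕ) : (final q).depth = 3 := rfl

theorem depth_stage (n q : ℕ) (hn : 1 ≤ n) :
    (stage n q).depth ≤ 1000 * n ^ 2 * (q + ell n + 1) ^ 2 := by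
  refine (depth_seq_le (depth_setup _ _ _) (depth_seq_le (depth_absP _) (depth_seq_le
    (depth_sumP _) (depth_seq_le (depth_scaleP _ _) (depth_seq_le
    (depth_forN_le fun _ => depth_newton _ _) (depth_seq_le (depth_verify _ _) (depth_seq_le
    (depth_forN_le fun _ => (depth_op1 _ _ _ _).le) (depth_seq_le
    (depth_forN_le fun _ => depth_refine1 _ _) (depth_final _).le)))))))).trans ?_
  unfold top bet
  set l := ell n
  obtain ⟨k, rfl⟩ : ∃ k, n = k + 1 := ⟨n - 1, by omega⟩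
  ring_nf
  nlinarith [Nat.zero_le (k * q), Nat.zero_le (k * l), Nat.zero_le (q * l),
    Nat.zero_le (k * q * l), Nat.zero_le (k ^ 2 * q), Nat.zero_le (k ^ 2 * l),
    Nat.zero_le (k ^ 2 * q * l), Nat.zero_le (k * q ^ 2), Nat.zero_le (k ^ 2 * q ^ 2),
    Nat.zero_le (q ^ 2), Nat.zero_le (l ^ 2), Nat.zero_le (k * l ^ 2),
    Nat.zero_le (k ^ 2 * l ^ 2), Nat.zero_le (k ^ 2)]

end Pool.Agent.Lib.MP_2781e4_lc
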