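import Mathlib
import Pool.Agent.Lib.MP_2781e4_lc.Sim
import Pool.Agent.Lib.MP_2781e4_lc.Stage

/-!
# The code of the solver

Index registers: `0` the dimension `n`, `1` its logarithm `ell`, `2` a flag, `3` the number `q`
of the stage, `4`-`10` quantities derived from `q` and `ell`; the registers `≥ 11` are loop
counters.
-/

namespace Pool.Agent.Lib.MP_2781e4_lc

open Pool.Agent.Lib.MP_2781e4_lc.Tree

/-- the parameters are in place -/
structure Par (n q : ℕ) (v : Regs) : Prop where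
  p0 : v 0 = n
  p1 : v 1 = ell n
  p3 : v 3 = q
  p4 : v 4 = 2 * q
  p5 : v 5 = 2 * q + 1
  p6 : v 6 = 4 * q
  p7 : v 7 = 5 * q
  p8 : v 8 = bet n q
  p9 : v 9 = top n q
  p10 : v 10 = 2 * ell n + 4

theorem Par.up {n q : ℕ} {v : Regs} (h : Par n q v) {N : ℕ} (hN : 11 ≤ N) (k : ℕ) :
    Par n q (Function.update v N k) := by
  refine ⟨?_, ?_, ?_, ?_, ?_, ?_, ?_, ?_, ?_, ?_⟩
  · rw [Function.update_of_ne (by omega)]; exact h.p0
  · rw [Function.update_of_ne (by omega)]; exact h.p1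
  · rw [Function.update_of_ne (by omega)]; exact h.p3
  · rw [Function.update_of_ne (by omega)]; exact h.p4
  · rw [Function.update_of_ne (by omega)]; exact h.p5
  · rw [Function.update_of_ne (by omega)]; exact h.p6
  · rw [Function.update_of_ne (by omega)]; exact h.p7
  · rw [Function.update_of_ne (by omega)]; exact h.p8
  · rw [Function.update_of_ne (by omega)]; exact h.p9
  · rw [Function.update_of_ne (by omega)]; exact h.p10

/-- constant addresses -/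
def cst (k i : ℕ) : Addr := ⟨k, .lit i, .lit 0⟩
/-- address of a power of two -/
def pw (e : Ix) : Addr := ⟨6, e, .lit 0⟩
/-- address of a power of the base -/
def bs (e : Ix) : Addr := ⟨7, e, .lit 0⟩

theorem ev_cst {N : ℕ} {v : Regs} (k i : ℕ) : EvA N v (cst k i) (k, i, 0) :=
  EvA.mk (EvI.lit i) (EvI.lit 0)

theorem ev_pw {N : ℕ} {v : Regs} {e : Ix} {i : ℕ} (h : EvI N v e i) : EvA N v (pw e) (cPow i) :=
  EvA.mk h (EvI.lit 0)

theorem ev_bs {N : ℕ} {v : Regs} {e : Ix} {i : ℕ} (h : EvI N v e i) : EvA N v (bs e) (cBase i) :=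
  EvA.mk h (EvI.lit 0)

/-! ### Scalar products -/

/-- code of `dot` -/
def dotC (N : ℕ) (len : Ix) (acc f g : Addr) : Prog :=
  .seq (.arith .sub acc (cst 2 1) (cst 2 1)) (forUp N len
    (.seq (.arith .mul (cst 5 1) f g) (.arith .add acc acc (cst 5 1))))

theorem sim_dot {N : ℕ} {v : Regs} {len : Ix} {K : ℕ} {acc f g : Addr} {acc' : Cell}
    {f' g' : ℕ → Cell} (hlen : EvI N v len K) (hacc : EvA N v acc acc')
    (hf : ∀ k, k < K → EvA (N + 1) (Function.update v N k) f (f' k))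
    (hg : ∀ k, k < K → EvA (N + 1) (Function.update v N k) g (g' k)) :
    Sim N v (dotC N len acc f g) (dot K acc' f' g') (1 + (K * (2 + 2) + 2)) :=
  sim_seq (sim_op hacc (ev_cst 2 1) (ev_cst 2 1)) (sim_forUp hlen fun k hk =>
    sim_seq (sim_op (ev_cst 5 1) (hf k hk) (hg k hk)) (sim_op hacc.up hacc.up (ev_cst 5 1)))

/-- code of `dot` over all pairs -/
def dotC2 (N : ℕ) (acc f g : Addr) : Prog :=
  .seq (.arith .sub acc (cst 2 1) (cst 2 1)) (forUp N (.reg 0) (forUp (N + 1) (.reg 0)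
    (.seq (.arith .mul (cst 5 1) f g) (.arith .add acc acc (cst 5 1)))))

theorem sim_dot2 {N : ℕ} {v : Regs} {n : ℕ} {acc f g : Addr} {acc' : Cell}
    {f' g' : ℕ → ℕ → Cell} (hlen : EvI N v (.reg 0) n) (hacc : EvA N v acc acc')
    (hf : ∀ i j, i < n → j < n →
      EvA (N + 2) (Function.update (Function.update v N i) (N + 1) j) f (f' i j))
    (hg : ∀ i j, i < n → j < n →
      EvA (N + 2) (Function.update (Function.update v N i) (N + 1) j) g (g' i j)) :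
    Sim N v (dotC2 N acc f g) (dot (n * n) acc' (fun k => f' (k / n) (k % n))
      fun k => g' (k / n) (k % n)) (1 + (n * (n * (2 + 2) + 2 + 2) + 2)) := by
  refine sim_seq (sim_op hacc (ev_cst 2 1) (ev_cst 2 1)) (Sim.congr (sim_forUp hlen fun i hi =>
    sim_forUp hlen.up fun j hj =>
    sim_seq (sim_op (ev_cst 5 1) (hf i j hi hj) (hg i j hi hj))
      (sim_op hacc.up.up hacc.up.up (ev_cst 5 1))) fun m => ?_)
  exact mem_flat n (fun i j => (op1 .mul cT (f' i j) (g' i j)).seq (op1 .add acc' acc' cT)) m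

/-! ### Double loops -/

/-- double loop -/
def for2C (N : ℕ) (P : Prog) : Prog := forUp N (.reg 0) (forUp (N + 1) (.reg 0) P)

theorem sim_for2 {N : ℕ} {v : Regs} {n : ℕ} {P : Prog} {body : ℕ → ℕ → Tree Unit} {t : ℕ}
    (hlen : EvI N v (.reg 0) n)
    (hP : ∀ i j, i < n → j < n →
      Sim (N + 2) (Function.update (Function.update v N i) (N + 1) j) P (body i j) t) :
    Sim N v (for2C N P) (for2 n body) (n * (n * (t + 2) + 2 + 2) + 2) :=
  Sim.congr (sim_forUp hlen fun i hi => sim_forUp hlen.up fun j hj => hP i j hi hj)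
    fun m => mem_flat n body m

/-! ### Rounding -/

/-- code of `roundStep` -/
def roundStepC (i : Ix) (dst : Addr) : Prog :=
  .ifLe (pw i) (cst 4 0)
    (.seq (.arith .sub (cst 4 0) (cst 4 0) (pw i)) (.arith .add dst dst (pw i))) .skip

/-- code of `roundP` -/
def roundC (N : ℕ) (a : Ix) (x dst : Addr) : Prog :=
  .seq (.arith .add (cst 4 0) x (pw a)) <|
  .seq (.arith .add (cst 4 0) (cst 4 0) (cst 3 0)) <|
  .seq (.arith .sub dst (cst 2 1) (cst 2 1)) <|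
  .seq (forDn N (.seq (.seq (.set N a) (.succ N)) (.succ N)) (roundStepC (.reg N) dst)) <|
  .arith .sub dst dst (pw a)

theorem sim_round {N : ℕ} {v : Regs} {a : Ix} {a' : ℕ} {x dst : Addr} {x' dst' : Cell}
    (ha : EvI N v a a') (hx : EvA N v x x') (hd : EvA N v dst dst') :
    Sim N v (roundC N a x dst) (roundP a' x' dst') (5 * a' + 18) := by
  have hL : Loads N v (.seq (.seq (.set N a) (.succ N)) (.succ N)) (a' + 2) 3 :=
    loads_succ (loads_succ (loads_set ha))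
  have hloop : Sim N v (forDn N (.seq (.seq (.set N a) (.succ N)) (.succ N))
      (roundStepC (.reg N) dst)) (forN (a' + 2) fun k => roundStep dst' (a' + 1 - k))
      (3 + ((a' + 2) * (3 + 2) + 1)) := by
    refine sim_forDn hL fun k hk => ?_
    have e : a' + 2 - 1 - k = a' + 1 - k := by omega
    rw [e]
    exact sim_le (ev_pw EvI.top) (ev_cst 4 0)
      (sim_seq (sim_op (ev_cst 4 0) (ev_cst 4 0) (ev_pw EvI.top))
        (sim_op hd.up hd.up (ev_pw EvI.top)))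
      (sim_skip.mono (by omega))
  refine (sim_seq (sim_op (ev_cst 4 0) hx (ev_pw ha)) <|
    sim_seq (sim_op (ev_cst 4 0) (ev_cst 4 0) (ev_cst 3 0)) <|
    sim_seq (sim_op hd (ev_cst 2 1) (ev_cst 2 1)) <|
    sim_seq hloop (sim_op hd hd (ev_pw ha))).mono (by omega)

/-! ### Products of integer matrices -/

/-- code of `unpackStep` -/
def unpackStepC (N : ℕ) (d : Addr) (j : Ix) : Prog :=
  .seq (.arith .div (cst 5 1) (cst 5 0) (bs j)) <|
  .seq (roundC N (.reg 8) (cst 5 1) d) <|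
  .seq (.arith .mul (cst 5 1) d (bs j)) <|
  .arith .sub (cst 5 0) (cst 5 0) (cst 5 1)

theorem sim_unpackStep {N : ℕ} {v : Regs} {d : Addr} {d' : Cell} {j : Ix} {j' β : ℕ}
    (hβ : EvI N v (.reg 8) β) (hd : EvA N v d d') (hj : EvI N v j j') :
    Sim N v (unpackStepC N d j) (unpackStep β d' j') (5 * β + 21) :=
  (sim_seq (sim_op (ev_cst 5 1) (ev_cst 5 0) (ev_bs hj)) <|
    sim_seq (sim_round hβ (ev_cst 5 1) hd) <|
    sim_seq (sim_op (ev_cst 5 1) hd (ev_bs hj)) <|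
    sim_op (ev_cst 5 0) (ev_cst 5 0) (ev_cst 5 1)).mono (by omega)

/-- code of `unpackRow` -/
def unpackRowC (N C : ℕ) (i : Ix) : Prog :=
  forDn N (.set N (.reg 0)) (unpackStepC (N + 1) ⟨C, i, .reg N⟩ (.reg N))

theorem sim_unpackRow {N : ℕ} {v : Regs} {C : ℕ} {i : Ix} {i' n β : ℕ}
    (hn : EvI N v (.reg 0) n) (hβ : EvI N v (.reg 8) β) (hi : EvI N v i i') :
    Sim N v (unpackRowC N C i) (unpackRow n β C i') (1 + (n * (5 * β + 21 + 2) + 1)) :=
  sim_forDn (loads_set hn) fun _ _ => sim_unpackStep hβ.up (EvA.mk hi.up EvI.top) EvI.top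

/-- code of `matmul` -/
def matmulC (N P Q C : ℕ) : Prog :=
  .seq (forUp N (.reg 0) (dotC (N + 1) (.reg 0) ⟨8, .reg N, .lit 0⟩
    ⟨Q, .reg N, .reg (N + 1)⟩ (bs (.reg (N + 1))))) <|
  forUp N (.reg 0) (.seq (dotC (N + 1) (.reg 0) (cst 5 0) ⟨P, .reg N, .reg (N + 1)⟩
    ⟨8, .reg (N + 1), .lit 0⟩) (unpackRowC (N + 1) C (.reg N)))

/-- cost of `matmulC` -/
def costMul (n q : ℕ) : ℕ :=
  n * (1 + (n * (2 + 2) + 2) + 2) + 2 +
    (n * (1 + (n * (2 + 2) + 2) + (1 + (n * (5 * bet n q + 21 + 2) + 1)) + 2) + 2)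

theorem sim_matmul {N : ℕ} {v : Regs} {n q : ℕ} (hN : 11 ≤ N) (h : Par n q v) (P Q C : ℕ) :
    Sim N v (matmulC N P Q C) (matmul n (bet n q) P Q C) (costMul n q) := by
  have hn : EvI N v (.reg 0) n := EvI.reg (by omega) h.p0
  have hβ : EvI N v (.reg 8) (bet n q) := EvI.reg (by omega) h.p8
  refine sim_seq (sim_forUp hn fun k hk => sim_dot hn.up (EvA.mk EvI.top (EvI.lit 0))
    (fun j hj => EvA.mk EvI.top.up EvI.top) (fun j hj => ev_bs EvI.top))
    (sim_forUp hn fun i hi => sim_seq (sim_dot hn.up (ev_cst 5 0)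
      (fun k hk => EvA.mk EvI.top.up EvI.top) (fun k hk => EvA.mk EvI.top (EvI.lit 0)))
      (sim_unpackRow hn.up hβ.up EvI.top))

/-! ### The blocks of a stage -/

/-- code of `setup` -/
def setupC (N : ℕ) : Prog :=
  .seq (.arith .sub (cst 3 1) (cst 2 1) (cst 2 1)) <|
  .seq (.arith .add (cst 5 1) (cst 2 1) (cst 2 1)) <|
  .seq (.arith .div (cst 3 0) (cst 2 1) (cst 5 1)) <|
  .seq (.arith .mul (cst 6 0) (cst 2 1) (cst 2 1)) <|
  .seq (forUp N (.reg 9) (.seq (.seq (.set (N + 1) (.reg N)) (.succ (N + 1)))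
    (.arith .add (pw (.reg (N + 1))) (pw (.reg N)) (pw (.reg N))))) <|
  .seq (.arith .mul (cst 7 0) (cst 2 1) (cst 2 1)) <|
  forUp N (.reg 0) (.seq (.seq (.set (N + 1) (.reg N)) (.succ (N + 1)))
    (.arith .mul (bs (.reg (N + 1))) (bs (.reg N)) (pw (.reg 8))))

theorem sim_setup {N : ℕ} {v : Regs} {n q : ℕ} (hN : 11 ≤ N) (h : Par n q v) :
    Sim N v (setupC N) (setup n (top n q) (bet n q)) (5 * top n q + 5 * n + 10) := by
  have hn : EvI N v (.reg 0) n := EvI.reg (by omega) h.p0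
  have hβ : EvI N v (.reg 8) (bet n q) := EvI.reg (by omega) h.p8
  have ht : EvI N v (.reg 9) (top n q) := EvI.reg (by omega) h.p9
  refine (sim_seq (sim_op (ev_cst 3 1) (ev_cst 2 1) (ev_cst 2 1)) <|
    sim_seq (sim_op (ev_cst 5 1) (ev_cst 2 1) (ev_cst 2 1)) <|
    sim_seq (sim_op (ev_cst 3 0) (ev_cst 2 1) (ev_cst 5 1)) <|
    sim_seq (sim_op (ev_cst 6 0) (ev_cst 2 1) (ev_cst 2 1)) <|
    sim_seq (sim_forUp ht fun i hi => sim_let (loads_succ (loads_set EvI.top))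
      (sim_op (ev_pw EvI.top) (ev_pw EvI.top.up) (ev_pw EvI.top.up))) <|
    sim_seq (sim_op (ev_cst 7 0) (ev_cst 2 1) (ev_cst 2 1)) <|
    sim_forUp hn fun j hj => sim_let (loads_succ (loads_set EvI.top))
      (sim_op (ev_bs EvI.top) (ev_bs EvI.top.up) (ev_pw hβ.up.up))).mono (by omega)

/-- code of `absP` -/
def absC (N : ℕ) : Prog :=
  for2C N (.ifLe (cst 3 1) ⟨0, .reg N, .reg (N + 1)⟩
    (.arith .add ⟨20, .reg N, .reg (N + 1)⟩ ⟨0, .reg N, .reg (N + 1)⟩ (cst 3 1))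
    (.arith .sub ⟨20, .reg N, .reg (N + 1)⟩ (cst 3 1) ⟨0, .reg N, .reg (N + 1)⟩))

theorem ev2 {N : ℕ} {v : Regs} (k i j : ℕ) :
    EvA (N + 2) (Function.update (Function.update v N i) (N + 1) j)
      ⟨k, .reg N, .reg (N + 1)⟩ (k, i, j) := EvA.mk EvI.top.up EvI.top

theorem ev2' {N : ℕ} {v : Regs} (k i j : ℕ) :
    EvA (N + 2) (Function.update (Function.update v N i) (N + 1) j)
      ⟨k, .reg (N + 1), .reg N⟩ (k, j, i) := EvA.mk EvI.top EvI.top.up

theorem sim_abs {N : ℕ} {v : Regs} {n q : ℕ} (hN : 11 ≤ N) (h : Par n q v) :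
    Sim N v (absC N) (absP n) (n * (n * (2 + 2) + 2 + 2) + 2) :=
  sim_for2 (EvI.reg (by omega) h.p0) fun i j _ _ => sim_le (ev_cst 3 1) (ev2 0 i j)
    (sim_op (ev2 20 i j) (ev2 0 i j) (ev_cst 3 1))
    (sim_op (ev2 20 i j) (ev_cst 3 1) (ev2 0 i j))

/-- code of `sumP` -/
def sumC (N : ℕ) : Prog :=
  .seq (dotC2 N (cst 3 2) ⟨20, .reg N, .reg (N + 1)⟩ (cst 2 1))
    (.arith .add (cst 3 2) (cst 3 2) (cst 3 2))

theorem sim_sum {N : ℕ} {v : Regs} {n q : ℕ} (hN : 11 ≤ N) (h : Par n q v) :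
    Sim N v (sumC N) (sumP n) (1 + (n * (n * (2 + 2) + 2 + 2) + 2) + 1) :=
  sim_seq (sim_dot2 (f' := fun i j => (20, i, j)) (g' := fun _ _ => cOne)
    (EvI.reg (by omega) h.p0) (ev_cst 3 2) (fun i j _ _ => ev2 20 i j)
    (fun _ _ _ _ => ev_cst 2 1)) (sim_op (ev_cst 3 2) (ev_cst 3 2) (ev_cst 3 2))

/-- code of `scaleP` -/
def scaleC (N : ℕ) : Prog :=
  .seq (for2C N (.arith .div ⟨10, .reg N, .reg (N + 1)⟩ ⟨0, .reg N, .reg (N + 1)⟩
    (cst 3 2))) <|
  .seq (forUp N (.reg 0) (.arith .div ⟨11, .reg N, .lit 0⟩ ⟨1, .reg N, .lit 0⟩ (cst 3 2))) <|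
  .seq (for2C N (.seq (.arith .mul (cst 5 1) ⟨10, .reg N, .reg (N + 1)⟩ (pw (.reg 3)))
    (roundC (N + 2) (.reg 3) (cst 5 1) ⟨12, .reg N, .reg (N + 1)⟩))) <|
  for2C N (.arith .add ⟨13, .reg N, .reg (N + 1)⟩ ⟨12, .reg (N + 1), .reg N⟩ (cst 3 1))

theorem sim_scale {N : ℕ} {v : Regs} {n q : ℕ} (hN : 11 ≤ N) (h : Par n q v) :
    Sim N v (scaleC N) (scaleP n q) ((n * (n * (1 + 2) + 2 + 2) + 2) + ((n * (1 + 2) + 2) +
      ((n * (n * (1 + (5 * q + 18) + 2) + 2 + 2) + 2) + (n * (n * (1 + 2) + 2 + 2) + 2)))) := by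
  have hn : EvI N v (.reg 0) n := EvI.reg (by omega) h.p0
  have hq : EvI N v (.reg 3) q := EvI.reg (by omega) h.p3
  exact sim_seq (sim_for2 hn fun i j _ _ => sim_op (ev2 10 i j) (ev2 0 i j) (ev_cst 3 2))
    (sim_seq (sim_forUp hn fun i _ => sim_op (EvA.mk EvI.top (EvI.lit 0))
      (EvA.mk EvI.top (EvI.lit 0)) (ev_cst 3 2))
    (sim_seq (sim_for2 hn fun i j _ _ => sim_seq (sim_op (ev_cst 5 1) (ev2 10 i j)
      (ev_pw hq.up.up)) (sim_round hq.up.up (ev_cst 5 1) (ev2 12 i j)))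
    (sim_for2 hn fun i j _ _ => sim_op (ev2 13 i j) (ev2' 12 i j) (ev_cst 3 1))))

/-- code of `subI` -/
def subIC (N : ℕ) (e : Ix) (P R : ℕ) : Prog :=
  for2C N (.ifLt (.reg N) (.reg (N + 1))
    (.arith .sub ⟨R, .reg N, .reg (N + 1)⟩ (cst 3 1) ⟨P, .reg N, .reg (N + 1)⟩)
    (.ifLt (.reg (N + 1)) (.reg N)
      (.arith .sub ⟨R, .reg N, .reg (N + 1)⟩ (cst 3 1) ⟨P, .reg N, .reg (N + 1)⟩)
      (.arith .sub ⟨R, .reg N, .reg (N + 1)⟩ (pw e) ⟨P, .reg N, .reg (N + 1)⟩)))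

theorem sim_subI {N : ℕ} {v : Regs} {n e' : ℕ} {e : Ix} (hn : EvI N v (.reg 0) n)
    (he : EvI N v e e') (P R : ℕ) :
    Sim N v (subIC N e P R) (subI n e' P R) (n * (n * (3 + 2) + 2 + 2) + 2) := by
  refine sim_for2 hn fun i j _ _ => sim_ifLt EvI.top.up EvI.top (fun hij => ?_) (fun hij =>
    sim_ifLt EvI.top EvI.top.up (fun hji => ?_) (fun hji => ?_))
  · rw [if_neg (by omega)]
    exact (sim_op (ev2 R i j) (ev_cst 3 1) (ev2 P i j)).mono (by omega)
  · rw [if_neg (by omega)]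
    exact sim_op (ev2 R i j) (ev_cst 3 1) (ev2 P i j)
  · rw [if_pos (by omega)]
    exact sim_op (ev2 R i j) (ev_pw he.up.up) (ev2 P i j)

/-- code of `newton` -/
def newtonC (N : ℕ) : Prog :=
  .seq (matmulC N 13 12 14) <|
  .seq (subIC N (.reg 5) 14 15) <|
  .seq (matmulC N 15 13 16) <|
  for2C N (.seq (.arith .div (cst 5 1) ⟨16, .reg N, .reg (N + 1)⟩ (pw (.reg 4)))
    (roundC (N + 2) (.reg 4) (cst 5 1) ⟨13, .reg N, .reg (N + 1)⟩))

/-- cost of `newtonC` -/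
def costNewton (n q : ℕ) : ℕ :=
  costMul n q + ((n * (n * (3 + 2) + 2 + 2) + 2) + (costMul n q +
    (n * (n * (1 + (5 * (2 * q) + 18) + 2) + 2 + 2) + 2)))

theorem sim_newton {N : ℕ} {v : Regs} {n q : ℕ} (hN : 11 ≤ N) (h : Par n q v) :
    Sim N v (newtonC N) (newton n q) (costNewton n q) := by
  have hn : EvI N v (.reg 0) n := EvI.reg (by omega) h.p0
  have h4 : EvI N v (.reg 4) (2 * q) := EvI.reg (by omega) h.p4
  have h5 : EvI N v (.reg 5) (2 * q + 1) := EvI.reg (by omega) h.p5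
  exact sim_seq (sim_matmul hN h 13 12 14) (sim_seq (sim_subI hn h5 14 15)
    (sim_seq (sim_matmul hN h 15 13 16) (sim_for2 hn fun i j _ _ =>
      sim_seq (sim_op (ev_cst 5 1) (ev2 16 i j) (ev_pw h4.up.up))
        (sim_round h4.up.up (ev_cst 5 1) (ev2 13 i j)))))

/-- code of `verify` -/
def verifyC (N : ℕ) : Prog :=
  .seq (matmulC N 13 12 14) <|
  .seq (subIC N (.reg 4) 14 19) <|
  .seq (dotC2 N (cst 3 3) ⟨19, .reg N, .reg (N + 1)⟩ ⟨19, .reg N, .reg (N + 1)⟩) <|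
  .seq (dotC2 N (cst 3 4) ⟨13, .reg N, .reg (N + 1)⟩ ⟨13, .reg N, .reg (N + 1)⟩) <|
  .seq (.arith .mul (cst 3 3) (cst 3 3) (cst 6 4)) <|
  .seq (.arith .mul (cst 3 4) (cst 3 4) (pw (.reg 10))) <|
  .arith .mul (cst 3 5) (cst 2 0) (pw (.reg 3))

/-- cost of `verifyC` -/
def costVerify (n q : ℕ) : ℕ :=
  costMul n q + ((n * (n * (3 + 2) + 2 + 2) + 2) + ((1 + (n * (n * (2 + 2) + 2 + 2) + 2)) +
    ((1 + (n * (n * (2 + 2) + 2 + 2) + 2)) + (1 + (1 + 1)))))

theorem sim_verify {N : ℕ} {v : Regs} {n q : ℕ} (hN : 11 ≤ N) (h : Par n q v) :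
    Sim N v (verifyC N) (verify n q) (costVerify n q) := by
  have hn : EvI N v (.reg 0) n := EvI.reg (by omega) h.p0
  have h3 : EvI N v (.reg 3) q := EvI.reg (by omega) h.p3
  have h4 : EvI N v (.reg 4) (2 * q) := EvI.reg (by omega) h.p4
  have h10 : EvI N v (.reg 10) (2 * ell n + 4) := EvI.reg (by omega) h.p10
  exact sim_seq (sim_matmul hN h 13 12 14) (sim_seq (sim_subI hn h4 14 19)
    (sim_seq (sim_dot2 (f' := fun i j => (19, i, j)) (g' := fun i j => (19, i, j)) hn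
      (ev_cst 3 3) (fun i j _ _ => ev2 19 i j) (fun i j _ _ => ev2 19 i j))
    (sim_seq (sim_dot2 (f' := fun i j => (13, i, j)) (g' := fun i j => (13, i, j)) hn
      (ev_cst 3 4) (fun i j _ _ => ev2 13 i j) (fun i j _ _ => ev2 13 i j))
    (sim_seq (sim_op (ev_cst 3 3) (ev_cst 3 3) (ev_cst 6 4))
    (sim_seq (sim_op (ev_cst 3 4) (ev_cst 3 4) (ev_pw h10))
      (sim_op (ev_cst 3 5) (ev_cst 2 0) (ev_pw h3)))))))

/-- code of `refine1` -/
def refineC (N : ℕ) : Prog :=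
  .seq (forUp N (.reg 0) (.seq (dotC (N + 1) (.reg 0) (cst 3 6) ⟨10, .reg N, .reg (N + 1)⟩
      ⟨17, .reg (N + 1), .lit 0⟩)
    (.arith .sub ⟨18, .reg N, .lit 0⟩ ⟨11, .reg N, .lit 0⟩ (cst 3 6)))) <|
  forUp N (.reg 0) (.seq (dotC (N + 1) (.reg 0) (cst 3 6) ⟨13, .reg N, .reg (N + 1)⟩
      ⟨18, .reg (N + 1), .lit 0⟩) <|
    .seq (.arith .div (cst 3 6) (cst 3 6) (pw (.reg 3)))
      (.arith .add ⟨17, .reg N, .lit 0⟩ ⟨17, .reg N, .lit 0⟩ (cst 3 6)))

/-- cost of `refineC` -/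
def costRefine (n : ℕ) : ℕ :=
  (n * (1 + (n * (2 + 2) + 2) + 1 + 2) + 2) + (n * (1 + (n * (2 + 2) + 2) + (1 + 1) + 2) + 2)

theorem sim_refine {N : ℕ} {v : Regs} {n q : ℕ} (hN : 11 ≤ N) (h : Par n q v) :
    Sim N v (refineC N) (refine1 n q) (costRefine n) := by
  have hn : EvI N v (.reg 0) n := EvI.reg (by omega) h.p0
  have h3 : EvI N v (.reg 3) q := EvI.reg (by omega) h.p3
  have e1 : ∀ k i, EvA (N + 1) (Function.update v N i) ⟨k, .reg N, .lit 0⟩ (k, i, 0) :=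
    fun k i => EvA.mk EvI.top (EvI.lit 0)
  have e2 : ∀ k i j, EvA (N + 2) (Function.update (Function.update v N i) (N + 1) j)
      ⟨k, .reg (N + 1), .lit 0⟩ (k, j, 0) := fun k i j => EvA.mk EvI.top (EvI.lit 0)
  exact sim_seq (sim_forUp hn fun i _ => sim_seq (sim_dot hn.up (ev_cst 3 6)
      (fun j _ => ev2 10 i j) (fun j _ => e2 17 i j)) (sim_op (e1 18 i) (e1 11 i) (ev_cst 3 6)))
    (sim_forUp hn fun i _ => sim_seq (sim_dot hn.up (ev_cst 3 6)
      (fun j _ => ev2 13 i j) (fun j _ => e2 18 i j))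
      (sim_seq (sim_op (ev_cst 3 6) (ev_cst 3 6) (ev_pw h3.up))
        (sim_op (e1 17 i) (e1 17 i) (ev_cst 3 6))))

/-- the stage without the final tests -/
def stageU (n q : ℕ) : Tree Unit :=
  (setup n (top n q) (bet n q)).seq <|
  (absP n).seq <|
  (sumP n).seq <|
  (scaleP n q).seq <|
  (forN (5 * q) fun _ => newton n q).seq <|
  (verify n q).seq <|
  (forN n fun i => op1 .sub (17, i, 0) cOne cOne).seq <|
  forN q fun _ => refine1 n q

/-- code of `stageU` -/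
def stageC (N : ℕ) : Prog :=
  .seq (setupC N) <|
  .seq (absC N) <|
  .seq (sumC N) <|
  .seq (scaleC N) <|
  .seq (forUp N (.reg 7) (newtonC (N + 1))) <|
  .seq (verifyC N) <|
  .seq (forUp N (.reg 0) (.arith .sub ⟨17, .reg N, .lit 0⟩ (cst 2 1) (cst 2 1))) <|
  forUp N (.reg 3) (refineC (N + 1))

/-- cost of `stageC` -/
def costStage (n q : ℕ) : ℕ :=
  (5 * top n q + 5 * n + 10) + ((n * (n * (2 + 2) + 2 + 2) + 2) +
  ((1 + (n * (n * (2 + 2) + 2 + 2) + 2) + 1) +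
  (((n * (n * (1 + 2) + 2 + 2) + 2) + ((n * (1 + 2) + 2) +
      ((n * (n * (1 + (5 * q + 18) + 2) + 2 + 2) + 2) + (n * (n * (1 + 2) + 2 + 2) + 2)))) +
  ((5 * q * (costNewton n q + 2) + 2) + (costVerify n q +
  ((n * (1 + 2) + 2) + (q * (costRefine n + 2) + 2)))))))

theorem sim_stage {N : ℕ} {v : Regs} {n q : ℕ} (hN : 11 ≤ N) (h : Par n q v) :
    Sim N v (stageC N) (stageU n q) (costStage n q) := by
  have hn : EvI N v (.reg 0) n := EvI.reg (by omega) h.p0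
  have h3 : EvI N v (.reg 3) q := EvI.reg (by omega) h.p3
  have h7 : EvI N v (.reg 7) (5 * q) := EvI.reg (by omega) h.p7
  exact sim_seq (sim_setup hN h) (sim_seq (sim_abs hN h) (sim_seq (sim_sum hN h)
    (sim_seq (sim_scale hN h) (sim_seq
    (sim_forUp h7 fun _ _ => sim_newton (by omega) (h.up hN _)) (sim_seq (sim_verify hN h)
    (sim_seq (sim_forUp hn fun i _ => sim_op (EvA.mk EvI.top (EvI.lit 0)) (ev_cst 2 1)
      (ev_cst 2 1)) (sim_forUp h3 fun _ _ => sim_refine (by omega) (h.up hN _))))))))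

theorem costStage_le (n q : ℕ) (hn : 1 ≤ n) :
    costStage n q ≤ 2000 * n ^ 2 * (q + ell n + 1) ^ 2 := by
  unfold costStage costNewton costVerify costRefine costMul top bet
  set l := ell n
  obtain ⟨k, rfl⟩ : ∃ k, n = k + 1 := ⟨n - 1, by omega⟩
  ring_nf
  nlinarith [Nat.zero_le (k * q), Nat.zero_le (k * l), Nat.zero_le (q * l),
    Nat.zero_le (k * q * l), Nat.zero_le (k ^ 2 * q), Nat.zero_le (k ^ 2 * l),
    Nat.zero_le (k ^ 2 * q * l), Nat.zero_le (k * q ^ 2), Nat.zero_le (k ^ 2 * q ^ 2),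
    Nat.zero_le (q ^ 2), Nat.zero_le (l ^ 2), Nat.zero_le (k * l ^ 2),
    Nat.zero_le (k ^ 2 * l ^ 2), Nat.zero_le (k ^ 2)]

theorem stage_mem (n q : ℕ) (m : Mem) : (stage n q).mem m = (stageU n q).mem m := by
  have h : ∀ m8, (final q).mem m8 = m8 := by
    intro m8
    unfold final
    simp only [mem]
    split_ifs <;> rfl
  unfold stage stageU
  simp only [mem_seq, h]

theorem stage_res (n q : ℕ) (m : Mem) :
    (stage n q).res m = (final q).res ((stageU n q).mem m) := by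
  unfold stage stageU
  simp only [res_seq, mem_seq]

end Pool.Agent.Lib.MP_2781e4_lc
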