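import Mathlib
import Pool.Agent.Lib.MP_2781e4_lc.Defs

/-!
# The semantics of programs is deterministic
-/

namespace Pool.Agent.Lib.MP_2781e4_lc

theorem Exec.det {P : Prog} {ρ ρ₁ : Regs} {m m₁ : Mem} {t₁ : ℕ} (h₁ : Exec P ρ m t₁ ρ₁ m₁) :
    ∀ {t₂ : ℕ} {ρ₂ : Regs} {m₂ : Mem}, Exec P ρ m t₂ ρ₂ m₂ → t₁ = t₂ ∧ ρ₁ = ρ₂ ∧ m₁ = m₂ := by
  induction h₁ with
  | skip => intro _ _ _ h; cases h; exact ⟨rfl, rfl, rfl⟩
  | arith => intro _ _ _ h; cases h; exact ⟨rfl, rfl, rfl⟩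
  | set => intro _ _ _ h; cases h; exact ⟨rfl, rfl, rfl⟩
  | succ => intro _ _ _ h; cases h; exact ⟨rfl, rfl, rfl⟩
  | pred => intro _ _ _ h; cases h; exact ⟨rfl, rfl, rfl⟩
  | seq _ _ ih ih' =>
    intro _ _ _ h
    cases h with
    | seq g g' =>
      obtain ⟨rfl, rfl, rfl⟩ := ih g
      obtain ⟨rfl, rfl, rfl⟩ := ih' g'
      exact ⟨rfl, rfl, rfl⟩
  | ifLe_true hab _ ih =>
    intro _ _ _ h
    cases h with
    | ifLe_true _ g =>
      obtain ⟨rfl, rfl, rfl⟩ := ih g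
      exact ⟨rfl, rfl, rfl⟩
    | ifLe_false hab' _ => exact absurd hab hab'
  | ifLe_false hab _ ih =>
    intro _ _ _ h
    cases h with
    | ifLe_true hab' _ => exact absurd hab' hab
    | ifLe_false _ g =>
      obtain ⟨rfl, rfl, rfl⟩ := ih g
      exact ⟨rfl, rfl, rfl⟩
  | ifLt_true hab _ ih =>
    intro _ _ _ h
    cases h with
    | ifLt_true _ g =>
      obtain ⟨rfl, rfl, rfl⟩ := ih g
      exact ⟨rfl, rfl, rfl⟩
    | ifLt_false hab' _ => exact absurd hab hab'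
  | ifLt_false hab _ ih =>
    intro _ _ _ h
    cases h with
    | ifLt_true hab' _ => exact absurd hab' hab
    | ifLt_false _ g =>
      obtain ⟨rfl, rfl, rfl⟩ := ih g
      exact ⟨rfl, rfl, rfl⟩
  | while_false hab =>
    intro _ _ _ h
    cases h with
    | while_false _ => exact ⟨rfl, rfl, rfl⟩
    | while_true hab' _ _ => exact absurd hab' hab
  | while_true hab _ _ ih ih' =>
    intro _ _ _ h
    cases h with
    | while_false hab' => exact absurd hab hab'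
    | while_true _ g g' =>
      obtain ⟨rfl, rfl, rfl⟩ := ih g
      obtain ⟨rfl, rfl, rfl⟩ := ih' g'
      exact ⟨rfl, rfl, rfl⟩

end Pool.Agent.Lib.MP_2781e4_lc
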