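import Mathlib
import Pool.Agent.Lib.MP_2781e4_lc.Code

/-!
# The complete program
-/

namespace Pool.Agent.Lib.MP_2781e4_lc

open Pool.Agent.Lib.MP_2781e4_lc.Tree

/-! ### The parameters of a stage -/

/-- code computing the parameters and running a stage -/
def bodyC : Prog :=
  .seq (.seq (.set 4 (.reg 3)) (addReg 4 (.reg 3))) <|
  .seq (.seq (.set 5 (.reg 4)) (.succ 5)) <|
  .seq (.seq (.set 6 (.reg 4)) (addReg 6 (.reg 4))) <|
  .seq (.seq (.set 7 (.reg 6)) (addReg 7 (.reg 3))) <|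
  .seq (.seq (.seq (.seq (.set 8 (.lit 9)) (addReg 8 (.reg 7))) (addReg 8 (.reg 1)))
    (addReg 8 (.reg 1))) <|
  .seq (.seq (.set 9 (.reg 8)) (.succ 9)) <|
  .seq (.seq (.seq (.set 10 (.lit 4)) (addReg 10 (.reg 1))) (addReg 10 (.reg 1))) <|
  stageC 11

/-- cost of `bodyC` -/
def costBody (n q : ℕ) : ℕ :=
  (1 + (3 * q + 2)) + ((1 + 1) + ((1 + (3 * (q + q) + 2)) + ((1 + (3 * q + 2)) +
    ((1 + (3 * (q + q + (q + q) + q) + 2) + (3 * ell n + 2) + (3 * ell n + 2)) +
    ((1 + 1) + ((1 + (3 * ell n + 2) + (3 * ell n + 2)) + costStage n q))))))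

theorem sim_body {v : Regs} {n q : ℕ} (h0 : v 0 = n) (h1 : v 1 = ell n) (h3 : v 3 = q) :
    Sim 4 v bodyC (stageU n q) (costBody n q) := by
  have r0 : EvI 4 v (.reg 0) n := EvI.reg (by omega) h0
  have r1 : EvI 4 v (.reg 1) (ell n) := EvI.reg (by omega) h1
  have r3 : EvI 4 v (.reg 3) q := EvI.reg (by omega) h3
  refine sim_let (loads_add (loads_set r3) r3) <|
    sim_let (loads_succ (loads_set EvI.top)) <|
    sim_let (loads_add (loads_set EvI.top.up) EvI.top.up) <|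
    sim_let (loads_add (loads_set EvI.top) r3.up.up.up) <|
    sim_let (loads_add (loads_add (loads_add (loads_set (EvI.lit 9)) EvI.top)
      r1.up.up.up.up) r1.up.up.up.up) <|
    sim_let (loads_succ (loads_set EvI.top)) <|
    sim_let (loads_add (loads_add (loads_set (EvI.lit 4)) r1.up.up.up.up.up.up)
      r1.up.up.up.up.up.up) <|
    sim_stage (by norm_num) ?_
  refine ⟨?_, ?_, ?_, ?_, ?_, ?_, ?_, ?_, ?_, ?_⟩
  · simpa using h0
  · simpa using h1
  · simpa using h3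
  · simp; omega
  · simp; omega
  · simp; omega
  · simp; omega
  · simp [bet]; omega
  · simp [top]; omega
  · simp; omega

/-! ### The final tests -/

/-- code of the final tests: set the flag or increment `q` -/
def finalC : Prog :=
  .ifLe (cst 3 3) (pw (.reg 6)) (.ifLe (cst 3 4) (pw (.reg 6))
    (.ifLe (cst 2 1) (cst 3 5) (.set 2 (.lit 1)) (.succ 3)) (.succ 3)) (.succ 3)

theorem exec_final {ρ : Regs} {q : ℕ} (m : Mem) (h6 : ρ 6 = 4 * q) :
    ∃ t, t ≤ 4 ∧ Exec finalC ρ m t (if (final q).res m = true then Function.update ρ 2 1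
      else Function.update ρ 3 (ρ 3 + 1)) m := by
  have e6 : (pw (.reg 6)).cell ρ = cPow (4 * q) := by
    show ((6, ρ 6, 0) : Cell) = _
    rw [h6]
  unfold final
  by_cases c1 : m cE ≤ m (cPow (4 * q))
  · by_cases c2 : m cZ ≤ m (cPow (4 * q))
    · by_cases c3 : m cOne ≤ m cV
      · refine ⟨1 + 1 + 1 + 1, le_rfl, ?_⟩
        have e : (Tree.le cE (cPow (4 * q)) (.le cZ (cPow (4 * q)) (.le cOne cV (.ret true)
          (.ret false)) (.ret false)) (.ret false)).res m = true := by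
          simp [res, c1, c2, c3]
        rw [if_pos e]
        exact Exec.ifLe_true (by rw [e6]; exact c1) (Exec.ifLe_true (by rw [e6]; exact c2)
          (Exec.ifLe_true c3 (Exec.set 2 (.lit 1) ρ m)))
      · refine ⟨1 + 1 + 1 + 1, le_rfl, ?_⟩
        have e : ¬ (Tree.le cE (cPow (4 * q)) (.le cZ (cPow (4 * q)) (.le cOne cV (.ret true)
          (.ret false)) (.ret false)) (.ret false)).res m = true := by
          simp [res, c1, c2, c3]
        rw [if_neg e]
        exact Exec.ifLe_true (by rw [e6]; exact c1) (Exec.ifLe_true (by rw [e6]; exact c2)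
          (Exec.ifLe_false c3 (Exec.succ 3 ρ m)))
    · refine ⟨1 + 1 + 1, by omega, ?_⟩
      have e : ¬ (Tree.le cE (cPow (4 * q)) (.le cZ (cPow (4 * q)) (.le cOne cV (.ret true)
        (.ret false)) (.ret false)) (.ret false)).res m = true := by
        simp [res, c1, c2]
      rw [if_neg e]
      exact Exec.ifLe_true (by rw [e6]; exact c1) (Exec.ifLe_false (by rw [e6]; exact c2)
        (Exec.succ 3 ρ m))
  · refine ⟨1 + 1, by omega, ?_⟩
    have e : ¬ (Tree.le cE (cPow (4 * q)) (.le cZ (cPow (4 * q)) (.le cOne cV (.ret true)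
      (.ret false)) (.ret false)) (.ret false)).res m = true := by
      simp [res, c1]
    rw [if_neg e]
    exact Exec.ifLe_false (by rw [e6]; exact c1) (Exec.succ 3 ρ m)

/-- `bodyC` leaves `4 q` in register `6`. -/
theorem exec_body {ρ : Regs} {n q : ℕ} (m : Mem) (h0 : ρ 0 = n) (h1 : ρ 1 = ell n)
    (h2 : ρ 2 = 0) (h3 : ρ 3 = q) :
    ∃ t, t ≤ costBody n q ∧ ∃ ρ', Exec bodyC ρ m t ρ' ((stageU n q).mem m) ∧
      ρ' 0 = n ∧ ρ' 1 = ell n ∧ ρ' 2 = 0 ∧ ρ' 3 = q := by
  obtain ⟨t, ht, ρ', h, hρ⟩ := sim_body (v := ρ) h0 h1 h3 ρ m (fun _ _ => rfl)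
  exact ⟨t, ht, ρ', h, by rw [hρ 0 (by omega), h0], by rw [hρ 1 (by omega), h1],
    by rw [hρ 2 (by omega), h2], by rw [hρ 3 (by omega), h3]⟩

/-- one iteration of the main loop -/
def iterC : Prog := .seq bodyC (.seq (.seq (.seq (.seq (.set 6 (.reg 3)) (addReg 6 (.reg 3)))
  (addReg 6 (.reg 3))) (addReg 6 (.reg 3))) finalC)

/-- the main loop -/
def loopC : Prog := .whileLt (.reg 2) (.lit 1) iterC

theorem loads6 {ρ : Regs} {q : ℕ} (m : Mem) (h3 : ρ 3 = q) :
    ∃ t, t ≤ 9 * q + 7 ∧ ∃ ρ', Exec (.seq (.seq (.seq (.set 6 (.reg 3)) (addReg 6 (.reg 3)))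
      (addReg 6 (.reg 3))) (addReg 6 (.reg 3))) ρ m t ρ' m ∧
      (∀ x, x < 6 → ρ' x = ρ x) ∧ ρ' 6 = 4 * q := by
  have r3 : EvI 6 ρ (.reg 3) q := EvI.reg (by omega) h3
  obtain ⟨t, ht, ρ', h, hρ⟩ := loads_add (loads_add (loads_add (loads_set r3) r3) r3) r3 ρ m
    (fun _ _ => rfl)
  refine ⟨t, by omega, ρ', h, ?_, ?_⟩
  · intro x hx
    rw [hρ x (by omega), Function.update_of_ne (by omega)]
  · rw [hρ 6 (by omega), Function.update_self]
    omega

theorem exec_iter {ρ : Regs} {n q : ℕ} (m : Mem) (h0 : ρ 0 = n) (h1 : ρ 1 = ell n)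
    (h2 : ρ 2 = 0) (h3 : ρ 3 = q) :
    ∃ t, t ≤ costBody n q + (9 * q + 7) + 4 ∧ ∃ ρ', Exec iterC ρ m t ρ' ((stage n q).mem m) ∧
      ρ' 0 = n ∧ ρ' 1 = ell n ∧
      ((stage n q).res m = true → ρ' 2 = 1) ∧
      ((stage n q).res m = false → ρ' 2 = 0 ∧ ρ' 3 = q + 1) := by
  obtain ⟨t, ht, ρ', h, g0, g1, g2, g3⟩ := exec_body m h0 h1 h2 h3
  obtain ⟨s, hs, ρ'', h', gl, g6⟩ := loads6 (ρ := ρ') ((stageU n q).mem m) g3
  obtain ⟨u, hu, h''⟩ := exec_final (ρ := ρ'') ((stageU n q).mem m) g6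
  rw [stage_mem, stage_res]
  refine ⟨t + (s + u), by omega, _, Exec.seq h (Exec.seq h' h''), ?_, ?_, ?_, ?_⟩
  · split_ifs
    · rw [Function.update_of_ne (by omega), gl 0 (by omega), g0]
    · rw [Function.update_of_ne (by omega), gl 0 (by omega), g0]
  · split_ifs
    · rw [Function.update_of_ne (by omega), gl 1 (by omega), g1]
    · rw [Function.update_of_ne (by omega), gl 1 (by omega), g1]
  · intro hr
    rw [if_pos hr, Function.update_self]
  · intro hr
    have hr' : ¬ (final q).res ((stageU n q).mem m) = true := by rw [hr]; simp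
    rw [if_neg hr', Function.update_of_ne (by omega), Function.update_self,
      gl 2 (by omega), gl 3 (by omega), g2, g3]
    exact ⟨rfl, rfl⟩

/-- The main loop halts correctly: `Inv` is preserved by the stages, a stage that
returns `true` leaves a good memory, and stage `Q` returns `true`. -/
theorem exec_loop {n : ℕ} (Inv : Mem → Prop) (GoodM : Mem → Prop) (Q : ℕ)
    (hinv : ∀ q m, Inv m → Inv ((stage n q).mem m))
    (hgood : ∀ q m, Inv m → (stage n q).res m = true → GoodM ((stage n q).mem m))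
    (hQ : ∀ m, Inv m → (stage n Q).res m = true) :
    ∀ k q, q + k = Q → ∀ (ρ : Regs) (m : Mem), Inv m → ρ 0 = n → ρ 1 = ell n → ρ 2 = 0 →
      ρ 3 = q → ∃ (t : ℕ) (ρ' : Regs) (m' : Mem), Exec loopC ρ m t ρ' m' ∧ GoodM m' ∧
        t ≤ ∑ i ∈ Finset.Icc q Q, (costBody n i + (9 * i + 7) + 5) + 1 := by
  intro k
  induction k with
  | zero =>
    intro q hq ρ m hm h0 h1 h2 h3
    obtain rfl : q = Q := by omega
    obtain ⟨t, ht, ρ', h, g0, g1, g2, g3⟩ := exec_iter m h0 h1 h2 h3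
    have hr := hQ m hm
    refine ⟨t + 1 + 1, ρ', _, Exec.while_true ?_ h (Exec.while_false ?_), hgood q m hm hr, ?_⟩
    · show ρ 2 < 1
      omega
    · show ¬ ρ' 2 < 1
      rw [g2 hr]
      omega
    · rw [Finset.Icc_self, Finset.sum_singleton]
      omega
  | succ k ih =>
    intro q hq ρ m hm h0 h1 h2 h3
    obtain ⟨t, ht, ρ', h, g0, g1, g2, g3⟩ := exec_iter m h0 h1 h2 h3
    cases hr : (stage n q).res m with
    | true =>
      refine ⟨t + 1 + 1, ρ', _, Exec.while_true ?_ h (Exec.while_false ?_),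
        hgood q m hm hr, ?_⟩
      · show ρ 2 < 1
        omega
      · show ¬ ρ' 2 < 1
        rw [g2 hr]
        omega
      · have : costBody n q + (9 * q + 7) + 5 ≤
            ∑ i ∈ Finset.Icc q Q, (costBody n i + (9 * i + 7) + 5) :=
          Finset.single_le_sum (f := fun i => costBody n i + (9 * i + 7) + 5)
            (fun _ _ => Nat.zero_le _) (Finset.mem_Icc.mpr ⟨le_rfl, by omega⟩)
        omega
    | false =>
      obtain ⟨g4, g5⟩ := g3 hr
      obtain ⟨t', ρ'', m'', h', hg, ht'⟩ := ih (q + 1) (by omega) ρ' _ (hinv q m hm) g0 g1 g4 g5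
      refine ⟨t + t' + 1, ρ'', m'', Exec.while_true ?_ h h', hg, ?_⟩
      · show ρ 2 < 1
        omega
      · rw [← Finset.insert_Icc_add_one_left_eq_Icc (by omega : q ≤ Q),
            Finset.sum_insert (by simp)]
        omega

/-! ### Computation of `ell n` -/

/-- doubling of register `2` -/
def dblC : Prog :=
  .seq (.set 3 (.reg 2)) (.seq (.set 4 (.lit 0))
    (.whileLt (.reg 4) (.reg 3) (.seq (.succ 2) (.succ 4))))

theorem exec_dbl (m : Mem) (ρ : Regs) (y : ℕ) (h2 : ρ 2 = y) :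
    ∃ ρ' : Regs, Exec dblC ρ m (3 * y + 3) ρ' m ∧ ρ' 0 = ρ 0 ∧ ρ' 1 = ρ 1 ∧ ρ' 2 = 2 * y := by
  have loop : ∀ d i, i + d = y → ∀ ρ : Regs, ρ 2 = y + i → ρ 3 = y → ρ 4 = i →
      ∃ ρ' : Regs, Exec (.whileLt (.reg 4) (.reg 3) (.seq (.succ 2) (.succ 4))) ρ m
        (3 * d + 1) ρ' m ∧ ρ' 0 = ρ 0 ∧ ρ' 1 = ρ 1 ∧ ρ' 2 = 2 * y := by
    intro d
    induction d with
    | zero =>
      intro i hi ρ e2 e3 e4
      refine ⟨ρ, Exec.while_false ?_, rfl, rfl, by omega⟩
      show ¬ ρ 4 < ρ 3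
      omega
    | succ d ih =>
      intro i hi ρ e2 e3 e4
      obtain ⟨ρ', h3, h0, h1, h2⟩ := ih (i + 1) (by omega)
        (Function.update (Function.update ρ 2 (ρ 2 + 1)) 4
          ((Function.update ρ 2 (ρ 2 + 1)) 4 + 1))
        (by rw [Function.update_of_ne (by omega), Function.update_self, e2]; omega)
        (by rw [Function.update_of_ne (by omega), Function.update_of_ne (by omega), e3])
        (by rw [Function.update_self, Function.update_of_ne (by omega), e4])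
      refine ⟨ρ', ?_, ?_, ?_, h2⟩
      · have h5 := Exec.while_true (e := .reg 4) (f := .reg 3)
          (P := .seq (.succ 2) (.succ 4)) (ρ := ρ) (m := m) (by
            show ρ 4 < ρ 3
            omega) (Exec.seq (Exec.succ 2 ρ m) (Exec.succ 4 _ m)) h3
        have e3 : 3 * (d + 1) + 1 = 1 + 1 + (3 * d + 1) + 1 := by ring
        rw [e3]
        exact h5
      · rw [h0, Function.update_of_ne (by omega), Function.update_of_ne (by omega)]
      · rw [h1, Function.update_of_ne (by omega), Function.update_of_ne (by omega)]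
  obtain ⟨ρ', h, g0, g1, g2⟩ := loop y 0 (by omega)
    (Function.update (Function.update ρ 3 (ρ 2)) 4 0)
    (by rw [Function.update_of_ne (by omega), Function.update_of_ne (by omega), h2]; rfl)
    (by rw [Function.update_of_ne (by omega), Function.update_self, h2])
    (by rw [Function.update_self])
  refine ⟨ρ', ?_, ?_, ?_, g2⟩
  · have e : 3 * y + 3 = 1 + (1 + (3 * y + 1)) := by ring
    rw [e]
    exact Exec.seq (Exec.set 3 (.reg 2) ρ m) (Exec.seq (Exec.set 4 (.lit 0) _ m) h)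
  · rw [g0, Function.update_of_ne (by omega), Function.update_of_ne (by omega)]
  · rw [g1, Function.update_of_ne (by omega), Function.update_of_ne (by omega)]

/-- computation of `ell n` in register `1` -/
def ellC : Prog :=
  .seq (.set 1 (.lit 0)) <| .seq (.set 2 (.lit 1)) <|
    .whileLt (.reg 2) (.reg 0) (.seq dblC (.succ 1))

theorem exec_ell (m : Mem) {n : ℕ} (ρ : Regs) (h0 : ρ 0 = n) :
    ∃ t, t ≤ ell n * (3 * n + 5) + 3 ∧ ∃ ρ' : Regs, Exec ellC ρ m t ρ' m ∧ ρ' 0 = n ∧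
      ρ' 1 = ell n := by
  have loop : ∀ d e, e + d = ell n → ∀ ρ : Regs, ρ 0 = n → ρ 1 = e → ρ 2 = 2 ^ e →
      ∃ t, t ≤ d * (3 * n + 5) + 1 ∧ ∃ ρ' : Regs,
        Exec (.whileLt (.reg 2) (.reg 0) (.seq dblC (.succ 1))) ρ m t ρ' m ∧ ρ' 0 = n ∧
        ρ' 1 = ell n := by
    intro d
    induction d with
    | zero =>
      intro e he ρ e0 e1 e2
      refine ⟨1, by omega, ρ, Exec.while_false ?_, e0, by omega⟩
      show ¬ ρ 2 < ρ 0
      rw [e0, e2]
      have : n ≤ 2 ^ ell n := Nat.le_pow_clog (by norm_num) n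
      have he' : e = ell n := by omega
      rw [he']
      omega
    | succ d ih =>
      intro e he ρ e0 e1 e2
      have hlt : 2 ^ e < n := by
        by_contra hne
        have : ell n ≤ e := Nat.clog_le_of_le_pow (not_lt.mp hne)
        omega
      obtain ⟨ρ1, h1, g0, g1, g2⟩ := exec_dbl m ρ (2 ^ e) e2
      obtain ⟨t, ht, ρ', h, f0, f1⟩ := ih (e + 1) (by omega) (Function.update ρ1 1 (ρ1 1 + 1))
        (by rw [Function.update_of_ne (by omega), g0, e0])
        (by rw [Function.update_self, g1, e1])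
        (by rw [Function.update_of_ne (by omega), g2, pow_succ]; ring)
      refine ⟨3 * 2 ^ e + 3 + 1 + t + 1, ?_, ρ', Exec.while_true ?_
        (Exec.seq h1 (Exec.succ 1 ρ1 m)) h, f0, f1⟩
      · have : (d + 1) * (3 * n + 5) = d * (3 * n + 5) + (3 * n + 5) := by ring
        omega
      · show ρ 2 < ρ 0
        rw [e0, e2]
        exact hlt
  obtain ⟨t, ht, ρ', h, g0, g1⟩ := loop (ell n) 0 (by omega)
    (Function.update (Function.update ρ 1 0) 2 1)
    (by rw [Function.update_of_ne (by omega), Function.update_of_ne (by omega), h0])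
    (by rw [Function.update_of_ne (by omega), Function.update_self])
    (by rw [Function.update_self]; rfl)
  exact ⟨1 + (1 + t), by omega, ρ', Exec.seq (Exec.set 1 (.lit 0) ρ m)
    (Exec.seq (Exec.set 2 (.lit 1) _ m) h), g0, g1⟩

/-! ### The program -/

/-- the complete program -/
def solver : Prog :=
  .seq ellC <| .seq (.set 2 (.lit 0)) <| .seq (.set 3 (.lit 0)) loopC

theorem exec_solver {n : ℕ} (Inv : Mem → Prop) (GoodM : Mem → Prop) (Q : ℕ)
    (hinv : ∀ q m, Inv m → Inv ((stage n q).mem m))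
    (hgood : ∀ q m, Inv m → (stage n q).res m = true → GoodM ((stage n q).mem m))
    (hQ : ∀ m, Inv m → (stage n Q).res m = true) (m : Mem) (hm : Inv m) :
    ∃ (t : ℕ) (ρ' : Regs) (m' : Mem), Exec solver (initRegs n) m t ρ' m' ∧ GoodM m' ∧
      t ≤ (ell n * (3 * n + 5) + 3) + (2 +
        (∑ i ∈ Finset.Icc 0 Q, (costBody n i + (9 * i + 7) + 5) + 1)) := by
  obtain ⟨t1, ht1, ρ1, h1, g0, g1⟩ := exec_ell m (n := n) (initRegs n) rfl
  obtain ⟨t, ρ', m', h, hg, ht⟩ := exec_loop Inv GoodM Q hinv hgood hQ Q 0 (by omega)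
    (Function.update (Function.update ρ1 2 0) 3 0) m hm
    (by rw [Function.update_of_ne (by omega), Function.update_of_ne (by omega), g0])
    (by rw [Function.update_of_ne (by omega), Function.update_of_ne (by omega), g1])
    (by rw [Function.update_of_ne (by omega), Function.update_self])
    (by rw [Function.update_self])
  exact ⟨t1 + (1 + (1 + t)), ρ', m', Exec.seq h1 (Exec.seq (Exec.set 2 (.lit 0) ρ1 m)
    (Exec.seq (Exec.set 3 (.lit 0) _ m) h)), hg, by omega⟩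

theorem costBody_le (n q : ℕ) (hn : 1 ≤ n) :
    costBody n q + (9 * q + 7) + 5 ≤ 2200 * n ^ 2 * (q + ell n + 1) ^ 2 := by
  have h := costStage_le n q hn
  unfold costBody
  have h1 : 1 ≤ n ^ 2 := Nat.one_le_pow _ _ hn
  have h2 : q + ell n + 1 ≤ (q + ell n + 1) ^ 2 := Nat.le_self_pow (by norm_num) _
  have h3 : q + ell n + 1 ≤ n ^ 2 * (q + ell n + 1) ^ 2 :=
    h2.trans (Nat.le_mul_of_pos_left _ h1)
  have h4 : 2200 * n ^ 2 * (q + ell n + 1) ^ 2 =
    2000 * n ^ 2 * (q + ell n + 1) ^ 2 + 200 * (n ^ 2 * (q + ell n + 1) ^ 2) := by ring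
  omega

theorem total_le (n Q : ℕ) (hn : 1 ≤ n) :
    (ell n * (3 * n + 5) + 3) + (2 +
        (∑ i ∈ Finset.Icc 0 Q, (costBody n i + (9 * i + 7) + 5) + 1)) ≤
      3000 * n ^ 2 * (Q + ell n + 1) ^ 3 := by
  have h1 : ∑ i ∈ Finset.Icc 0 Q, (costBody n i + (9 * i + 7) + 5) ≤
      2200 * n ^ 2 * (Q + ell n + 1) ^ 3 := by
    calc ∑ i ∈ Finset.Icc 0 Q, (costBody n i + (9 * i + 7) + 5) ≤
        ∑ _i ∈ Finset.Icc 0 Q, 2200 * n ^ 2 * (Q + ell n + 1) ^ 2 := by
          refine Finset.sum_le_sum fun i hi => (costBody_le n i hn).trans ?_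
          have : i ≤ Q := (Finset.mem_Icc.mp hi).2
          exact Nat.mul_le_mul_left _ (Nat.pow_le_pow_left (by omega) 2)
      _ = (Q + 1) * (2200 * n ^ 2 * (Q + ell n + 1) ^ 2) := by simp
      _ ≤ (Q + ell n + 1) * (2200 * n ^ 2 * (Q + ell n + 1) ^ 2) :=
          Nat.mul_le_mul_right _ (by omega)
      _ = 2200 * n ^ 2 * (Q + ell n + 1) ^ 3 := by ring
  set s := Q + ell n + 1 with hs
  have h2 : n ≤ n ^ 2 := Nat.le_self_pow (by norm_num) _
  have h3 : s ≤ s ^ 3 := Nat.le_self_pow (by norm_num) _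
  have h4 : 1 ≤ s := by omega
  have h5 : ell n ≤ s := by omega
  have h6 : ell n * (3 * n + 5) ≤ s ^ 3 * (8 * n ^ 2) := by
    refine Nat.mul_le_mul (h5.trans h3) ?_
    have : 1 ≤ n ^ 2 := Nat.one_le_pow _ _ hn
    omega
  have h7 : 1 ≤ n ^ 2 * s ^ 3 := Nat.mul_pos (Nat.one_le_pow _ _ hn) (Nat.one_le_pow _ _ h4)
  have h8 : s ^ 3 * (8 * n ^ 2) = 8 * (n ^ 2 * s ^ 3) := by ring
  have h9 : 2200 * n ^ 2 * s ^ 3 = 2200 * (n ^ 2 * s ^ 3) := by ring
  have h10 : 3000 * n ^ 2 * s ^ 3 = 3000 * (n ^ 2 * s ^ 3) := by ring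
  rw [h9] at h1
  rw [h8] at h6
  rw [h10]
  omega

end Pool.Agent.Lib.MP_2781e4_lc
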