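import Mathlib
import Pool.Agent.Lib.MP_2781e4_lc.Defs

/-!
# Operator bounds for real matrices
-/

namespace Pool.Agent.Lib.MP_2781e4_lc

open Finset

variable {n : ℕ}

theorem norm2_eq (v : Fin n → ℝ) : norm2 v = ‖(WithLp.toLp 2 v : EuclideanSpace ℝ (Fin n))‖ := by
  rw [EuclideanSpace.norm_eq]
  unfold norm2
  congr 1
  exact Finset.sum_congr rfl fun i _ => by rw [Real.norm_eq_abs, sq_abs]

theorem norm2_nonneg (v : Fin n → ℝ) : 0 ≤ norm2 v := Real.sqrt_nonneg _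

theorem norm2_sq (v : Fin n → ℝ) : norm2 v ^ 2 = ∑ i, v i ^ 2 :=
  Real.sq_sqrt (Finset.sum_nonneg fun _ _ => sq_nonneg _)

theorem norm2_zero : norm2 (0 : Fin n → ℝ) = 0 := by simp [norm2]

theorem norm2_add_le (v w : Fin n → ℝ) : norm2 (v + w) ≤ norm2 v + norm2 w := by
  rw [norm2_eq, norm2_eq, norm2_eq, WithLp.toLp_add]
  exact norm_add_le _ _

theorem norm2_sub_le (v w : Fin n → ℝ) : norm2 (v - w) ≤ norm2 v + norm2 w := by
  rw [norm2_eq, norm2_eq, norm2_eq, WithLp.toLp_sub]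
  exact norm_sub_le _ _

theorem norm2_neg (v : Fin n → ℝ) : norm2 (-v) = norm2 v := by
  rw [norm2_eq, norm2_eq, WithLp.toLp_neg, norm_neg]

theorem norm2_pos {v : Fin n → ℝ} (h : v ≠ 0) : 0 < norm2 v := by
  rw [norm2_eq, norm_pos_iff]
  intro h'
  apply h
  have := congrArg WithLp.ofLp h'
  simpa using this

theorem dot_le (v w : Fin n → ℝ) : ∑ i, v i * w i ≤ norm2 v * norm2 w := by
  unfold norm2
  exact Real.sum_mul_le_sqrt_mul_sqrt _ _ _

theorem abs_le_norm2 (v : Fin n → ℝ) (i : Fin n) : |v i| ≤ norm2 v := by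
  unfold norm2
  apply Real.abs_le_sqrt
  exact Finset.single_le_sum (f := fun i => v i ^ 2) (fun _ _ => sq_nonneg _) (mem_univ i)

/-- `‖M v‖ ≤ c ‖v‖` for all `v` -/
def OpB (M : Matrix (Fin n) (Fin n) ℝ) (c : ℝ) : Prop :=
  ∀ v, norm2 (M.mulVec v) ≤ c * norm2 v

theorem OpB.mono {M : Matrix (Fin n) (Fin n) ℝ} {c d : ℝ} (h : OpB M c) (hcd : c ≤ d) :
    OpB M d := fun v => (h v).trans (mul_le_mul_of_nonneg_right hcd (norm2_nonneg v))

theorem OpB.mul {M N : Matrix (Fin n) (Fin n) ℝ} {c d : ℝ} (hM : OpB M c) (hN : OpB N d)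
    (hc : 0 ≤ c) : OpB (M * N) (c * d) := by
  intro v
  rw [← Matrix.mulVec_mulVec, mul_assoc]
  exact (hM _).trans (mul_le_mul_of_nonneg_left (hN v) hc)

theorem OpB.add {M N : Matrix (Fin n) (Fin n) ℝ} {c d : ℝ} (hM : OpB M c) (hN : OpB N d) :
    OpB (M + N) (c + d) := by
  intro v
  rw [Matrix.add_mulVec, add_mul]
  exact (norm2_add_le _ _).trans (add_le_add (hM v) (hN v))

theorem OpB.sub {M N : Matrix (Fin n) (Fin n) ℝ} {c d : ℝ} (hM : OpB M c) (hN : OpB N d) :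
    OpB (M - N) (c + d) := by
  intro v
  rw [Matrix.sub_mulVec, add_mul]
  exact (norm2_sub_le _ _).trans (add_le_add (hM v) (hN v))

theorem OpB.one : OpB (1 : Matrix (Fin n) (Fin n) ℝ) 1 := fun v => by
  rw [Matrix.one_mulVec, one_mul]

theorem norm2_single (j : Fin n) : norm2 (Pi.single j (1 : ℝ)) = 1 := by
  have h := norm2_sq (Pi.single j (1 : ℝ))
  have h2 : ∑ i, (Pi.single j (1 : ℝ) : Fin n → ℝ) i ^ 2 = 1 := by
    rw [Finset.sum_eq_single j]
    · simp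
    · intro i _ hij
      simp [hij]
    · simp
  rw [h2] at h
  have h3 := norm2_nonneg (Pi.single j (1 : ℝ) : Fin n → ℝ)
  nlinarith

theorem OpB.abs_le {M : Matrix (Fin n) (Fin n) ℝ} {c : ℝ} (h : OpB M c) (i j : Fin n) :
    |M i j| ≤ c := by
  have h1 := h (Pi.single j 1)
  rw [norm2_single, mul_one] at h1
  refine le_trans ?_ h1
  have h2 := abs_le_norm2 (M.mulVec (Pi.single j 1)) i
  rwa [Matrix.mulVec_single_one] at h2 ⊢

theorem OpB.sum_sq_le {M : Matrix (Fin n) (Fin n) ℝ} {c : ℝ} (h : OpB M c) :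
    ∑ i, ∑ j, M i j ^ 2 ≤ n * c ^ 2 := by
  rw [Finset.sum_comm]
  have : ∀ j, ∑ i, M i j ^ 2 ≤ c ^ 2 := by
    intro j
    have h1 := h (Pi.single j 1)
    rw [norm2_single, mul_one, Matrix.mulVec_single_one] at h1
    have h2 := norm2_sq (fun i => M i j)
    rw [← h2]
    exact pow_le_pow_left₀ (norm2_nonneg _) h1 2
  calc ∑ j, ∑ i, M i j ^ 2 ≤ ∑ _j : Fin n, c ^ 2 := Finset.sum_le_sum fun j _ => this j
    _ = n * c ^ 2 := by simp

theorem OpB.of_sum_sq {M : Matrix (Fin n) (Fin n) ℝ} {c : ℝ}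
    (h : ∑ i, ∑ j, M i j ^ 2 ≤ c ^ 2) (hc : 0 ≤ c) : OpB M c := by
  intro v
  have h1 : norm2 (M.mulVec v) ^ 2 ≤ (c * norm2 v) ^ 2 := by
    rw [norm2_sq, mul_pow]
    calc ∑ i, M.mulVec v i ^ 2 ≤ ∑ i, (∑ j, M i j ^ 2) * norm2 v ^ 2 := by
          refine Finset.sum_le_sum fun i _ => ?_
          rw [norm2_sq]
          exact Finset.sum_mul_sq_le_sq_mul_sq Finset.univ (fun j => M i j) v
      _ = (∑ i, ∑ j, M i j ^ 2) * norm2 v ^ 2 := by rw [Finset.sum_mul]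
      _ ≤ c ^ 2 * norm2 v ^ 2 := mul_le_mul_of_nonneg_right h (sq_nonneg _)
  exact (pow_le_pow_iff_left₀ (norm2_nonneg _) (mul_nonneg hc (norm2_nonneg v))
    (by norm_num)).mp h1

theorem OpB.of_abs_le {M : Matrix (Fin n) (Fin n) ℝ} {h : ℝ} (hM : ∀ i j, |M i j| ≤ h)
    (hh : 0 ≤ h) : OpB M (n * h) := by
  refine OpB.of_sum_sq ?_ (by positivity)
  calc ∑ i, ∑ j, M i j ^ 2 ≤ ∑ _i : Fin n, ∑ _j : Fin n, h ^ 2 := by
        refine Finset.sum_le_sum fun i _ => Finset.sum_le_sum fun j _ => ?_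
        rw [← sq_abs]
        exact pow_le_pow_left₀ (abs_nonneg _) (hM i j) 2
    _ = (n * h) ^ 2 := by simp; ring

theorem OpB.transpose {M : Matrix (Fin n) (Fin n) ℝ} {c : ℝ} (h : OpB M c) (hc : 0 ≤ c) :
    OpB M.transpose c := by
  intro v
  set w := M.transpose.mulVec v with hw
  have h1 : norm2 w ^ 2 = ∑ i, v i * (M.mulVec w) i := by
    rw [norm2_sq]
    have e : ∀ i, w i = ∑ j, M j i * v j := fun i => rfl
    calc ∑ i, w i ^ 2 = ∑ i, w i * ∑ j, M j i * v j := by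
          refine Finset.sum_congr rfl fun i _ => ?_
          rw [pow_two, ← e i]
      _ = ∑ i, ∑ j, v j * (M j i * w i) := by
          refine Finset.sum_congr rfl fun i _ => ?_
          rw [Finset.mul_sum]
          exact Finset.sum_congr rfl fun j _ => by ring
      _ = ∑ j, ∑ i, v j * (M j i * w i) := Finset.sum_comm
      _ = _ := by
          refine Finset.sum_congr rfl fun j _ => ?_
          rw [← Finset.mul_sum]
          rfl
  have h2 := dot_le v (M.mulVec w)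
  have h3 := h w
  have h4 : norm2 w ^ 2 ≤ norm2 v * (c * norm2 w) := by
    rw [h1]
    exact h2.trans (mul_le_mul_of_nonneg_left h3 (norm2_nonneg v))
  rcases (norm2_nonneg w).eq_or_lt with h5 | h5
  · rw [← h5]; exact mul_nonneg hc (norm2_nonneg v)
  · have : norm2 w * norm2 w ≤ (c * norm2 v) * norm2 w := by nlinarith
    exact le_of_mul_le_mul_right this h5

end Pool.Agent.Lib.MP_2781e4_lc
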