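import Mathlib
import Pool.Agent.Lib.MP_2781e4_lc.OpB

/-!
# Singular values of a matrix and the averaged condition number
-/

namespace Pool.Agent.Lib.MP_2781e4_lc

open Finset Module

variable {n : ℕ}

theorem norm2_mulVec_eq (A : Matrix (Fin n) (Fin n) ℝ) (v : Fin n → ℝ) :
    norm2 (A.mulVec v) = ‖Matrix.toEuclideanLin A (WithLp.toLp 2 v)‖ := by
  rw [norm2_eq, Matrix.toEuclideanLin_toLp, Matrix.toLin'_apply]

/-- expansion of `‖A v‖²` along the right singular vectors -/
theorem exists_expansion (A : Matrix (Fin n) (Fin n) ℝ) (v : Fin n → ℝ) :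
    ∃ c : Fin n → ℝ, norm2 v ^ 2 = ∑ i, c i ^ 2 ∧
      norm2 (A.mulVec v) ^ 2 = ∑ i : Fin n, sing A i ^ 2 * c i ^ 2 := by
  set T := Matrix.toEuclideanLin A with hT
  have hfr : finrank ℝ (EuclideanSpace ℝ (Fin n)) = n := finrank_euclideanSpace_fin
  set b := T.isSymmetric_adjoint_comp_self.eigenvectorBasis hfr with hb
  set x : EuclideanSpace ℝ (Fin n) := WithLp.toLp 2 v with hx
  refine ⟨fun i => b.repr x i, ?_, ?_⟩
  · rw [norm2_eq, ← hx, ← b.repr.norm_map x, EuclideanSpace.norm_eq,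
      Real.sq_sqrt (Finset.sum_nonneg fun _ _ => sq_nonneg _)]
    exact Finset.sum_congr rfl fun i _ => by rw [Real.norm_eq_abs, sq_abs]
  · rw [norm2_mulVec_eq, ← hT, ← hx, ← real_inner_self_eq_norm_sq,
      ← LinearMap.adjoint_inner_right]
    have h1 : inner ℝ x ((LinearMap.adjoint T) (T x)) =
        inner ℝ (b.repr x) (b.repr ((LinearMap.adjoint T ∘ₗ T) x)) :=
      (b.repr.inner_map_map _ _).symm
    rw [h1, PiLp.inner_apply]
    refine Finset.sum_congr rfl fun i _ => ?_
    rw [hb, LinearMap.IsSymmetric.eigenvectorBasis_apply_self_apply, ← hb,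
      ← T.sq_singularValues_fin hfr i]
    simp only [RCLike.inner_apply, conj_trivial, RCLike.ofReal_real_eq_id, id_eq]
    unfold sing
    ring

theorem sing_nonneg (A : Matrix (Fin n) (Fin n) ℝ) (i : ℕ) : 0 ≤ sing A i :=
  LinearMap.singularValues_nonneg _ _

theorem sing_antitone (A : Matrix (Fin n) (Fin n) ℝ) : Antitone (sing A) :=
  LinearMap.singularValues_antitone _

theorem sing_lower (A : Matrix (Fin n) (Fin n) ℝ) (v : Fin n → ℝ) :
    sing A (n - 1) * norm2 v ≤ norm2 (A.mulVec v) := by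
  obtain ⟨c, h1, h2⟩ := exists_expansion A v
  have h3 : (sing A (n - 1) * norm2 v) ^ 2 ≤ norm2 (A.mulVec v) ^ 2 := by
    rw [mul_pow, h1, h2, Finset.mul_sum]
    refine Finset.sum_le_sum fun i _ => mul_le_mul_of_nonneg_right ?_ (sq_nonneg _)
    exact pow_le_pow_left₀ (sing_nonneg A _) (sing_antitone A (by omega)) 2
  exact (pow_le_pow_iff_left₀ (mul_nonneg (sing_nonneg A _) (norm2_nonneg v)) (norm2_nonneg _)
    (by norm_num)).mp h3

theorem sing_upper (A : Matrix (Fin n) (Fin n) ℝ) : OpB A (sing A 0) := by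
  intro v
  obtain ⟨c, h1, h2⟩ := exists_expansion A v
  have h3 : norm2 (A.mulVec v) ^ 2 ≤ (sing A 0 * norm2 v) ^ 2 := by
    rw [mul_pow, h1, h2, Finset.mul_sum]
    refine Finset.sum_le_sum fun i _ => mul_le_mul_of_nonneg_right ?_ (sq_nonneg _)
    exact pow_le_pow_left₀ (sing_nonneg A _) (sing_antitone A (by omega)) 2
  exact (pow_le_pow_iff_left₀ (norm2_nonneg _) (mul_nonneg (sing_nonneg A _) (norm2_nonneg v))
    (by norm_num)).mp h3

theorem sing_pos {A : Matrix (Fin n) (Fin n) ℝ} (hA : IsUnit A.det) {i : ℕ} (hi : i < n) :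
    0 < sing A i := by
  have hinj : Function.Injective (Matrix.toEuclideanLin A) := by
    intro x y hxy
    have h1 : Function.Injective A.mulVec :=
      Matrix.mulVec_injective_iff_isUnit.mpr ((Matrix.isUnit_iff_isUnit_det A).mpr hA)
    have h2 := congrArg WithLp.ofLp hxy
    rw [Matrix.ofLp_toEuclideanLin_apply, Matrix.ofLp_toEuclideanLin_apply] at h2
    have h3 := h1 h2
    exact (WithLp.ofLp_injective 2) h3
  have := (LinearMap.injective_iff_forall_lt_finrank_singularValues_pos _).mp hinj i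
  rw [finrank_euclideanSpace_fin] at this
  exact this hi

/-- The condition number is at most `n^(1/p)` times the averaged one. -/
theorem kappa_le {A : Matrix (Fin n) (Fin n) ℝ} (hA : IsUnit A.det) (hn : 1 ≤ n) {p : ℝ}
    (hp : 0 < p) :
    sing A 0 / sing A (n - 1) ≤ (n : ℝ) ^ (1 / p) * kappaBar p A := by
  have hn0 : (0 : ℝ) < n := by exact_mod_cast (by omega : 0 < n)
  have hs := sing_pos hA (i := n - 1) (by omega)
  have hk : 0 ≤ sing A 0 / sing A (n - 1) := div_nonneg (sing_nonneg A 0) hs.le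
  have h0 : ∀ i, 0 ≤ (sing A i / sing A (n - 1)) ^ p := fun i =>
    Real.rpow_nonneg (div_nonneg (sing_nonneg A i) hs.le) p
  unfold kappaBar
  rw [← Real.mul_rpow hn0.le (mul_nonneg (by positivity) (Finset.sum_nonneg fun i _ => h0 i)),
    ← mul_assoc, mul_one_div_cancel hn0.ne', one_mul]
  have h1 : (sing A 0 / sing A (n - 1)) ^ p ≤
      ∑ i ∈ Finset.range n, (sing A i / sing A (n - 1)) ^ p :=
    Finset.single_le_sum (f := fun i => (sing A i / sing A (n - 1)) ^ p) (fun i _ => h0 i)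
      (Finset.mem_range.mpr (by omega))
  calc sing A 0 / sing A (n - 1) = ((sing A 0 / sing A (n - 1)) ^ p) ^ (1 / p) := by
        rw [← Real.rpow_mul hk, mul_one_div_cancel hp.ne', Real.rpow_one]
    _ ≤ _ := Real.rpow_le_rpow (h0 0) h1 (by positivity)

theorem one_le_kappaBar {A : Matrix (Fin n) (Fin n) ℝ} (hA : IsUnit A.det) (hn : 1 ≤ n) {p : ℝ}
    (hp : 0 < p) : 1 ≤ kappaBar p A := by
  have hn0 : (0 : ℝ) < n := by exact_mod_cast (by omega : 0 < n)
  have hs := sing_pos hA (i := n - 1) (by omega)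
  unfold kappaBar
  apply Real.one_le_rpow _ (by positivity)
  have h1 : ∑ _i ∈ Finset.range n, (1 : ℝ) ≤
      ∑ i ∈ Finset.range n, (sing A i / sing A (n - 1)) ^ p := by
    refine Finset.sum_le_sum fun i hi => ?_
    apply Real.one_le_rpow _ hp.le
    rw [one_le_div hs]
    rw [Finset.mem_range] at hi
    exact sing_antitone A (by omega)
  rw [Finset.sum_const, Finset.card_range, nsmul_eq_mul, mul_one] at h1
  rw [one_div, inv_mul_eq_div, one_le_div hn0]
  exact h1

theorem one_le_kappa {A : Matrix (Fin n) (Fin n) ℝ} (hA : IsUnit A.det) (hn : 1 ≤ n) :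
    1 ≤ sing A 0 / sing A (n - 1) := by
  rw [one_le_div (sing_pos hA (i := n - 1) (by omega))]
  exact sing_antitone A (by omega)

end Pool.Agent.Lib.MP_2781e4_lc
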