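import Mathlib
import Pool.Agent.Lib.MP_2781e4_lc.OpB

/-!
# Convergence of the rounded Newton iteration
-/

namespace Pool.Agent.Lib.MP_2781e4_lc

open Finset

/-- bound for the residual after `k` Newton steps -/
noncomputable def resid (g δ : ℝ) : ℕ → ℝ
  | 0 => 1 - g
  | k + 1 => resid g δ k ^ 2 + δ

theorem resid_nonneg {g δ : ℝ} (hg : g ≤ 1) (hδ : 0 ≤ δ) (k : ℕ) : 0 ≤ resid g δ k := by
  cases k with
  | zero => simp only [resid]; linarith
  | succ k => simp only [resid]; positivity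

theorem resid_gap {g δ : ℝ} (hg : 0 < g) (hg2 : g ≤ 1 / 2) (hδ : 0 ≤ δ) (hδg : 16 * δ ≤ g)
    (k : ℕ) : min (1 / 2) ((5 / 4) ^ k * g) ≤ 1 - resid g δ k := by
  induction k with
  | zero => simp only [resid, pow_zero, one_mul, sub_sub_cancel]; exact min_le_right _ _
  | succ k ih =>
    have h0 := resid_nonneg (g := g) (δ := δ) (by linarith) hδ k
    have h1 : (1 : ℝ) ≤ (5 / 4) ^ k := one_le_pow₀ (by norm_num)
    have h2 : g ≤ min (1 / 2) ((5 / 4) ^ k * g) := by
      refine le_min hg2 ?_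
      nlinarith
    simp only [resid]
    set r := resid g δ k
    rcases le_or_gt (1 / 2) (1 - r) with h | h
    · refine (min_le_left _ _).trans ?_
      nlinarith
    · have h3 : (5 / 4) ^ k * g ≤ 1 - r := by
        rcases le_total (1 / 2) ((5 / 4) ^ k * g) with h4 | h4
        · rw [min_eq_left h4] at ih
          linarith
        · rwa [min_eq_right h4] at ih
      refine (min_le_right _ _).trans ?_
      rw [pow_succ]
      have h5 : g ≤ 1 - r := h2.trans ih
      nlinarith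

theorem resid_le_one {g δ : ℝ} (hg : 0 < g) (hg2 : g ≤ 1 / 2) (hδ : 0 ≤ δ) (hδg : 16 * δ ≤ g)
    (k : ℕ) : resid g δ k ≤ 1 := by
  have h1 := resid_gap hg hg2 hδ hδg k
  have h2 : 0 ≤ min (1 / 2) ((5 / 4) ^ k * g) := le_min (by norm_num) (by positivity)
  linarith

theorem resid_small {g δ : ℝ} (hg : g ≤ 1) (hδ : 0 ≤ δ) (hδ' : δ ≤ 1 / 32) {K : ℕ}
    (hK : resid g δ K ≤ 1 / 2) (j : ℕ) :
    resid g δ (K + j) ≤ 1 / 2 ∧ resid g δ (K + j) ≤ (1 / 2) ^ j + 2 * δ := by
  induction j with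
  | zero => simp only [add_zero, pow_zero]; exact ⟨hK, by linarith⟩
  | succ j ih =>
    have h0 := resid_nonneg hg hδ (K + j)
    rw [← add_assoc]
    simp only [resid]
    set r := resid g δ (K + j)
    obtain ⟨h1, h2⟩ := ih
    have e : ((1 : ℝ) / 2) ^ (j + 1) = (1 / 2) ^ j * (1 / 2) := pow_succ _ _
    rw [e]
    constructor <;> nlinarith

theorem pow_five_fourths (q : ℕ) : (2 : ℝ) ^ q ≤ (5 / 4) ^ (4 * q) := by
  rw [pow_mul]
  exact pow_le_pow_left₀ (by norm_num) (by norm_num) q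

theorem resid_final {g δ : ℝ} (hg : 0 < g) (hg2 : g ≤ 1 / 2) (hδ : 0 ≤ δ) (hδg : 16 * δ ≤ g)
    (q : ℕ) (hq : 1 ≤ 2 ^ q * g) : resid g δ (5 * q) ≤ (1 / 2) ^ q + 2 * δ := by
  have h1 := resid_gap hg hg2 hδ hδg (4 * q)
  have h2 : (1 : ℝ) / 2 ≤ (5 / 4) ^ (4 * q) * g := by
    have := mul_le_mul_of_nonneg_right (pow_five_fourths q) hg.le
    linarith
  rw [min_eq_left h2] at h1
  have h3 := resid_small (by linarith) hδ (by linarith) (K := 4 * q)
    (by linarith : resid g δ (4 * q) ≤ 1 / 2) q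
  have : 5 * q = 4 * q + q := by ring
  rw [this]
  exact h3.2

section Main

variable {n : ℕ} {A B : Matrix (Fin n) (Fin n) ℝ} {τ u : ℝ}

/-- The hypotheses under which the iteration converges; `u = 2^q`. -/
structure Good (A B : Matrix (Fin n) (Fin n) ℝ) (τ u : ℝ) : Prop where
  hn : 1 ≤ n
  hτ : 0 < τ
  hu : 0 < u
  hA1 : OpB A (1 / 2)
  hA2 : ∀ v, τ * norm2 v ≤ norm2 (A.mulVec v)
  hAB : ∀ i j, |A i j - B i j| ≤ 1 / (2 * u)
  hq : 64 * (n : ℝ) ^ 2 ≤ u * τ ^ 2

theorem Good.n1 (h : Good A B τ u) : (1 : ℝ) ≤ n := by exact_mod_cast h.hn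

theorem Good.tau_le (h : Good A B τ u) : τ ≤ 1 / 2 := by
  have h1 := h.hA2 (Pi.single ⟨0, h.hn⟩ 1)
  have h2 := h.hA1 (Pi.single ⟨0, h.hn⟩ 1)
  rw [norm2_single] at h1 h2
  linarith

/-- the size of the perturbation -/
noncomputable def dlt (n : ℕ) (u : ℝ) : ℝ := n * (1 / (2 * u))

theorem Good.dlt_nonneg (h : Good A B τ u) : 0 ≤ dlt n u := by
  have := h.hu
  unfold dlt
  positivity

theorem Good.dlt_le (h : Good A B τ u) : 16 * dlt n u ≤ τ ^ 2 / 8 := by
  have h1 := h.n1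
  have h2 := h.hu
  have h3 := h.hq
  unfold dlt
  have : 16 * ((n : ℝ) * (1 / (2 * u))) = 8 * n / u := by field_simp; ring
  rw [this, div_le_iff₀ h2]
  nlinarith

theorem Good.opB_sub (h : Good A B τ u) : OpB (A - B) (dlt n u) :=
  OpB.of_abs_le (fun i j => h.hAB i j) (by have := h.hu; positivity)

theorem Good.opB_B (h : Good A B τ u) : OpB B 1 := by
  have h1 := h.hA1.sub h.opB_sub
  rw [sub_sub_cancel] at h1
  refine h1.mono ?_
  have := h.dlt_le
  have := h.tau_le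
  have := h.hτ
  nlinarith

theorem Good.lower (h : Good A B τ u) (v : Fin n → ℝ) :
    τ / 2 * norm2 v ≤ norm2 (B.mulVec v) := by
  have h1 := h.hA2 v
  have h2 := h.opB_sub v
  have h3 := norm2_add_le ((A - B).mulVec v) (B.mulVec v)
  rw [← Matrix.add_mulVec, sub_add_cancel] at h3
  have h4 := norm2_nonneg v
  have h5 : dlt n u ≤ τ / 2 := by
    have := h.dlt_le
    have := h.tau_le
    have := h.hτ
    nlinarith
  nlinarith

theorem Good.inv (h : Good A B τ u) : ∃ G : Matrix (Fin n) (Fin n) ℝ,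
    B * G = 1 ∧ G * B = 1 ∧ OpB G (2 / τ) := by
  have hτ := h.hτ
  have hinj : Function.Injective B.mulVec := by
    intro v w hvw
    have h1 := h.lower (v - w)
    rw [Matrix.mulVec_sub, sub_eq_zero.mpr hvw, norm2_zero] at h1
    by_contra hne
    have h2 := norm2_pos (sub_ne_zero.mpr hne)
    have : 0 < τ / 2 * norm2 (v - w) := by positivity
    linarith
  have hu : IsUnit B := Matrix.mulVec_injective_iff_isUnit.mp hinj
  have hdet : IsUnit B.det := (Matrix.isUnit_iff_isUnit_det B).mp hu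
  refine ⟨B⁻¹, Matrix.mul_nonsing_inv B hdet, Matrix.nonsing_inv_mul B hdet, ?_⟩
  intro v
  have h1 := h.lower (B⁻¹.mulVec v)
  rw [Matrix.mulVec_mulVec, Matrix.mul_nonsing_inv B hdet, Matrix.one_mulVec] at h1
  rw [div_mul_eq_mul_div, le_div_iff₀ hτ]
  linarith

theorem Good.init (h : Good A B τ u) :
    OpB (1 - B.transpose * B) (1 - τ ^ 2 / 8) := by
  intro v
  have hB := h.opB_B
  have hBt := hB.transpose (by norm_num)
  set w := B.mulVec v with hw
  have e : (1 - B.transpose * B).mulVec v = v - B.transpose.mulVec w := by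
    rw [Matrix.sub_mulVec, Matrix.one_mulVec, Matrix.mulVec_mulVec]
  rw [e]
  set z := B.transpose.mulVec w with hz
  have h1 : norm2 (v - z) ^ 2 = norm2 v ^ 2 - 2 * norm2 w ^ 2 + norm2 z ^ 2 := by
    have h2 : ∑ i, v i * z i = norm2 w ^ 2 := by
      rw [norm2_sq]
      have e1 : ∀ i, z i = ∑ j, B j i * w j := fun i => rfl
      have e2 : ∀ j, w j = ∑ i, B j i * v i := fun j => rfl
      calc ∑ i, v i * z i = ∑ i, ∑ j, w j * (B j i * v i) := by
            refine Finset.sum_congr rfl fun i _ => ?_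
            rw [e1, Finset.mul_sum]
            exact Finset.sum_congr rfl fun j _ => by ring
        _ = ∑ j, ∑ i, w j * (B j i * v i) := Finset.sum_comm
        _ = ∑ j, w j ^ 2 := by
            refine Finset.sum_congr rfl fun j _ => ?_
            rw [← Finset.mul_sum, ← e2 j, pow_two]
    rw [norm2_sq, ← h2, norm2_sq, norm2_sq, Finset.mul_sum, ← Finset.sum_sub_distrib,
      ← Finset.sum_add_distrib]
    refine Finset.sum_congr rfl fun i _ => ?_
    rw [Pi.sub_apply]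
    ring
  have h2 : norm2 z ≤ norm2 w := by simpa using hBt w
  have h3 := h.lower v
  rw [← hw] at h3
  have h4 := norm2_nonneg z
  have h5 := norm2_nonneg w
  have h6 := norm2_nonneg v
  have h7 := h.hτ
  have h8 := h.tau_le
  have h9 : norm2 z ^ 2 ≤ norm2 w ^ 2 := pow_le_pow_left₀ h4 h2 2
  have h10 : (τ / 2 * norm2 v) ^ 2 ≤ norm2 w ^ 2 :=
    pow_le_pow_left₀ (by positivity) h3 2
  have h11 : norm2 (v - z) ^ 2 ≤ ((1 - τ ^ 2 / 8) * norm2 v) ^ 2 := by
    rw [h1]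
    have : 0 ≤ (τ ^ 2 / 8) ^ 2 * norm2 v ^ 2 := by positivity
    nlinarith
  refine (pow_le_pow_iff_left₀ (norm2_nonneg _) (mul_nonneg ?_ h6) (by norm_num)).mp h11
  nlinarith

theorem Good.four_div_le (h : Good A B τ u) : 4 / τ ≤ u := by
  rw [div_le_iff₀ h.hτ]
  have h1 := h.n1
  have h2 := h.hq
  have h3 := h.tau_le
  have h4 := h.hτ
  have h5 := h.hu
  have h6 : u * τ ^ 2 ≤ u * τ := by
    apply mul_le_mul_of_nonneg_left _ h5.le
    nlinarith
  nlinarith

theorem Good.range (h : Good A B τ u) {Z : Matrix (Fin n) (Fin n) ℝ} {e : ℝ}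
    (he : OpB (1 - Z * B) e) (he0 : 0 ≤ e) (he1 : e ≤ 1) (i j : Fin n) :
    |(((2 : ℝ) • (1 : Matrix (Fin n) (Fin n) ℝ) - Z * B) * Z) i j| ≤ u := by
  obtain ⟨G, hG1, hG2, hG3⟩ := h.inv
  set E := 1 - Z * B with hE
  have e1 : ((2 : ℝ) • (1 : Matrix (Fin n) (Fin n) ℝ) - Z * B) * Z = (1 - E * E) * G := by
    have e2 : Z = (1 - E) * G := by
      rw [hE, sub_sub_cancel, Matrix.mul_assoc, hG1, Matrix.mul_one]
    have e3 : (2 : ℝ) • (1 : Matrix (Fin n) (Fin n) ℝ) - Z * B = 1 + E := by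
      rw [hE, two_smul]; abel
    rw [e3]
    conv_lhs => rw [e2]
    rw [← Matrix.mul_assoc]
    congr 1
    noncomm_ring
  have h2 : OpB ((1 - E * E) * G) ((1 + e * e) * (2 / τ)) :=
    (OpB.one.sub (he.mul he he0)).mul hG3 (by positivity)
  rw [e1]
  refine (h2.abs_le i j).trans (le_trans ?_ h.four_div_le)
  have hτ := h.hτ
  have : 4 / τ = 2 * (2 / τ) := by ring
  rw [this]
  apply mul_le_mul_of_nonneg_right _ (by positivity)
  nlinarith

theorem Good.step (h : Good A B τ u) {Z Z' : Matrix (Fin n) (Fin n) ℝ} {e : ℝ}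
    (he : OpB (1 - Z * B) e) (he0 : 0 ≤ e) (he1 : e ≤ 1)
    (hZ : ∀ i j, |(((2 : ℝ) • (1 : Matrix (Fin n) (Fin n) ℝ) - Z * B) * Z) i j| ≤ u →
      |(((2 : ℝ) • (1 : Matrix (Fin n) (Fin n) ℝ) - Z * B) * Z) i j - Z' i j| ≤ 1 / (2 * u)) :
    OpB (1 - Z' * B) (e ^ 2 + dlt n u) := by
  set D := ((2 : ℝ) • (1 : Matrix (Fin n) (Fin n) ℝ) - Z * B) * Z - Z' with hD
  have h1 : OpB D (dlt n u) :=
    OpB.of_abs_le (fun i j => hZ i j (h.range he he0 he1 i j)) (by have := h.hu; positivity)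
  have h2 : 1 - Z' * B = (1 - Z * B) * (1 - Z * B) + D * B := by
    rw [hD, two_smul]
    noncomm_ring
  rw [h2]
  have h3 := (he.mul he he0).add (h1.mul h.opB_B h.dlt_nonneg)
  rw [mul_one] at h3
  rw [pow_two]
  exact h3

theorem Good.final (h : Good A B τ u) {Z : Matrix (Fin n) (Fin n) ℝ}
    (he : OpB (1 - Z * B) (1 / u + 2 * dlt n u)) {L : ℝ} (hL0 : 0 ≤ L) (hL : L ≤ 2 * n) :
    16 * ∑ i, ∑ j, (1 - Z * B) i j ^ 2 ≤ 1 ∧ 16 * L ^ 2 * ∑ i, ∑ j, Z i j ^ 2 ≤ u ^ 2 := by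
  obtain ⟨G, hG1, hG2, hG3⟩ := h.inv
  have hn := h.n1
  have hu := h.hu
  have hτ := h.hτ
  have hτ2 := h.tau_le
  have hq := h.hq
  -- the residual is at most `2 n / u`
  have e1 : 1 / u + 2 * dlt n u ≤ 2 * n / u := by
    unfold dlt
    have : 1 / u + 2 * ((n : ℝ) * (1 / (2 * u))) = (1 + n) / u := by field_simp
    rw [this]
    apply div_le_div_of_nonneg_right _ hu.le
    linarith
  have e2 : 2 * n / u ≤ 1 / (4 * n) := by
    rw [div_le_div_iff₀ hu (by positivity)]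
    have : u * τ ^ 2 ≤ u * (1 / 4) := by
      apply mul_le_mul_of_nonneg_left _ hu.le
      nlinarith
    nlinarith
  have he' : OpB (1 - Z * B) (1 / (4 * n)) := he.mono (e1.trans e2)
  constructor
  · have h1 := he'.sum_sq_le
    have : (n : ℝ) * (1 / (4 * n)) ^ 2 ≤ 1 / 16 := by
      have : (n : ℝ) * (1 / (4 * n)) ^ 2 = 1 / (16 * n) := by field_simp; ring
      rw [this]
      apply one_div_le_one_div_of_le (by norm_num)
      linarith
    linarith
  · have h1 : OpB Z (4 / τ) := by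
      have e3 : Z = (1 - (1 - Z * B)) * G := by
        rw [sub_sub_cancel, Matrix.mul_assoc, hG1, Matrix.mul_one]
      have he1 : OpB (1 - Z * B) 1 := he'.mono (by
        rw [div_le_one (by positivity)]; linarith)
      rw [e3]
      have h2 := (OpB.one.sub he1).mul hG3 (by norm_num)
      refine h2.mono (le_of_eq ?_)
      ring
    have h2 := h1.sum_sq_le
    calc 16 * L ^ 2 * ∑ i, ∑ j, Z i j ^ 2 ≤ 16 * (2 * n) ^ 2 * (n * (4 / τ) ^ 2) := by
          apply mul_le_mul _ h2 (Finset.sum_nonneg fun _ _ => Finset.sum_nonneg fun _ _ =>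
            sq_nonneg _) (by positivity)
          apply mul_le_mul_of_nonneg_left _ (by norm_num)
          exact pow_le_pow_left₀ hL0 hL 2
      _ = 1024 * n ^ 3 / τ ^ 2 := by field_simp; ring
      _ ≤ u ^ 2 := by
          rw [div_le_iff₀ (by positivity)]
          have h3 : (64 * (n : ℝ) ^ 2) ^ 2 ≤ (u * τ ^ 2) ^ 2 :=
            pow_le_pow_left₀ (by positivity) hq 2
          have h4 : (u * τ ^ 2) ^ 2 ≤ u ^ 2 * τ ^ 2 := by
            have : (u * τ ^ 2) ^ 2 = u ^ 2 * τ ^ 2 * τ ^ 2 := by ring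
            rw [this]
            have h5 : τ ^ 2 ≤ 1 := by nlinarith
            have : 0 ≤ u ^ 2 * τ ^ 2 := by positivity
            nlinarith
          have h5 : 1024 * (n : ℝ) ^ 3 ≤ (64 * (n : ℝ) ^ 2) ^ 2 := by
            have : (n : ℝ) ^ 3 ≤ n ^ 4 := pow_le_pow_right₀ hn (by norm_num)
            nlinarith [pow_nonneg (zero_le_one.trans hn) 4]
          linarith

end Main

end Pool.Agent.Lib.MP_2781e4_lc
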