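import Mathlib
import Pool.Agent.Lib.MP_2781e4_lc.Stage

/-!
# Specification of the blocks of a stage
-/

namespace Pool.Agent.Lib.MP_2781e4_lc

open Pool.Agent.Lib.MP_2781e4_lc.Tree Finset

variable {n : ℕ}

/-- the array `k` holds the matrix `M` -/
def Holds (k : ℕ) (m : Mem) (M : Matrix (Fin n) (Fin n) ℝ) : Prop :=
  ∀ i j : Fin n, m (k, i, j) = M i j

/-- the array `k` holds the integer matrix `M` -/
def HoldsZ (k : ℕ) (m : Mem) (M : Matrix (Fin n) (Fin n) ℤ) : Prop :=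
  ∀ i j : Fin n, m (k, i, j) = (M i j : ℝ)

/-- the array `k` holds the vector `v` -/
def HoldsV (k : ℕ) (m : Mem) (v : Fin n → ℝ) : Prop :=
  ∀ i : Fin n, m (k, i, 0) = v i

/-- The tables are in place. -/
def Tab (n q : ℕ) (m : Mem) : Prop :=
  PowOK (top n q) m ∧ BaseOK n (bet n q) m ∧ m cZero = 0

theorem Tab.of_eq {q : ℕ} {m m' : Mem} (h : Tab n q m)
    (h' : ∀ c : Cell, c = cZero ∨ c = cHalf ∨ c = cOne ∨ c.1 = 6 ∨ c.1 = 7 → m' c = m c) :
    Tab n q m' := by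
  refine ⟨h.1.of_eq (fun i => h' _ ?_) (h' _ ?_) (h' _ ?_), fun j hj => ?_, ?_⟩
  · simp
  · simp
  · simp
  · rw [h' _ (by simp)]
    exact h.2.1 j hj
  · rw [h' _ (by simp)]
    exact h.2.2

theorem bet_lt_top (n q : ℕ) : bet n q + 1 ≤ top n q := by unfold bet top; omega
theorem two_le_bet (n q : ℕ) : 2 ≤ bet n q := by unfold bet; omega

theorem matmul_holds {q : ℕ} {P Q C : ℕ} (hP : 9 ≤ P) (hQ : 9 ≤ Q) (hC : 9 ≤ C)
    (hCP : C ≠ P) (hCQ : C ≠ Q) {m : Mem} (hm : Tab n q m)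
    {X Y : Matrix (Fin n) (Fin n) ℤ} (hX : HoldsZ P m X) (hY : HoldsZ Q m Y)
    (hc : ∀ i j, 4 * |(X * Y) i j| ≤ 2 ^ bet n q) :
    HoldsZ C ((matmul n (bet n q) P Q C).mem m) (X * Y) := by
  intro i j
  have := matmul_spec (bet_lt_top n q) (two_le_bet n q) hP hQ hC hCP hCQ m hm.1 hm.2.1
    (fun i j => if h : i < n ∧ j < n then (X * Y) ⟨i, h.1⟩ ⟨j, h.2⟩ else 0) ?_ ?_ i j i.2 j.2
  · rw [this, dif_pos ⟨i.2, j.2⟩]
  · intro i j hi hj
    rw [dif_pos ⟨hi, hj⟩]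
    have := hc ⟨i, hi⟩ ⟨j, hj⟩
    exact_mod_cast this
  · intro i j hi hj
    rw [dif_pos ⟨hi, hj⟩, Matrix.mul_apply]
    push_cast
    rw [← Fin.sum_univ_eq_sum_range (fun k => m (P, i, k) * m (Q, k, j)) n]
    refine Finset.sum_congr rfl fun k _ => ?_
    rw [← hX ⟨i, hi⟩ k, ← hY k ⟨j, hj⟩]

theorem subI_holds {e P R : ℕ} (hPR : P ≠ R) (hR : 9 ≤ R) {m : Mem} (h0 : m cZero = 0)
    (hp : m (cPow e) = 2 ^ e) {X : Matrix (Fin n) (Fin n) ℤ} (hX : HoldsZ P m X) :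
    HoldsZ R ((subI n e P R).mem m) ((2 : ℤ) ^ e • (1 : Matrix (Fin n) (Fin n) ℤ) - X) := by
  intro i j
  have := for2_rel (n := n) (C := R) (S := ∅)
    (body := fun i j => if i = j then op1 .sub (R, i, j) (cPow e) (P, i, j)
      else op1 .sub (R, i, j) cZero (P, i, j)) (fun _ _ => by simp)
    (fun i j => by split_ifs <;> exact wr_op1 (by simp)) m
    (fun i j v => v = (if i = j then 2 ^ e else 0) - m (P, i, j)) ?_ i j i.2 j.2
  · unfold subI
    rw [this, hX i j, Matrix.sub_apply, Matrix.smul_apply, Matrix.one_apply]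
    by_cases h : i = j
    · subst h; simp
    · have h' : (i : ℕ) ≠ j := fun e => h (Fin.ext e)
      simp [h, h']
  · intro i j hi hj m' hm'
    have e1 : m' (P, i, j) = m (P, i, j) := hm' _ (by simp) (Or.inl hPR)
    have e2 : m' (cPow e) = m (cPow e) := hm' _ (by simp) (Or.inl (by simp; omega))
    have e3 : m' cZero = m cZero := hm' _ (by simp) (Or.inl (by simp; omega))
    split_ifs with h
    · rw [mem_op1, Function.update_self, e1, e2, hp]; rfl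
    · rw [mem_op1, Function.update_self, e1, e3, h0]; rfl

/-! ### The scaled matrices -/

/-- the real matrix `2^{-q} Z` -/
noncomputable def hat (q : ℕ) (Z : Matrix (Fin n) (Fin n) ℤ) : Matrix (Fin n) (Fin n) ℝ :=
  Matrix.of fun i j => (Z i j : ℝ) / 2 ^ q

theorem hat_apply (q : ℕ) (Z : Matrix (Fin n) (Fin n) ℤ) (i j : Fin n) :
    hat q Z i j = (Z i j : ℝ) / 2 ^ q := rfl

/-- bound on all the entries -/
def Bdd (Z : Matrix (Fin n) (Fin n) ℤ) (a : ℕ) : Prop := ∀ i j, |Z i j| ≤ 2 ^ a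

theorem Bdd.mono {Z : Matrix (Fin n) (Fin n) ℤ} {a a' : ℕ} (h : Bdd Z a) (haa : a ≤ a') :
    Bdd Z a' := fun i j => (h i j).trans (pow_le_pow_right₀ (by norm_num) haa)

theorem n_le (n : ℕ) : (n : ℤ) ≤ 2 ^ ell n := by
  have := Nat.le_pow_clog (b := 2) (by norm_num) n
  unfold ell
  exact_mod_cast this

theorem Bdd.mul {X Y : Matrix (Fin n) (Fin n) ℤ} {a b : ℕ} (hX : Bdd X a) (hY : Bdd Y b) :
    Bdd (X * Y) (ell n + a + b) := by
  intro i j
  rw [Matrix.mul_apply]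
  calc |∑ k, X i k * Y k j| ≤ ∑ k, |X i k * Y k j| := Finset.abs_sum_le_sum_abs _ _
    _ ≤ ∑ _k : Fin n, (2 : ℤ) ^ a * 2 ^ b := by
        refine Finset.sum_le_sum fun k _ => ?_
        rw [abs_mul]
        exact mul_le_mul (hX i k) (hY k j) (abs_nonneg _) (by positivity)
    _ = (n : ℤ) * (2 ^ a * 2 ^ b) := by simp
    _ ≤ 2 ^ ell n * (2 ^ a * 2 ^ b) := mul_le_mul_of_nonneg_right (n_le n) (by positivity)
    _ = 2 ^ (ell n + a + b) := by ring

/-- the numerator of the Newton step -/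
def newtonW (q : ℕ) (B Z : Matrix (Fin n) (Fin n) ℤ) : Matrix (Fin n) (Fin n) ℤ :=
  ((2 : ℤ) ^ (2 * q + 1) • (1 : Matrix (Fin n) (Fin n) ℤ) - Z * B) * Z

theorem bdd_sub {q : ℕ} {B Z : Matrix (Fin n) (Fin n) ℤ} (hB : Bdd B (q + 2))
    (hZ : Bdd Z (2 * q + 2)) :
    Bdd ((2 : ℤ) ^ (2 * q + 1) • (1 : Matrix (Fin n) (Fin n) ℤ) - Z * B)
      (ell n + 3 * q + 5) := by
  intro i j
  have h1 := hZ.mul hB i j
  have h2 : |((2 : ℤ) ^ (2 * q + 1) • (1 : Matrix (Fin n) (Fin n) ℤ)) i j| ≤ 2 ^ (2 * q + 1) := by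
    rw [Matrix.smul_apply, Matrix.one_apply]
    split_ifs
    · simp
    · simp
  rw [Matrix.sub_apply]
  have h3 := abs_sub (((2 : ℤ) ^ (2 * q + 1) • (1 : Matrix (Fin n) (Fin n) ℤ)) i j) ((Z * B) i j)
  have h4 : (2 : ℤ) ^ (2 * q + 1) ≤ 2 ^ (ell n + (2 * q + 2) + (q + 2)) :=
    pow_le_pow_right₀ (by norm_num) (by omega)
  have h5 : (2 : ℤ) ^ (ell n + 3 * q + 5) = 2 * 2 ^ (ell n + (2 * q + 2) + (q + 2)) := by
    ring
  omega

/-- the relation between consecutive iterates -/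
def NStep (q : ℕ) (B Z Z' : Matrix (Fin n) (Fin n) ℤ) : Prop :=
  ∀ i j, |(newtonW q B Z i j : ℝ) / 2 ^ (2 * q)| ≤ 2 ^ (2 * q) →
    |(newtonW q B Z i j : ℝ) / 2 ^ (2 * q) - Z' i j| ≤ 1 / 2

theorem four_mul_le {x : ℤ} {a b : ℕ} (h : |x| ≤ 2 ^ a) (hab : a + 2 ≤ b) :
    4 * |x| ≤ 2 ^ b := by
  calc 4 * |x| ≤ 4 * 2 ^ a := by omega
    _ = 2 ^ (a + 2) := by ring
    _ ≤ 2 ^ b := pow_le_pow_right₀ (by norm_num) hab

theorem newton_spec {q : ℕ} {m : Mem} (hm : Tab n q m)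
    {B Z : Matrix (Fin n) (Fin n) ℤ} (hB : HoldsZ 12 m B) (hB' : Bdd B (q + 2))
    (hZ : HoldsZ 13 m Z) (hZ' : Bdd Z (2 * q + 2)) :
    ∃ Z' : Matrix (Fin n) (Fin n) ℤ, HoldsZ 13 ((newton n q).mem m) Z' ∧
      Bdd Z' (2 * q + 2) ∧ NStep q B Z Z' := by
  unfold newton
  rw [mem_seq, mem_seq, mem_seq]
  set m1 := (matmul n (bet n q) 13 12 14).mem m with hm1
  set m2 := (subI n (2 * q + 1) 14 15).mem m1 with hm2
  set m3 := (matmul n (bet n q) 15 13 16).mem m2 with hm3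
  have w1 : ∀ c : Cell, c.1 ≠ 4 → c.1 ≠ 5 → c.1 ≠ 8 → c.1 ≠ 14 → m1 c = m c :=
    fun c h4 h5 h8 h14 => mem_of_wr _ _ (wr_matmul _ _ _ _ _) c (by simp [Arr, *])
  have w2 : ∀ c : Cell, c.1 ≠ 15 → m2 c = m1 c :=
    fun c h => mem_of_wr _ _ (wr_subI _ _ _ _) c (by simp [Arr, *])
  have w3 : ∀ c : Cell, c.1 ≠ 4 → c.1 ≠ 5 → c.1 ≠ 8 → c.1 ≠ 16 → m3 c = m2 c :=
    fun c h4 h5 h8 h14 => mem_of_wr _ _ (wr_matmul _ _ _ _ _) c (by simp [Arr, *])
  have t1 : Tab n q m1 := hm.of_eq (by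
    rintro c (rfl | rfl | rfl | h | h) <;> apply w1 <;> simp [*])
  have t2 : Tab n q m2 := t1.of_eq (by
    rintro c (rfl | rfl | rfl | h | h) <;> apply w2 <;> simp [*])
  have t3 : Tab n q m3 := t2.of_eq (by
    rintro c (rfl | rfl | rfl | h | h) <;> apply w3 <;> simp [*])
  have h1 : HoldsZ 14 m1 (Z * B) := by
    refine matmul_holds (by norm_num) (by norm_num) (by norm_num) (by norm_num) (by norm_num)
      hm hZ hB fun i j => four_mul_le (hZ'.mul hB' i j) ?_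
    unfold bet; omega
  have h2 : HoldsZ 15 m2 ((2 : ℤ) ^ (2 * q + 1) • (1 : Matrix (Fin n) (Fin n) ℤ) - Z * B) :=
    subI_holds (by norm_num) (by norm_num) t1.2.2
      (t1.1.1 _ (by unfold top; omega)) h1
  have h3 : HoldsZ 13 m2 Z := by
    intro i j
    rw [w2 _ (by simp), w1 _ (by simp) (by simp) (by simp) (by simp)]
    exact hZ i j
  have h4 : HoldsZ 16 m3 (newtonW q B Z) := by
    refine matmul_holds (by norm_num) (by norm_num) (by norm_num) (by norm_num) (by norm_num)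
      t2 h2 h3 fun i j => four_mul_le ((bdd_sub hB' hZ').mul hZ' i j) ?_
    unfold bet; omega
  have key := for2_rel (n := n) (C := 13) (S := {cT, cY})
    (body := fun i j => (op1 .div cT (16, i, j) (cPow (2 * q))).seq
      (roundP (2 * q) cT (13, i, j))) (fun _ _ => by simp) (fun i j => ?_) m3
    (fun i j v => ∃ z : ℤ, v = z ∧ |z| ≤ 2 ^ (2 * q + 2) ∧
      (|m3 (16, i, j) / 2 ^ (2 * q)| ≤ 2 ^ (2 * q) →
        |m3 (16, i, j) / 2 ^ (2 * q) - z| ≤ 1 / 2)) ?_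
  · have key' : ∀ i j : Fin n, ∃ z : ℤ, ((for2 n fun i j =>
        (op1 .div cT (16, i, j) (cPow (2 * q))).seq
          (roundP (2 * q) cT (13, i, j))).mem m3) (13, i, j) = z ∧ |z| ≤ 2 ^ (2 * q + 2) ∧
      (|m3 (16, i, j) / 2 ^ (2 * q)| ≤ 2 ^ (2 * q) →
        |m3 (16, i, j) / 2 ^ (2 * q) - z| ≤ 1 / 2) := fun i j => key i j i.2 j.2
    choose z hz1 hz2 hz3 using key'
    refine ⟨Matrix.of z, hz1, hz2, fun i j => ?_⟩
    rw [← h4 i j]
    exact hz3 i j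
  · refine wr_seq (wr_op1 (by simp)) ((wr_roundP _ _ _).mono ?_)
    rintro c (rfl | rfl) <;> simp
  · intro i j hi hj m' hm'
    rw [mem_seq, mem_op1]
    set m4 := Function.update m' cT (Op.div.app (m' (16, i, j)) (m' (cPow (2 * q)))) with hm4
    have e1 : m' (16, i, j) = m3 (16, i, j) := hm' _ (by simp) (Or.inl (by simp))
    have e2 : m' (cPow (2 * q)) = 2 ^ (2 * q) := by
      rw [hm' _ (by simp) (Or.inl (by simp))]
      exact t3.1.1 _ (by unfold top; omega)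
    have e3 : m4 cT = m3 (16, i, j) / 2 ^ (2 * q) := by
      rw [hm4, Function.update_self, e1, e2]; rfl
    have e4 : PowOK (top n q) m4 := by
      refine t3.1.of_eq (fun k => ?_) ?_ ?_
      · rw [hm4, Function.update_of_ne (by simp)]
        exact hm' _ (by simp) (Or.inl (by simp))
      · rw [hm4, Function.update_of_ne (by simp)]
        exact hm' _ (by simp) (Or.inl (by simp))
      · rw [hm4, Function.update_of_ne (by simp)]
        exact hm' _ (by simp) (Or.inl (by simp))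
    obtain ⟨z, hz1, hz2, hz3⟩ := roundP_spec (a := 2 * q) (L := top n q)
      (by unfold top; omega) (x := cT) (dst := (13, i, j)) (by simp) (by simp) m4 e4
    refine ⟨z, hz1, hz2, ?_⟩
    rw [← e3]
    exact hz3

end Pool.Agent.Lib.MP_2781e4_lc
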