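import Mathlib
import Pool.Agent.Lib.MP_2781e4_lc.Spec

/-!
# Specification of the blocks of a stage, second part
-/

namespace Pool.Agent.Lib.MP_2781e4_lc

open Pool.Agent.Lib.MP_2781e4_lc.Tree Finset

variable {n : ℕ}

theorem sum_flat' (n : ℕ) (g : ℕ → ℕ → ℝ) :
    ∑ k ∈ range (n * n), g (k / n) (k % n) = ∑ i : Fin n, ∑ j : Fin n, g i j := by
  rw [sum_flat, ← Fin.sum_univ_eq_sum_range (fun i => ∑ j ∈ range n, g i j) n]
  refine Finset.sum_congr rfl fun i _ => ?_
  rw [← Fin.sum_univ_eq_sum_range (fun j => g i j) n]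

theorem absP_holds {m : Mem} (h0 : m cZero = 0) {A : Matrix (Fin n) (Fin n) ℝ}
    (hA : Holds 0 m A) : Holds 20 ((absP n).mem m) (Matrix.of fun i j => |A i j|) := by
  intro i j
  have := for2_rel (n := n) (C := 20) (S := ∅)
    (body := fun i j => .le cZero (0, i, j) (op1 .add (20, i, j) (0, i, j) cZero)
    (op1 .sub (20, i, j) cZero (0, i, j))) (fun _ _ => by simp)
    (fun i j => ⟨wr_op1 (by simp), wr_op1 (by simp)⟩) m
    (fun i j v => v = |m (0, i, j)|) ?_ i j i.2 j.2
  · unfold absP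
    rw [this, hA i j]; rfl
  · intro i j hi hj m' hm'
    have e1 : m' (0, i, j) = m (0, i, j) := hm' _ (by simp) (Or.inl (by simp))
    have e3 : m' cZero = m cZero := hm' _ (by simp) (Or.inl (by simp))
    simp only [mem, e1, e3, h0]
    split_ifs with h
    · rw [mem_op1, Function.update_self, e1, e3, h0, abs_of_nonneg h]
      simp [Op.app]
    · rw [mem_op1, Function.update_self, e1, e3, h0, abs_of_neg (not_le.mp h)]
      simp [Op.app]

theorem sumP_spec {m : Mem} (h1 : m cOne = 1) {A : Matrix (Fin n) (Fin n) ℝ}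
    (hA : Holds 20 m A) : (sumP n).mem m cS = 2 * ∑ i, ∑ j, A i j := by
  unfold sumP
  rw [mem_seq, mem_op1, Function.update_self,
    dot_spec (n * n) cS _ _ (by simp) (fun k _ => ⟨by simp, by simp⟩)
      (fun k _ => ⟨by simp, by simp⟩)]
  have : ∑ k ∈ range (n * n), m (20, k / n, k % n) * m cOne = ∑ i, ∑ j, A i j := by
    rw [h1]
    simp only [mul_one]
    rw [sum_flat' n (fun i j => m (20, i, j))]
    exact Finset.sum_congr rfl fun i _ => Finset.sum_congr rfl fun j _ => hA i j
  rw [this]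
  simp only [Op.app]
  ring

theorem scaleP_spec {q : ℕ} {m : Mem} (hm : Tab n q m) {A : Matrix (Fin n) (Fin n) ℝ}
    (hA : Holds 0 m A) {b : Fin n → ℝ} (hb : HoldsV 1 m b) {S : ℝ} (hS : m cS = S) :
    ∃ B : Matrix (Fin n) (Fin n) ℤ,
      Holds 10 ((scaleP n q).mem m) (Matrix.of fun i j => A i j / S) ∧
      HoldsV 11 ((scaleP n q).mem m) (fun i => b i / S) ∧
      HoldsZ 12 ((scaleP n q).mem m) B ∧
      HoldsZ 13 ((scaleP n q).mem m) B.transpose ∧
      Bdd B (q + 2) ∧
      ∀ i j, |A i j / S * 2 ^ q| ≤ 2 ^ q → |A i j / S * 2 ^ q - B i j| ≤ 1 / 2 := by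
  unfold scaleP
  rw [mem_seq, mem_seq, mem_seq]
  set m1 := (for2 n fun i j => op1 .div (10, i, j) (0, i, j) cS).mem m with hm1
  set m2 := (forN n fun i => op1 .div (11, i, 0) (1, i, 0) cS).mem m1 with hm2
  set m3 := (for2 n fun i j => (op1 .mul cT (10, i, j) (cPow q)).seq
    (roundP q cT (12, i, j))).mem m2 with hm3
  have w1 : ∀ c : Cell, c.1 ≠ 10 → m1 c = m c :=
    fun c h => mem_of_wr (S := Arr {10}) _ _ (wr_for2 fun _ _ => wr_op1 (by simp [Arr])) c
      (by simp [Arr, *])
  have w2 : ∀ c : Cell, c.1 ≠ 11 → m2 c = m1 c :=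
    fun c h => mem_of_wr (S := Arr {11}) _ _ (wr_forN fun _ => wr_op1 (by simp [Arr])) c
      (by simp [Arr, *])
  have w3 : ∀ c : Cell, c.1 ≠ 4 → c.1 ≠ 5 → c.1 ≠ 12 → m3 c = m2 c := by
    intro c h4 h5 h12
    refine mem_of_wr (S := Arr {4, 5, 12}) _ _ (wr_for2 fun i j => wr_seq
      (wr_op1 (by simp [Arr])) ((wr_roundP _ _ _).mono ?_)) c (by simp [Arr, *])
    rintro c (rfl | rfl) <;> simp [Arr]
  have w4 : ∀ c : Cell, c.1 ≠ 13 →
      (for2 n fun i j => op1 .add (13, i, j) (12, j, i) cZero).mem m3 c = m3 c :=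
    fun c h => mem_of_wr (S := Arr {13}) _ _ (wr_for2 fun _ _ => wr_op1 (by simp [Arr])) c
      (by simp [Arr, *])
  have t1 : Tab n q m1 := hm.of_eq (by
    rintro c (rfl | rfl | rfl | h | h) <;> apply w1 <;> simp [*])
  have t2 : Tab n q m2 := t1.of_eq (by
    rintro c (rfl | rfl | rfl | h | h) <;> apply w2 <;> simp [*])
  have t3 : Tab n q m3 := t2.of_eq (by
    rintro c (rfl | rfl | rfl | h | h) <;> apply w3 <;> simp [*])
  have h1 : Holds 10 m1 (Matrix.of fun i j => A i j / S) := by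
    intro i j
    have := for2_rel (n := n) (C := 10) (S := ∅)
      (body := fun i j => op1 .div (10, i, j) (0, i, j) cS) (fun _ _ => by simp)
      (fun i j => wr_op1 (by simp)) m
      (fun i j v => v = m (0, i, j) / m cS) ?_ i j i.2 j.2
    · rw [hm1, this, hA i j, hS]; rfl
    · intro i j hi hj m' hm'
      have e1 : m' (0, i, j) = m (0, i, j) := hm' _ (by simp) (Or.inl (by simp))
      have e3 : m' cS = m cS := hm' _ (by simp) (Or.inl (by simp))
      rw [mem_op1, Function.update_self, e1, e3]; rfl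
  have h2 : HoldsV 11 m2 (fun i => b i / S) := by
    intro i
    have := forN_rel (K := n) (D := fun i => (11, i, 0)) (S := ∅)
      (body := fun i => op1 .div (11, i, 0) (1, i, 0) cS) (fun i j _ _ h => by simpa using h)
      (fun _ _ => by simp)
      (fun i => wr_op1 (by simp)) m1
      (fun i v => v = m1 (1, i, 0) / m1 cS) ?_ i i.2
    · rw [hm2, this, w1 _ (by simp), w1 _ (by simp), hb i, hS]
    · intro i hi m' hm'
      have e1 : m' (1, i, 0) = m1 (1, i, 0) := hm' _ (by simp) (by simp)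
      have e3 : m' cS = m1 cS := hm' _ (by simp) (by simp)
      rw [mem_op1, Function.update_self, e1, e3]; rfl
  have h3 : Holds 10 m2 (Matrix.of fun i j => A i j / S) := by
    intro i j
    rw [w2 _ (by simp)]
    exact h1 i j
  have key := for2_rel (n := n) (C := 12) (S := {cT, cY})
    (body := fun i j => (op1 .mul cT (10, i, j) (cPow q)).seq
      (roundP q cT (12, i, j))) (fun _ _ => by simp) (fun i j => ?_) m2
    (fun i j v => ∃ z : ℤ, v = z ∧ |z| ≤ 2 ^ (q + 2) ∧
      (|m2 (10, i, j) * 2 ^ q| ≤ 2 ^ q →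
        |m2 (10, i, j) * 2 ^ q - z| ≤ 1 / 2)) ?_
  · have key' : ∀ i j : Fin n, ∃ z : ℤ, m3 (12, i, j) = z ∧ |z| ≤ 2 ^ (q + 2) ∧
      (|m2 (10, i, j) * 2 ^ q| ≤ 2 ^ q →
        |m2 (10, i, j) * 2 ^ q - z| ≤ 1 / 2) := fun i j => key i j i.2 j.2
    choose z hz1 hz2 hz3 using key'
    refine ⟨Matrix.of z, ?_, ?_, ?_, ?_, hz2, fun i j => ?_⟩
    · intro i j
      rw [w4 _ (by simp), w3 _ (by simp) (by simp) (by simp)]
      exact h3 i j
    · intro i
      rw [w4 _ (by simp), w3 _ (by simp) (by simp) (by simp)]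
      exact h2 i
    · intro i j
      rw [w4 _ (by simp)]
      exact hz1 i j
    · intro i j
      have := for2_rel (n := n) (C := 13) (S := ∅)
        (body := fun i j => op1 .add (13, i, j) (12, j, i) cZero) (fun _ _ => by simp)
        (fun i j => wr_op1 (by simp)) m3
        (fun i j v => v = m3 (12, j, i)) ?_ i j i.2 j.2
      · rw [this, hz1 j i]; rfl
      · intro i j hi hj m' hm'
        have e1 : m' (12, j, i) = m3 (12, j, i) := hm' _ (by simp) (Or.inl (by simp))
        have e3 : m' cZero = m3 cZero := hm' _ (by simp) (Or.inl (by simp))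
        rw [mem_op1, Function.update_self, e1, e3, t3.2.2]
        simp [Op.app]
    · have e : m2 (10, i, j) = A i j / S := h3 i j
      rw [← e]
      exact hz3 i j
  · refine wr_seq (wr_op1 (by simp)) ((wr_roundP _ _ _).mono ?_)
    rintro c (rfl | rfl) <;> simp
  · intro i j hi hj m' hm'
    rw [mem_seq, mem_op1]
    set m4 := Function.update m' cT (Op.mul.app (m' (10, i, j)) (m' (cPow q))) with hm4
    have e1 : m' (10, i, j) = m2 (10, i, j) := hm' _ (by simp) (Or.inl (by simp))
    have e2 : m' (cPow q) = 2 ^ q := by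
      rw [hm' _ (by simp) (Or.inl (by simp))]
      exact t2.1.1 _ (by unfold top; omega)
    have e3 : m4 cT = m2 (10, i, j) * 2 ^ q := by
      rw [hm4, Function.update_self, e1, e2]; rfl
    have e4 : PowOK (top n q) m4 := by
      refine t2.1.of_eq (fun k => ?_) ?_ ?_
      · rw [hm4, Function.update_of_ne (by simp)]
        exact hm' _ (by simp) (Or.inl (by simp))
      · rw [hm4, Function.update_of_ne (by simp)]
        exact hm' _ (by simp) (Or.inl (by simp))
      · rw [hm4, Function.update_of_ne (by simp)]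
        exact hm' _ (by simp) (Or.inl (by simp))
    obtain ⟨z, hz1, hz2, hz3⟩ := roundP_spec (a := q) (L := top n q)
      (by unfold top; omega) (x := cT) (dst := (12, i, j)) (by simp) (by simp) m4 e4
    refine ⟨z, hz1, hz2, ?_⟩
    rw [← e3]
    exact hz3

theorem verify_spec {q : ℕ} {m : Mem} (hm : Tab n q m)
    {B Z : Matrix (Fin n) (Fin n) ℤ} (hB : HoldsZ 12 m B) (hB' : Bdd B (q + 2))
    (hZ : HoldsZ 13 m Z) (hZ' : Bdd Z (2 * q + 2)) :
    (verify n q).mem m cE = (∑ i, ∑ j,
      ((((2 : ℤ) ^ (2 * q) • (1 : Matrix (Fin n) (Fin n) ℤ) - Z * B) i j : ℤ) : ℝ) ^ 2) * 2 ^ 4 ∧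
    (verify n q).mem m cZ = (∑ i, ∑ j, (Z i j : ℝ) ^ 2) * 2 ^ (2 * ell n + 4) ∧
    (verify n q).mem m cV = m cEps * 2 ^ q := by
  unfold verify
  simp only [mem_seq]
  set m1 := (matmul n (bet n q) 13 12 14).mem m with hm1
  set m2 := (subI n (2 * q) 14 19).mem m1 with hm2
  set m3 := (dot (n * n) cE (fun k => (19, k / n, k % n)) fun k => (19, k / n, k % n)).mem m2
    with hm3
  set m4 := (dot (n * n) cZ (fun k => (13, k / n, k % n)) fun k => (13, k / n, k % n)).mem m3
    with hm4
  have w1 : ∀ c : Cell, c.1 ≠ 4 → c.1 ≠ 5 → c.1 ≠ 8 → c.1 ≠ 14 → m1 c = m c :=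
    fun c h4 h5 h8 h14 => mem_of_wr _ _ (wr_matmul _ _ _ _ _) c (by simp [Arr, *])
  have w2 : ∀ c : Cell, c.1 ≠ 19 → m2 c = m1 c :=
    fun c h => mem_of_wr _ _ (wr_subI _ _ _ _) c (by simp [Arr, *])
  have w3 : ∀ c : Cell, c ≠ cE → c ≠ cT → m3 c = m2 c :=
    fun c h h' => mem_of_wr _ _ (wr_dot _ _ _ _) c (by simp [*])
  have w4 : ∀ c : Cell, c ≠ cZ → c ≠ cT → m4 c = m3 c :=
    fun c h h' => mem_of_wr _ _ (wr_dot _ _ _ _) c (by simp [*])
  have t1 : Tab n q m1 := hm.of_eq (by
    rintro c (rfl | rfl | rfl | h | h) <;> apply w1 <;> simp [*])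
  have h1 : HoldsZ 14 m1 (Z * B) := by
    refine matmul_holds (by norm_num) (by norm_num) (by norm_num) (by norm_num) (by norm_num)
      hm hZ hB fun i j => four_mul_le (hZ'.mul hB' i j) ?_
    unfold bet; omega
  have h2 : HoldsZ 19 m2 ((2 : ℤ) ^ (2 * q) • (1 : Matrix (Fin n) (Fin n) ℤ) - Z * B) :=
    subI_holds (by norm_num) (by norm_num) t1.2.2
      (t1.1.1 _ (by unfold top; omega)) h1
  have h3 : HoldsZ 13 m3 Z := by
    intro i j
    rw [w3 _ (by simp) (by simp), w2 _ (by simp),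
      w1 _ (by simp) (by simp) (by simp) (by simp)]
    exact hZ i j
  have e1 : m3 cE = ∑ i, ∑ j,
      ((((2 : ℤ) ^ (2 * q) • (1 : Matrix (Fin n) (Fin n) ℤ) - Z * B) i j : ℤ) : ℝ) ^ 2 := by
    rw [hm3, dot_spec (n * n) cE _ _ (by simp) (fun k _ => ⟨by simp, by simp⟩)
      (fun k _ => ⟨by simp, by simp⟩), sum_flat' n (fun i j => m2 (19, i, j) * m2 (19, i, j))]
    refine Finset.sum_congr rfl fun i _ => Finset.sum_congr rfl fun j _ => ?_
    rw [h2 i j, pow_two]
  have e2 : m4 cZ = ∑ i, ∑ j, (Z i j : ℝ) ^ 2 := by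
    rw [hm4, dot_spec (n * n) cZ _ _ (by simp) (fun k _ => ⟨by simp, by simp⟩)
      (fun k _ => ⟨by simp, by simp⟩), sum_flat' n (fun i j => m3 (13, i, j) * m3 (13, i, j))]
    refine Finset.sum_congr rfl fun i _ => Finset.sum_congr rfl fun j _ => ?_
    rw [h3 i j, pow_two]
  have p : ∀ k, k ≤ top n q → m4 (cPow k) = 2 ^ k := by
    intro k hk
    rw [w4 _ (by simp) (by simp), w3 _ (by simp) (by simp), w2 _ (by simp)]
    exact t1.1.1 k hk
  have e3 : m4 cEps = m cEps := by
    rw [w4 _ (by simp) (by simp), w3 _ (by simp) (by simp), w2 _ (by simp),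
      w1 _ (by simp) (by simp) (by simp) (by simp)]
  simp only [mem_op1]
  refine ⟨?_, ?_, ?_⟩
  · rw [Function.update_of_ne (by simp), Function.update_of_ne (by simp),
      Function.update_self, w4 _ (by simp) (by simp), e1, p _ (by unfold top; omega)]
    rfl
  · rw [Function.update_of_ne (by simp), Function.update_self,
      Function.update_of_ne (by simp), e2, Function.update_of_ne (by simp),
      p _ (by unfold top; omega)]
    rfl
  · rw [Function.update_self, Function.update_of_ne (by simp), Function.update_of_ne (by simp),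
      Function.update_of_ne (by simp), Function.update_of_ne (by simp), e3,
      p _ (by unfold top; omega)]
    rfl

theorem refine1_spec {q : ℕ} {m : Mem} (hm : Tab n q m)
    {A : Matrix (Fin n) (Fin n) ℝ} (hA : Holds 10 m A) {b : Fin n → ℝ} (hb : HoldsV 11 m b)
    {Z : Matrix (Fin n) (Fin n) ℤ} (hZ : HoldsZ 13 m Z)
    {x : Fin n → ℝ} (hx : HoldsV 17 m x) :
    HoldsV 17 ((refine1 n q).mem m) (x + (hat q Z).mulVec (b - A.mulVec x)) := by
  unfold refine1
  rw [mem_seq]
  set m1 := (forN n fun i => (dot n cU (fun j => (10, i, j)) fun j => (17, j, 0)).seq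
    (op1 .sub (18, i, 0) (11, i, 0) cU)).mem m with hm1
  have w1 : ∀ c : Cell, c ≠ cU → c ≠ cT → c.1 ≠ 18 → m1 c = m c := by
    intro c h h' h''
    refine mem_of_wr (S := {cU, cT} ∪ Arr {18}) _ _ (wr_forN fun i => wr_seq
      ((wr_dot _ _ _ _).mono ?_) (wr_op1 (by simp [Arr]))) c (by simp [Arr, *])
    intro c hc
    exact Or.inl hc
  have h1 : HoldsV 18 m1 (b - A.mulVec x) := by
    intro i
    have := forN_rel (K := n) (D := fun i => (18, i, 0)) (S := {cU, cT})
      (body := fun i => (dot n cU (fun j => (10, i, j)) fun j => (17, j, 0)).seq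
        (op1 .sub (18, i, 0) (11, i, 0) cU)) (fun i j _ _ h => by simpa using h)
      (fun _ _ => by simp)
      (fun i => wr_seq ((wr_dot _ _ _ _).mono (fun c hc => Or.inl hc)) (wr_op1 (by simp))) m
      (fun i v => v = m (11, i, 0) - ∑ j ∈ range n, m (10, i, j) * m (17, j, 0)) ?_ i i.2
    · rw [hm1, this, hb i, ← Fin.sum_univ_eq_sum_range (fun j => m (10, i, j) * m (17, j, 0)) n]
      simp only [Pi.sub_apply, Matrix.mulVec, dotProduct]
      congr 1
      exact Finset.sum_congr rfl fun j _ => by rw [hA i j, hx j]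
    · intro i hi m' hm'
      rw [mem_seq, mem_op1, Function.update_self,
        dot_spec n cU _ _ (by simp) (fun k _ => ⟨by simp, by simp⟩)
        (fun k _ => ⟨by simp, by simp⟩)]
      have e1 : (dot n cU (fun j => (10, i, j)) fun j => (17, j, 0)).mem m' (11, i, 0) =
          m (11, i, 0) := by
        rw [mem_of_wr _ _ (wr_dot _ _ _ _) _ (by simp)]
        exact hm' _ (by simp) (by simp)
      rw [e1]
      simp only [Op.app]
      congr 1
      refine Finset.sum_congr rfl fun j _ => ?_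
      rw [hm' (10, i, j) (by simp) (by simp), hm' (17, j, 0) (by simp) (by simp)]
  intro i
  have hZ1 : HoldsZ 13 m1 Z := by
    intro i j
    rw [w1 _ (by simp) (by simp) (by simp)]
    exact hZ i j
  have := forN_rel (K := n) (D := fun i => (17, i, 0)) (S := {cU, cT})
    (body := fun i => (dot n cU (fun j => (13, i, j)) fun j => (18, j, 0)).seq <|
      (op1 .div cU cU (cPow q)).seq (op1 .add (17, i, 0) (17, i, 0) cU))
    (fun i j _ _ h => by simpa using h) (fun _ _ => by simp)
    (fun i => wr_seq ((wr_dot _ _ _ _).mono (fun c hc => Or.inl hc))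
      (wr_seq (wr_op1 (by simp)) (wr_op1 (by simp)))) m1
    (fun i v => v = m1 (17, i, 0) + (∑ j ∈ range n, m1 (13, i, j) * m1 (18, j, 0)) / 2 ^ q)
    ?_ i i.2
  · rw [this, w1 _ (by simp) (by simp) (by simp), hx i,
      ← Fin.sum_univ_eq_sum_range (fun j => m1 (13, i, j) * m1 (18, j, 0)) n, Finset.sum_div]
    simp only [Pi.add_apply, Matrix.mulVec, dotProduct]
    congr 1
    refine Finset.sum_congr rfl fun j _ => ?_
    rw [hZ1 i j, h1 j, hat_apply]
    simp only [Pi.sub_apply, Matrix.mulVec, dotProduct]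
    ring
  · intro i hi m' hm'
    have e1 : (dot n cU (fun j => (13, i, j)) fun j => (18, j, 0)).mem m' (17, i, 0) =
        m1 (17, i, 0) := by
      rw [mem_of_wr _ _ (wr_dot _ _ _ _) _ (by simp)]
      refine hm' _ (by simp) ?_
      intro k' _ hne h
      simp only [Prod.mk.injEq, true_and, and_true] at h
      exact hne h.symm
    have e2 : (dot n cU (fun j => (13, i, j)) fun j => (18, j, 0)).mem m' (cPow q) = 2 ^ q := by
      rw [mem_of_wr _ _ (wr_dot _ _ _ _) _ (by simp), hm' _ (by simp) (by simp),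
        w1 _ (by simp) (by simp) (by simp)]
      exact hm.1.1 q (by unfold top; omega)
    have e3 : (dot n cU (fun j => (13, i, j)) fun j => (18, j, 0)).mem m' cU =
        ∑ j ∈ range n, m1 (13, i, j) * m1 (18, j, 0) := by
      rw [dot_spec n cU _ _ (by simp) (fun k _ => ⟨by simp, by simp⟩)
        (fun k _ => ⟨by simp, by simp⟩)]
      refine Finset.sum_congr rfl fun j _ => ?_
      rw [hm' (13, i, j) (by simp) (by simp), hm' (18, j, 0) (by simp) (by simp)]
    rw [mem_seq, mem_seq, mem_op1, mem_op1, Function.update_self,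
      Function.update_of_ne (by simp), Function.update_self, e1, e2, e3]
    rfl

theorem clear_spec (m : Mem) :
    HoldsV 17 ((forN n fun i => op1 .sub (17, i, 0) cOne cOne).mem m) (0 : Fin n → ℝ) := by
  intro i
  have := forN_rel (K := n) (D := fun i => (17, i, 0)) (S := ∅)
    (body := fun i => op1 .sub (17, i, 0) cOne cOne) (fun i j _ _ h => by simpa using h)
    (fun _ _ => by simp) (fun i => wr_op1 (by simp)) m
    (fun i v => v = 0) ?_ i i.2
  · rw [this]; rfl
  · intro i hi m' hm'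
    rw [mem_op1, Function.update_self]
    simp [Op.app]

end Pool.Agent.Lib.MP_2781e4_lc
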