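import Mathlib
import Pool.Agent.Lib.MP_2781e4_lc.Spec2
import Pool.Agent.Lib.MP_2781e4_lc.Newton

/-!
# Correctness and completeness of the stages
-/

namespace Pool.Agent.Lib.MP_2781e4_lc

open Pool.Agent.Lib.MP_2781e4_lc.Tree Finset

variable {n : ℕ}

/-! ### Scaled matrices -/

theorem cast_eq_smul_hat (q : ℕ) (Z : Matrix (Fin n) (Fin n) ℤ) :
    Z.map (Int.castRingHom ℝ) = (2 : ℝ) ^ q • hat q Z := by
  refine Matrix.ext fun i j => ?_
  rw [Matrix.map_apply, Matrix.smul_apply, hat_apply, smul_eq_mul]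
  simp only [eq_intCast]
  field_simp

theorem hatW (q : ℕ) (B Z : Matrix (Fin n) (Fin n) ℤ) (i j : Fin n) :
    (newtonW q B Z i j : ℝ) / 2 ^ (2 * q) =
      2 ^ q * (((2 : ℝ) • (1 : Matrix (Fin n) (Fin n) ℝ) - hat q Z * hat q B) * hat q Z) i j := by
  have h1 : (newtonW q B Z).map (Int.castRingHom ℝ) =
      ((2 : ℝ) ^ (3 * q)) •
        (((2 : ℝ) • (1 : Matrix (Fin n) (Fin n) ℝ) - hat q Z * hat q B) * hat q Z) := by
    unfold newtonW
    rw [Matrix.map_mul, Matrix.map_sub _ (by intro a b; simp), Matrix.map_mul,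
      cast_eq_smul_hat q Z, cast_eq_smul_hat q B]
    have h2 : ((2 : ℤ) ^ (2 * q + 1) • (1 : Matrix (Fin n) (Fin n) ℤ)).map
        (Int.castRingHom ℝ) = (2 : ℝ) ^ (2 * q) • ((2 : ℝ) • (1 : Matrix (Fin n) (Fin n) ℝ)) := by
      refine Matrix.ext fun i j => ?_
      rw [Matrix.map_apply, Matrix.smul_apply, Matrix.smul_apply, Matrix.smul_apply,
        Matrix.one_apply, Matrix.one_apply]
      split_ifs
      · simp [pow_succ]
      · simp
    have h5 : ((2 : ℝ) ^ q • hat q Z) * ((2 : ℝ) ^ q • hat q B) =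
        (2 : ℝ) ^ (2 * q) • (hat q Z * hat q B) := by
      rw [Matrix.smul_mul, Matrix.mul_smul, smul_smul, ← pow_add, ← two_mul]
    rw [h2, h5, ← smul_sub, Matrix.smul_mul, Matrix.mul_smul, smul_smul, ← pow_add]
    congr 2
    ring
  have h3 := congrFun (congrFun h1 i) j
  rw [Matrix.map_apply, Matrix.smul_apply, smul_eq_mul] at h3
  simp only [eq_intCast] at h3
  rw [h3]
  have : (2 : ℝ) ^ (3 * q) = 2 ^ (2 * q) * 2 ^ q := by rw [← pow_add]; congr 1; ring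
  rw [this]
  field_simp

theorem hatE (q : ℕ) (B Z : Matrix (Fin n) (Fin n) ℤ) (i j : Fin n) :
    ((((2 : ℤ) ^ (2 * q) • (1 : Matrix (Fin n) (Fin n) ℤ) - Z * B) i j : ℤ) : ℝ) =
      2 ^ (2 * q) * (1 - hat q Z * hat q B) i j := by
  have h1 : ((2 : ℤ) ^ (2 * q) • (1 : Matrix (Fin n) (Fin n) ℤ) - Z * B).map
      (Int.castRingHom ℝ) =
      ((2 : ℝ) ^ (2 * q)) • (1 - hat q Z * hat q B) := by
    rw [Matrix.map_sub _ (by intro a b; simp), Matrix.map_mul,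
      cast_eq_smul_hat q Z, cast_eq_smul_hat q B]
    have h2 : ((2 : ℤ) ^ (2 * q) • (1 : Matrix (Fin n) (Fin n) ℤ)).map
        (Int.castRingHom ℝ) = (2 : ℝ) ^ (2 * q) • (1 : Matrix (Fin n) (Fin n) ℝ) := by
      refine Matrix.ext fun i j => ?_
      rw [Matrix.map_apply, Matrix.smul_apply, Matrix.smul_apply,
        Matrix.one_apply, Matrix.one_apply]
      split_ifs
      · simp
      · simp
    rw [h2, Matrix.smul_mul, Matrix.mul_smul, smul_smul, ← pow_add, ← two_mul, ← smul_sub]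
  have h3 := congrFun (congrFun h1 i) j
  rw [Matrix.map_apply, Matrix.smul_apply, smul_eq_mul] at h3
  simpa using h3

theorem hat_transpose (q : ℕ) (B : Matrix (Fin n) (Fin n) ℤ) :
    hat q B.transpose = (hat q B).transpose := rfl

theorem NStep.hat {q : ℕ} {B Z Z' : Matrix (Fin n) (Fin n) ℤ} (h : NStep q B Z Z')
    (i j : Fin n)
    (hr : |(((2 : ℝ) • (1 : Matrix (Fin n) (Fin n) ℝ) - hat q Z * hat q B) * hat q Z) i j|
      ≤ 2 ^ q) :
    |(((2 : ℝ) • (1 : Matrix (Fin n) (Fin n) ℝ) - MP_2781e4_lc.hat q Z *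
      MP_2781e4_lc.hat q B) * MP_2781e4_lc.hat q Z) i j - MP_2781e4_lc.hat q Z' i j| ≤
      1 / (2 * 2 ^ q) := by
  have h1 := h i j
  rw [hatW] at h1
  set w := (((2 : ℝ) • (1 : Matrix (Fin n) (Fin n) ℝ) - MP_2781e4_lc.hat q Z *
    MP_2781e4_lc.hat q B) * MP_2781e4_lc.hat q Z) i j
  have hu : (0 : ℝ) < 2 ^ q := by positivity
  have h2 : |2 ^ q * w| ≤ 2 ^ (2 * q) := by
    rw [abs_mul, abs_of_pos hu, two_mul, pow_add]
    exact mul_le_mul_of_nonneg_left hr hu.le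
  have h3 := h1 h2
  have h4 : MP_2781e4_lc.hat q Z' i j = (Z' i j : ℝ) / 2 ^ q := rfl
  rw [h4]
  have h5 : w - (Z' i j : ℝ) / 2 ^ q = (2 ^ q * w - Z' i j) / 2 ^ q := by field_simp
  rw [h5, abs_div, abs_of_pos hu, div_le_div_iff₀ hu (by positivity)]
  nlinarith

/-! ### Fine frames -/

theorem wr_sumP' (n : ℕ) : (sumP n).Wr {cS, cT} :=
  wr_seq (wr_dot _ _ _ _) (wr_op1 (by simp))

theorem wr_verify' (n q : ℕ) : (verify n q).Wr ({cE, cZ, cV} ∪ Arr {4, 5, 8, 14, 19}) := by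
  refine wr_seq ((wr_matmul _ _ _ _ _).mono ?_) (wr_seq ((wr_subI _ _ _ _).mono
    ?_) (wr_seq ((wr_dot _ _ _ _).mono ?_) (wr_seq ((wr_dot _ _ _ _).mono ?_)
    (wr_seq (wr_op1 (by simp)) (wr_seq (wr_op1 (by simp))
    (wr_op1 (by simp)))))))
  · refine (Arr_mono ?_).trans Set.subset_union_right
    intro x; simp; tauto
  · refine (Arr_mono ?_).trans Set.subset_union_right
    intro x; simp; tauto
  · rintro c (rfl | rfl) <;> simp [Arr]
  · rintro c (rfl | rfl) <;> simp [Arr]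

theorem wr_refine1' (n q : ℕ) : (refine1 n q).Wr ({cU, cT} ∪ Arr {17, 18}) := by
  refine wr_seq (wr_forN fun i => wr_seq ((wr_dot _ _ _ _).mono ?_) (wr_op1 (by simp [Arr])))
    (wr_forN fun i => wr_seq ((wr_dot _ _ _ _).mono ?_) (wr_seq (wr_op1 (by simp [Arr]))
      (wr_op1 (by simp [Arr]))))
  · exact Set.subset_union_left
  · exact Set.subset_union_left

/-! ### The stage -/

/-- The memory contains the input. -/
def Inp (A : Matrix (Fin n) (Fin n) ℝ) (b : Fin n → ℝ) (ε : ℝ) (m : Mem) : Prop :=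
  Holds 0 m A ∧ HoldsV 1 m b ∧ m cEps = ε ∧ m cOne = 1

theorem inp_input (A : Matrix (Fin n) (Fin n) ℝ) (b : Fin n → ℝ) (ε : ℝ) :
    Inp A b ε (input A b ε) := by
  refine ⟨fun i j => ?_, fun i => ?_, ?_, ?_⟩
  · simp [input]
  · simp [input]
  · simp [input]
  · simp [input]

theorem Inp.of_eq {A : Matrix (Fin n) (Fin n) ℝ} {b : Fin n → ℝ} {ε : ℝ} {m m' : Mem}
    (h : Inp A b ε m) (h' : ∀ c : Cell, c.1 ≤ 2 → m' c = m c) : Inp A b ε m' :=
  ⟨fun i j => (h' _ (by simp)).trans (h.1 i j), fun i => (h' _ (by simp)).trans (h.2.1 i),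
    (h' _ (by simp)).trans h.2.2.1, (h' _ (by simp)).trans h.2.2.2⟩

theorem inp_stage {A : Matrix (Fin n) (Fin n) ℝ} {b : Fin n → ℝ} {ε : ℝ} {m : Mem} (q : ℕ)
    (h : Inp A b ε m) : Inp A b ε ((stage n q).mem m) :=
  h.of_eq fun c hc => mem_of_wr _ _ (wr_stage n q) c (by simp; omega)

/-- twice the sum of the absolute values of the entries -/
noncomputable def scal (A : Matrix (Fin n) (Fin n) ℝ) : ℝ := 2 * ∑ i, ∑ j, |A i j|

/-- the scaled matrix -/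
noncomputable def scaled (A : Matrix (Fin n) (Fin n) ℝ) : Matrix (Fin n) (Fin n) ℝ :=
  Matrix.of fun i j => A i j / scal A

theorem scaled_eq (A : Matrix (Fin n) (Fin n) ℝ) : scaled A = (scal A)⁻¹ • A := by
  refine Matrix.ext fun i j => ?_
  rw [Matrix.smul_apply, smul_eq_mul, ← div_eq_inv_mul]
  rfl

theorem scal_pos (hn : 1 ≤ n) {A : Matrix (Fin n) (Fin n) ℝ} (hA : IsUnit A.det) :
    0 < scal A := by
  have h1 : A ≠ 0 := by
    rintro rfl
    have : Nonempty (Fin n) := ⟨⟨0, hn⟩⟩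
    rw [Matrix.det_zero] at hA
    exact not_isUnit_zero hA
  have h2 : ∃ i j, A i j ≠ 0 := by
    by_contra hne
    push Not at hne
    exact h1 (Matrix.ext fun i j => hne i j)
  obtain ⟨i, j, hij⟩ := h2
  have h3 : 0 < ∑ i, ∑ j, |A i j| := by
    refine Finset.sum_pos' (fun i _ => Finset.sum_nonneg fun j _ => abs_nonneg _)
      ⟨i, mem_univ i, ?_⟩
    exact Finset.sum_pos' (fun j _ => abs_nonneg _) ⟨j, mem_univ j, abs_pos.mpr hij⟩
  unfold scal
  linarith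

theorem opB_scaled {A : Matrix (Fin n) (Fin n) ℝ} (hS : 0 < scal A) :
    OpB (scaled A) (1 / 2) := by
  refine OpB.of_sum_sq ?_ (by norm_num)
  have h1 : ∑ i, ∑ j, |scaled A i j| = 1 / 2 := by
    have : ∀ i j, |scaled A i j| = |A i j| / scal A := fun i j => by
      show |A i j / scal A| = _
      rw [abs_div, abs_of_pos hS]
    simp only [this, ← Finset.sum_div]
    have h2 : ∑ i, ∑ j, |A i j| = scal A / 2 := by unfold scal; ring
    rw [h2]
    field_simp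
  rw [← h1]
  calc ∑ i, ∑ j, scaled A i j ^ 2 = ∑ i, ∑ j, |scaled A i j| ^ 2 := by simp only [sq_abs]
    _ ≤ ∑ i, (∑ j, |scaled A i j|) ^ 2 := Finset.sum_le_sum fun i _ =>
        Finset.sum_sq_le_sq_sum_of_nonneg fun j _ => abs_nonneg _
    _ ≤ (∑ i, ∑ j, |scaled A i j|) ^ 2 :=
        Finset.sum_sq_le_sq_sum_of_nonneg fun i _ => Finset.sum_nonneg fun j _ => abs_nonneg _

/-- The quality of the computed matrix `Z`. -/
theorem sound_aux {q : ℕ} {A : Matrix (Fin n) (Fin n) ℝ} {B Z : Matrix (Fin n) (Fin n) ℤ}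
    (hAB : ∀ i j, |A i j - hat q B i j| ≤ 1 / (2 * 2 ^ q))
    (h1 : 16 * ∑ i, ∑ j, (1 - hat q Z * hat q B) i j ^ 2 ≤ 1)
    (h2 : 16 * (2 ^ ell n) ^ 2 * ∑ i, ∑ j, hat q Z i j ^ 2 ≤ (2 ^ q) ^ 2) :
    OpB (1 - hat q Z * A) (1 / 2) := by
  have e1 : OpB (1 - hat q Z * hat q B) (1 / 4) :=
    OpB.of_sum_sq (by
      have : ((1 : ℝ) / 4) ^ 2 = 1 / 16 := by norm_num
      rw [this]; linarith) (by norm_num)
  have hL : (0 : ℝ) < 2 ^ ell n := by positivity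
  have hu : (0 : ℝ) < 2 ^ q := by positivity
  have e2 : OpB (hat q Z) (2 ^ q / (4 * 2 ^ ell n)) := by
    refine OpB.of_sum_sq ?_ (by positivity)
    rw [div_pow, le_div_iff₀ (by positivity)]
    linarith
  have e3 : OpB (A - hat q B) (n * (1 / (2 * 2 ^ q))) := OpB.of_abs_le hAB (by positivity)
  have e4 : 1 - hat q Z * A = (1 - hat q Z * hat q B) - hat q Z * (A - hat q B) := by
    noncomm_ring
  rw [e4]
  refine (e1.sub (e2.mul e3 (by positivity))).mono ?_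
  have e5 : (n : ℝ) ≤ 2 ^ ell n := by exact_mod_cast n_le n
  have e6 : 2 ^ q / (4 * 2 ^ ell n) * ((n : ℝ) * (1 / (2 * 2 ^ q))) = n / (8 * 2 ^ ell n) := by
    field_simp; ring
  rw [e6]
  have : (n : ℝ) / (8 * 2 ^ ell n) ≤ 1 / 8 := by
    rw [div_le_div_iff₀ (by positivity) (by norm_num)]
    linarith
  linarith

theorem ell_le (hn : 1 ≤ n) : (2 : ℝ) ^ ell n ≤ 2 * n := by
  unfold ell
  rcases Nat.lt_or_ge 1 n with h | h
  · have h1 := Nat.pow_pred_clog_lt_self (b := 2) (by norm_num) h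
    have h2 : 0 < Nat.clog 2 n := Nat.clog_pos (by norm_num) h
    obtain ⟨k, hk⟩ : ∃ k, Nat.clog 2 n = k + 1 := ⟨Nat.clog 2 n - 1, by omega⟩
    rw [hk] at h1 ⊢
    have h3 : (2 : ℝ) ^ k < n := by exact_mod_cast h1
    rw [pow_succ]
    linarith
  · obtain rfl : n = 1 := by omega
    simp

/-- the Newton iteration -/
theorem newton_loop {q : ℕ} {m : Mem} {A : Matrix (Fin n) (Fin n) ℝ}
    {B : Matrix (Fin n) (Fin n) ℤ} {b : Fin n → ℝ} {ε : ℝ} (ht : Tab n q m)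
    (h12 : HoldsZ 12 m B) (h10 : Holds 10 m A) (h11 : HoldsV 11 m b) (hε : m cEps = ε)
    (h13 : HoldsZ 13 m B.transpose) (hB : Bdd B (q + 2)) (K : ℕ) :
    (Tab n q ((forN K fun _ => newton n q).mem m) ∧
      HoldsZ 12 ((forN K fun _ => newton n q).mem m) B ∧
      Holds 10 ((forN K fun _ => newton n q).mem m) A ∧
      HoldsV 11 ((forN K fun _ => newton n q).mem m) b ∧
      (forN K fun _ => newton n q).mem m cEps = ε) ∧
      ∃ Z : Matrix (Fin n) (Fin n) ℤ, HoldsZ 13 ((forN K fun _ => newton n q).mem m) Z ∧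
        Bdd Z (2 * q + 2) ∧
        ∀ τ, Good A (hat q B) τ (2 ^ q) →
          OpB (1 - hat q Z * hat q B) (resid (τ ^ 2 / 8) (dlt n (2 ^ q)) K) := by
  refine forN_inv (k := K) (body := fun _ => newton n q) (fun k m' =>
    (Tab n q m' ∧ HoldsZ 12 m' B ∧ Holds 10 m' A ∧ HoldsV 11 m' b ∧
    m' cEps = ε) ∧ ∃ Z : Matrix (Fin n) (Fin n) ℤ, HoldsZ 13 m' Z ∧ Bdd Z (2 * q + 2) ∧
      ∀ τ, Good A (hat q B) τ (2 ^ q) →
        OpB (1 - hat q Z * hat q B) (resid (τ ^ 2 / 8) (dlt n (2 ^ q)) k)) (m := m) ?_ ?_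
  · refine ⟨⟨ht, h12, h10, h11, hε⟩, B.transpose, h13, ?_, ?_⟩
    · intro i j
      exact (hB.mono (by omega)) j i
    · intro τ hG
      rw [hat_transpose]
      exact hG.init
  · rintro k hk m' ⟨⟨g1, g2, g3, g4, g5⟩, Z, g6, g7, g8⟩
    have w : ∀ c : Cell, c.1 ≠ 4 → c.1 ≠ 5 → c.1 ≠ 8 → c.1 ≠ 13 → c.1 ≠ 14 → c.1 ≠ 15 →
        c.1 ≠ 16 → (newton n q).mem m' c = m' c := fun c _ _ _ _ _ _ _ =>
      mem_of_wr _ _ (wr_newton _ _) c (by simp [Arr, *])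
    obtain ⟨Z', z1, z2, z3⟩ := newton_spec g1 g2 hB g6 g7
    refine ⟨⟨g1.of_eq ?_, ?_, ?_, ?_, ?_⟩, Z', z1, z2, ?_⟩
    · rintro c (rfl | rfl | rfl | h | h) <;> apply w <;> simp [*]
    · intro i j
      rw [w _ (by simp) (by simp) (by simp) (by simp) (by simp) (by simp) (by simp)]
      exact g2 i j
    · intro i j
      rw [w _ (by simp) (by simp) (by simp) (by simp) (by simp) (by simp) (by simp)]
      exact g3 i j
    · intro i
      rw [w _ (by simp) (by simp) (by simp) (by simp) (by simp) (by simp) (by simp)]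
      exact g4 i
    · rw [w _ (by simp) (by simp) (by simp) (by simp) (by simp) (by simp) (by simp)]
      exact g5
    · intro τ hG
      have hτ := hG.hτ
      have hτ2 := hG.tau_le
      have e0 : 0 < τ ^ 2 / 8 := by positivity
      have e1 : τ ^ 2 / 8 ≤ 1 / 2 := by nlinarith
      simp only [resid]
      exact hG.step (g8 τ hG) (resid_nonneg (by linarith) hG.dlt_nonneg _)
        (resid_le_one e0 e1 hG.dlt_nonneg hG.dlt_le _) (fun i j hr => z3.hat i j hr)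

/-- the iterative refinement -/
theorem refine_loop {q : ℕ} {m : Mem} {A : Matrix (Fin n) (Fin n) ℝ}
    {Z : Matrix (Fin n) (Fin n) ℤ} {b xs : Fin n → ℝ} (ht : Tab n q m)
    (h10 : Holds 10 m A) (h11 : HoldsV 11 m b) (h13 : HoldsZ 13 m Z)
    (h17 : HoldsV 17 m (0 : Fin n → ℝ)) (hxs : A.mulVec xs = b) (K : ℕ) :
    (Tab n q ((forN K fun _ => refine1 n q).mem m) ∧
      (forN K fun _ => refine1 n q).mem m cE = m cE ∧
      (forN K fun _ => refine1 n q).mem m cZ = m cZ ∧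
      (forN K fun _ => refine1 n q).mem m cV = m cV) ∧
      ∃ x : Fin n → ℝ, HoldsV 17 ((forN K fun _ => refine1 n q).mem m) x ∧
        (OpB (1 - hat q Z * A) (1 / 2) → norm2 (x - xs) ≤ (1 / 2) ^ K * norm2 xs) := by
  have key := forN_inv (k := K) (body := fun _ => refine1 n q) (fun k m' =>
    (Tab n q m' ∧ Holds 10 m' A ∧ HoldsV 11 m' b ∧ HoldsZ 13 m' Z ∧
    m' cE = m cE ∧ m' cZ = m cZ ∧ m' cV = m cV) ∧
    ∃ x : Fin n → ℝ, HoldsV 17 m' x ∧ (OpB (1 - hat q Z * A) (1 / 2) →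
      norm2 (x - xs) ≤ (1 / 2) ^ k * norm2 xs)) (m := m) ?_ ?_
  · obtain ⟨⟨k1, -, -, -, k2⟩, k3⟩ := key
    exact ⟨⟨k1, k2⟩, k3⟩
  · refine ⟨⟨ht, h10, h11, h13, rfl, rfl, rfl⟩, 0, h17, fun _ => ?_⟩
    rw [zero_sub, norm2_neg, pow_zero, one_mul]
  · rintro k hk m' ⟨⟨g1, g2, g3, g4, g5, g6, g7⟩, x, g8, g9⟩
    have w : ∀ c : Cell, c ≠ cU → c ≠ cT → c.1 ≠ 17 → c.1 ≠ 18 →
        (refine1 n q).mem m' c = m' c := fun c _ _ _ _ =>
      mem_of_wr _ _ (wr_refine1' _ _) c (by simp [Arr, *])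
    refine ⟨⟨g1.of_eq ?_, ?_, ?_, ?_, ?_, ?_, ?_⟩,
      x + (hat q Z).mulVec (b - A.mulVec x), refine1_spec g1 g2 g3 g4 g8, ?_⟩
    · rintro c (rfl | rfl | rfl | h | h) <;> apply w <;> first | (simp [*]; done) |
        (rintro rfl; simp at h)
    · intro i j
      rw [w _ (by simp) (by simp) (by simp) (by simp)]
      exact g2 i j
    · intro i
      rw [w _ (by simp) (by simp) (by simp) (by simp)]
      exact g3 i
    · intro i j
      rw [w _ (by simp) (by simp) (by simp) (by simp)]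
      exact g4 i j
    · rw [w _ (by simp) (by simp) (by simp) (by simp)]; exact g5
    · rw [w _ (by simp) (by simp) (by simp) (by simp)]; exact g6
    · rw [w _ (by simp) (by simp) (by simp) (by simp)]; exact g7
    · intro hO
      have e1 : x + (hat q Z).mulVec (b - A.mulVec x) - xs =
          (1 - hat q Z * A).mulVec (x - xs) := by
        rw [← hxs, Matrix.sub_mulVec, Matrix.one_mulVec, Matrix.mulVec_sub,
          Matrix.mulVec_sub, Matrix.mulVec_mulVec, Matrix.mulVec_mulVec]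
        abel
      rw [e1]
      refine (hO _).trans ?_
      have := g9 hO
      rw [pow_succ]
      linarith

/-- rounding of the scaled matrix -/
theorem round_aux {q : ℕ} {A : Matrix (Fin n) (Fin n) ℝ} (hS : 0 < scal A)
    {B : Matrix (Fin n) (Fin n) ℤ}
    (h : ∀ i j, |A i j / scal A * 2 ^ q| ≤ 2 ^ q → |A i j / scal A * 2 ^ q - B i j| ≤ 1 / 2)
    (i j : Fin n) : |scaled A i j - hat q B i j| ≤ 1 / (2 * 2 ^ q) := by
  have hu : (0 : ℝ) < 2 ^ q := by positivity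
  have e1 : |A i j / scal A| ≤ 1 / 2 := (opB_scaled hS).abs_le i j
  have e2 : |A i j / scal A * 2 ^ q| ≤ 2 ^ q := by
    rw [abs_mul, abs_of_pos hu]
    nlinarith
  have e3 := h i j e2
  have e4 : scaled A i j - hat q B i j = (A i j / scal A * 2 ^ q - B i j) / 2 ^ q := by
    rw [hat_apply]
    show A i j / scal A - _ = _
    field_simp
  rw [e4, abs_div, abs_of_pos hu, div_le_div_iff₀ hu (by positivity)]
  nlinarith

theorem prelude_spec {A : Matrix (Fin n) (Fin n) ℝ} (hS : 0 < scal A)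
    {b : Fin n → ℝ} {ε : ℝ} {m : Mem} (hm : Inp A b ε m) (q : ℕ) {m4 : Mem}
    (hm4 : m4 = (scaleP n q).mem ((sumP n).mem ((absP n).mem
      ((setup n (top n q) (bet n q)).mem m)))) :
    ∃ B : Matrix (Fin n) (Fin n) ℤ, Tab n q m4 ∧ m4 cEps = ε ∧ Holds 10 m4 (scaled A) ∧
      HoldsV 11 m4 (fun i => b i / scal A) ∧ HoldsZ 12 m4 B ∧ HoldsZ 13 m4 B.transpose ∧
      Bdd B (q + 2) ∧ ∀ i j, |scaled A i j - hat q B i j| ≤ 1 / (2 * 2 ^ q) := by
  obtain ⟨m1, hm1⟩ : ∃ m1, m1 = (setup n (top n q) (bet n q)).mem m := ⟨_, rfl⟩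
  obtain ⟨m2, hm2⟩ : ∃ m2, m2 = (absP n).mem m1 := ⟨_, rfl⟩
  obtain ⟨m3, hm3⟩ : ∃ m3, m3 = (sumP n).mem m2 := ⟨_, rfl⟩
  rw [← hm1, ← hm2, ← hm3] at hm4
  obtain ⟨p1, p2, p3⟩ := setup_spec n (top n q) (bet n q) (by unfold top bet; omega) m hm.2.2.2
  rw [← hm1] at p1 p2 p3
  have t1 : Tab n q m1 := ⟨p1, p2, p3⟩
  have i1 : Inp A b ε m1 := hm.of_eq fun c hc => by
    rw [hm1]
    exact mem_of_wr _ _ (wr_setup _ _ _) c (by simp [Arr]; omega)
  have w2 : ∀ c : Cell, c.1 ≠ 20 → m2 c = m1 c := fun c h => by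
    rw [hm2]
    exact mem_of_wr _ _ (wr_absP _) c (by simp [Arr, *])
  have w3 : ∀ c : Cell, c ≠ cS → c ≠ cT → m3 c = m2 c := fun c h h' => by
    rw [hm3]
    exact mem_of_wr _ _ (wr_sumP' _) c (by simp [*])
  have w4 : ∀ c : Cell, c.1 ≠ 4 → c.1 ≠ 5 → c.1 ≠ 10 → c.1 ≠ 11 → c.1 ≠ 12 → c.1 ≠ 13 →
      m4 c = m3 c := fun c _ _ _ _ _ _ => by
    rw [hm4]
    exact mem_of_wr _ _ (wr_scaleP _ _) c (by simp [Arr, *])
  have t2 : Tab n q m2 := t1.of_eq (by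
    rintro c (rfl | rfl | rfl | h | h) <;> apply w2 <;> simp [*])
  have t3 : Tab n q m3 := t2.of_eq (by
    rintro c (rfl | rfl | rfl | h | h) <;> apply w3 <;> first | simp; done |
      (rintro rfl; simp at h))
  have t4 : Tab n q m4 := t3.of_eq (by
    rintro c (rfl | rfl | rfl | h | h) <;> apply w4 <;> simp [*])
  have i2 : Inp A b ε m2 := i1.of_eq fun c hc => w2 c (by omega)
  have i3 : Inp A b ε m3 := i2.of_eq fun c hc => w3 c
    (by rintro rfl; simp at hc) (by rintro rfl; simp at hc)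
  have hSval : m3 cS = scal A := by
    have h20 : Holds 20 m2 (Matrix.of fun i j => |A i j|) := by
      rw [hm2]
      exact absP_holds t1.2.2 i1.1
    rw [hm3, sumP_spec i2.2.2.2 h20]
    rfl
  obtain ⟨B, k1, k2, k3, k4, k5, k6⟩ := scaleP_spec t3 i3.1 i3.2.1 hSval
  rw [← hm4] at k1 k2 k3 k4
  exact ⟨B, t4, (w4 _ (by simp) (by simp) (by simp) (by simp) (by simp)
    (by simp)).trans i3.2.2.1, k1, k2, k3, k4, k5, round_aux hS k6⟩

/-- verification and initialization of the refinement -/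
theorem mid_spec {A : Matrix (Fin n) (Fin n) ℝ} {b : Fin n → ℝ} {ε : ℝ} {m5 m7 : Mem} {q : ℕ}
    {B Z : Matrix (Fin n) (Fin n) ℤ} (t5 : Tab n q m5) (r12 : HoldsZ 12 m5 B)
    (r10 : Holds 10 m5 A) (r11 : HoldsV 11 m5 b) (hε5 : m5 cEps = ε) (r13 : HoldsZ 13 m5 Z)
    (rZ : Bdd Z (2 * q + 2)) (rB : Bdd B (q + 2))
    (hm7 : m7 = (forN n fun i => op1 .sub (17, i, 0) cOne cOne).mem ((verify n q).mem m5)) :
    Tab n q m7 ∧ Holds 10 m7 A ∧ HoldsV 11 m7 b ∧ HoldsZ 13 m7 Z ∧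
      HoldsV 17 m7 (0 : Fin n → ℝ) ∧
      m7 cE = 2 ^ (4 * q) * (16 * ∑ i, ∑ j, (1 - hat q Z * hat q B) i j ^ 2) ∧
      m7 cZ = 2 ^ (2 * q) * (16 * (2 ^ ell n) ^ 2 * ∑ i, ∑ j, hat q Z i j ^ 2) ∧
      m7 cV = ε * 2 ^ q := by
  obtain ⟨m6, hm6⟩ : ∃ m6, m6 = (verify n q).mem m5 := ⟨_, rfl⟩
  obtain ⟨v1, v2, v3⟩ := verify_spec t5 r12 rB r13 rZ
  rw [← hm6] at v1 v2 v3 hm7
  have w6 : ∀ c : Cell, c ≠ cE → c ≠ cZ → c ≠ cV → c.1 ≠ 4 → c.1 ≠ 5 → c.1 ≠ 8 → c.1 ≠ 14 →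
      c.1 ≠ 19 → m6 c = m5 c := fun c _ _ _ _ _ _ _ _ => by
    rw [hm6]
    exact mem_of_wr _ _ (wr_verify' _ _) c (by simp [Arr, *])
  have w7 : ∀ c : Cell, c.1 ≠ 17 → m7 c = m6 c := fun c h => by
    rw [hm7]
    exact mem_of_wr (S := Arr {17}) _ _ (wr_forN fun _ => wr_op1 (by simp [Arr])) c
      (by simp [Arr, *])
  have t6 : Tab n q m6 := t5.of_eq (by
    rintro c (rfl | rfl | rfl | h | h) <;> apply w6 <;> first | (simp [*]; done) |
      (rintro rfl; simp at h))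
  have t7 : Tab n q m7 := t6.of_eq (by
    rintro c (rfl | rfl | rfl | h | h) <;> apply w7 <;> simp [*])
  refine ⟨t7, fun i j => ?_, fun i => ?_, fun i j => ?_, ?_, ?_, ?_, ?_⟩
  · rw [w7 _ (by simp), w6 _ (by simp) (by simp) (by simp) (by simp) (by simp) (by simp)
      (by simp) (by simp)]
    exact r10 i j
  · rw [w7 _ (by simp), w6 _ (by simp) (by simp) (by simp) (by simp) (by simp) (by simp)
      (by simp) (by simp)]
    exact r11 i
  · rw [w7 _ (by simp), w6 _ (by simp) (by simp) (by simp) (by simp) (by simp) (by simp)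
      (by simp) (by simp)]
    exact r13 i j
  · rw [hm7]
    exact clear_spec m6
  · rw [w7 _ (by simp), v1]
    simp only [hatE, mul_pow, ← Finset.mul_sum]
    rw [← pow_mul]
    have : 2 * q * 2 = 4 * q := by ring
    rw [this]
    ring
  · rw [w7 _ (by simp), v2]
    have : ∀ i j, (Z i j : ℝ) ^ 2 = 2 ^ (2 * q) * hat q Z i j ^ 2 := by
      intro i j
      rw [hat_apply, div_pow, ← pow_mul, mul_comm q 2]
      field_simp
    simp only [this, ← Finset.mul_sum]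
    rw [pow_add, ← pow_mul, mul_comm (ell n) 2]
    ring
  · rw [w7 _ (by simp), v3, hε5]

theorem final_res {q : ℕ} {m8 : Mem} {e z v : ℝ} (hE : m8 cE = 2 ^ (4 * q) * e)
    (hZ : m8 cZ = 2 ^ (2 * q) * z) (hV : m8 cV = v) (h1 : m8 cOne = 1)
    (h4q : m8 (cPow (4 * q)) = 2 ^ (4 * q)) :
    (final q).res m8 = true ↔ (e ≤ 1 ∧ z ≤ (2 ^ q) ^ 2 ∧ 1 ≤ v) := by
  have a1 : m8 cE ≤ m8 (cPow (4 * q)) ↔ e ≤ 1 := by
    rw [hE, h4q]
    exact mul_le_iff_le_one_right (by positivity)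
  have a2 : m8 cZ ≤ m8 (cPow (4 * q)) ↔ z ≤ (2 ^ q) ^ 2 := by
    rw [hZ, h4q]
    have : (2 : ℝ) ^ (4 * q) = 2 ^ (2 * q) * (2 ^ q) ^ 2 := by
      rw [← pow_mul, ← pow_add]; congr 1; ring
    rw [this]
    exact mul_le_mul_iff_right₀ (by positivity)
  have a3 : m8 cOne ≤ m8 cV ↔ 1 ≤ v := by rw [h1, hV]
  unfold final
  simp only [res, a1, a2, a3]
  by_cases q1 : e ≤ 1 <;> by_cases q2 : z ≤ (2 ^ q) ^ 2 <;> by_cases q3 : 1 ≤ v <;>
    simp [q1, q2, q3]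

theorem final_mem (q : ℕ) (m8 : Mem) : (final q).mem m8 = m8 := by
  unfold final
  simp only [mem]
  split_ifs <;> rfl

theorem complete_aux {q : ℕ} {A : Matrix (Fin n) (Fin n) ℝ} {B Z : Matrix (Fin n) (Fin n) ℤ}
    {τ : ℝ} (hG : Good A (hat q B) τ (2 ^ q))
    (hr : OpB (1 - hat q Z * hat q B) (resid (τ ^ 2 / 8) (dlt n (2 ^ q)) (5 * q))) :
    16 * ∑ i, ∑ j, (1 - hat q Z * hat q B) i j ^ 2 ≤ 1 ∧
      16 * (2 ^ ell n) ^ 2 * ∑ i, ∑ j, hat q Z i j ^ 2 ≤ (2 ^ q) ^ 2 := by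
  have hτ := hG.hτ
  have hτ2 := hG.tau_le
  have e0 : 0 < τ ^ 2 / 8 := by positivity
  have e1 : τ ^ 2 / 8 ≤ 1 / 2 := by nlinarith
  have hn1 := hG.n1
  have hq := hG.hq
  have e2 := resid_final e0 e1 hG.dlt_nonneg hG.dlt_le q (by nlinarith)
  have e3 : (1 / 2 : ℝ) ^ q = 1 / 2 ^ q := by rw [div_pow, one_pow]
  rw [e3] at e2
  exact hG.final (hr.mono e2) (L := 2 ^ ell n) (by positivity) (ell_le hG.hn)

theorem stage_spec (hn : 1 ≤ n) {A : Matrix (Fin n) (Fin n) ℝ} (hA : IsUnit A.det)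
    {b : Fin n → ℝ} {ε : ℝ} {m : Mem} (hm : Inp A b ε m) (q : ℕ) :
    ((stage n q).res m = true →
      norm2 ((fun i : Fin n => (stage n q).mem m (17, i, 0)) - A⁻¹.mulVec b) ≤
        ε * norm2 (A⁻¹.mulVec b)) ∧
    (∀ τ : ℝ, 0 < τ → (∀ v, τ * norm2 v ≤ norm2 ((scaled A).mulVec v)) →
      64 * (n : ℝ) ^ 2 ≤ 2 ^ q * τ ^ 2 → 1 ≤ ε * 2 ^ q → (stage n q).res m = true) := by
  have hS := scal_pos hn hA
  have hu : (0 : ℝ) < 2 ^ q := by positivity
  obtain ⟨m4, hm4⟩ : ∃ m4, m4 = (scaleP n q).mem ((sumP n).mem ((absP n).mem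
      ((setup n (top n q) (bet n q)).mem m))) := ⟨_, rfl⟩
  obtain ⟨m5, hm5⟩ : ∃ m5, m5 = (forN (5 * q) fun _ => newton n q).mem m4 := ⟨_, rfl⟩
  obtain ⟨m7, hm7⟩ : ∃ m7, m7 = (forN n fun i => op1 .sub (17, i, 0) cOne cOne).mem
    ((verify n q).mem m5) := ⟨_, rfl⟩
  obtain ⟨m8, hm8⟩ : ∃ m8, m8 = (forN q fun _ => refine1 n q).mem m7 := ⟨_, rfl⟩
  have hmem : (stage n q).mem m = m8 := by
    unfold stage
    simp only [mem_seq]
    rw [final_mem, hm8, hm7, hm5, hm4]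
  have hres : (stage n q).res m = (final q).res m8 := by
    unfold stage
    simp only [res_seq]
    rw [hm8, hm7, hm5, hm4]
  obtain ⟨B, t4, hε4, k1, k2, k3, k4, k5, hAB⟩ := prelude_spec hS hm q hm4
  have hN := newton_loop t4 k3 k1 k2 hε4 k4 k5 (5 * q)
  rw [← hm5] at hN
  obtain ⟨⟨t5, r12, r10, r11, hε5⟩, Z, r13, rZ, rG⟩ := hN
  obtain ⟨t7, s10, s11, s13, s17, hE, hZ, hV⟩ := mid_spec t5 r12 r10 r11 hε5 r13 rZ k5 hm7
  -- iterative refinement
  have hxs' : (scaled A).mulVec (A⁻¹.mulVec b) = fun i => b i / scal A := by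
    rw [scaled_eq, Matrix.smul_mulVec, Matrix.mulVec_mulVec, Matrix.mul_nonsing_inv A hA,
      Matrix.one_mulVec]
    funext i
    rw [Pi.smul_apply, smul_eq_mul, ← div_eq_inv_mul]
  have hR := refine_loop t7 s10 s11 s13 s17 hxs' q
  rw [← hm8] at hR
  obtain ⟨⟨t8, c1, c2, c3⟩, x, hx1, hx2⟩ := hR
  have hfres := final_res (c1.trans hE) (c2.trans hZ) (c3.trans hV) t8.1.2.2
    (t8.1.1 _ (by unfold top; omega))
  rw [hres, hfres, hmem]
  constructor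
  · rintro ⟨f1, f2, f3⟩
    have hO := sound_aux hAB f1 f2
    have e1 : (fun i : Fin n => m8 (17, i, 0)) = x := funext fun i => hx1 i
    rw [e1]
    refine (hx2 hO).trans ?_
    apply mul_le_mul_of_nonneg_right _ (norm2_nonneg _)
    rw [div_pow, one_pow, div_le_iff₀ hu]
    exact f3
  · intro τ hτ hτA hq hεq
    have hG : Good (scaled A) (hat q B) τ (2 ^ q) :=
      ⟨hn, hτ, hu, opB_scaled hS, hτA, hAB, hq⟩
    obtain ⟨f1, f2⟩ := complete_aux hG (rG τ hG)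
    exact ⟨f1, f2, hεq⟩

end Pool.Agent.Lib.MP_2781e4_lc
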