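import Mathlib
import Pool.Agent.Lib.MP_2781e4_lc.StageSpec
import Pool.Agent.Lib.MP_2781e4_lc.Sing
import Pool.Agent.Lib.MP_2781e4_lc.Run

/-!
# The cost analysis
-/

namespace Pool.Agent.Lib.MP_2781e4_lc

open Pool.Agent.Lib.MP_2781e4_lc.Tree Finset

variable {n : ℕ}

theorem scal_le (A : Matrix (Fin n) (Fin n) ℝ) : scal A ≤ 2 * n ^ 2 * sing A 0 := by
  have h : ∑ i, ∑ j, |A i j| ≤ ∑ _i : Fin n, ∑ _j : Fin n, sing A 0 :=
    Finset.sum_le_sum fun i _ => Finset.sum_le_sum fun j _ => (sing_upper A).abs_le i j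
  simp only [Finset.sum_const, Finset.card_univ, Fintype.card_fin, nsmul_eq_mul] at h
  unfold scal
  nlinarith

theorem scaled_lower {A : Matrix (Fin n) (Fin n) ℝ} (hS : 0 < scal A) (v : Fin n → ℝ) :
    sing A (n - 1) / scal A * norm2 v ≤ norm2 ((scaled A).mulVec v) := by
  have h1 : (scaled A).mulVec v = (scal A)⁻¹ • A.mulVec v := by
    rw [scaled_eq, Matrix.smul_mulVec]
  have h2 : norm2 ((scal A)⁻¹ • A.mulVec v) = (scal A)⁻¹ * norm2 (A.mulVec v) := by
    rw [norm2_eq, norm2_eq, WithLp.toLp_smul, norm_smul, Real.norm_eq_abs,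
      abs_of_pos (inv_pos.mpr hS)]
  rw [h1, h2, div_eq_inv_mul, mul_assoc]
  exact mul_le_mul_of_nonneg_left (sing_lower A v) (inv_pos.mpr hS).le

/-- number of the last stage that may be needed -/
theorem exists_stage {A : Matrix (Fin n) (Fin n) ℝ} (hA : IsUnit A.det) (hn : 1 ≤ n) {ε : ℝ}
    (hε : 0 < ε) (hε1 : ε < 1) :
    ∃ Q : ℕ, 64 * (n : ℝ) ^ 2 ≤ 2 ^ Q * (sing A (n - 1) / scal A) ^ 2 ∧ 1 ≤ ε * 2 ^ Q ∧
      (Q : ℝ) ≤ 13 + 12 * Real.log n + 4 * Real.log (sing A 0 / sing A (n - 1)) +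
        2 * Real.log (1 / ε) := by
  have hn1 : (1 : ℝ) ≤ n := by exact_mod_cast hn
  have hS := scal_pos hn hA
  have hs := sing_pos hA (i := n - 1) (by omega)
  set κ := sing A 0 / sing A (n - 1) with hκ
  have hκ1 : 1 ≤ κ := one_le_kappa hA hn
  set y : ℝ := 256 * n ^ 6 * κ ^ 2 * (1 / ε) with hy
  have he1 : 1 ≤ 1 / ε := by rw [one_le_div hε]; exact hε1.le
  have hn6 : (1 : ℝ) ≤ n ^ 6 := one_le_pow₀ hn1
  have hk2 : (1 : ℝ) ≤ κ ^ 2 := one_le_pow₀ hκ1
  have hnk : (1 : ℝ) ≤ n ^ 6 * κ ^ 2 := one_le_mul_of_one_le_of_one_le hn6 hk2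
  have hy1 : 256 * n ^ 6 * κ ^ 2 ≤ y := le_mul_of_one_le_right (by positivity) he1
  have hy2 : 1 / ε ≤ y := by
    have : (1 : ℝ) ≤ 256 * n ^ 6 * κ ^ 2 := by nlinarith
    exact le_mul_of_one_le_left (by positivity) this
  have hy0 : 1 ≤ y := he1.trans hy2
  have hlogy : 0 ≤ Real.log y := Real.log_nonneg hy0
  have hl2 : (1 : ℝ) / 2 < Real.log 2 := by
    have := Real.log_two_gt_d9
    linarith
  have hl2' : Real.log 2 < 3 / 4 := by
    have := Real.log_two_lt_d9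
    linarith
  refine ⟨⌈Real.logb 2 y⌉₊, ?_, ?_, ?_⟩
  · have h1 : y ≤ 2 ^ ⌈Real.logb 2 y⌉₊ := by
      have h2 : Real.logb 2 y ≤ (⌈Real.logb 2 y⌉₊ : ℝ) := Nat.le_ceil _
      rw [Real.logb_le_iff_le_rpow (by norm_num) (by linarith)] at h2
      rwa [Real.rpow_natCast] at h2
    have h2 : scal A / sing A (n - 1) ≤ 2 * n ^ 2 * κ := by
      rw [hκ, ← mul_div_assoc]
      exact div_le_div_of_nonneg_right (scal_le A) hs.le
    have h3 : 64 * (n : ℝ) ^ 2 * (scal A / sing A (n - 1)) ^ 2 ≤ 2 ^ ⌈Real.logb 2 y⌉₊ := by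
      calc 64 * (n : ℝ) ^ 2 * (scal A / sing A (n - 1)) ^ 2 ≤
          64 * (n : ℝ) ^ 2 * (2 * n ^ 2 * κ) ^ 2 := by
            apply mul_le_mul_of_nonneg_left _ (by positivity)
            exact pow_le_pow_left₀ (by positivity) h2 2
        _ = 256 * n ^ 6 * κ ^ 2 := by ring
        _ ≤ _ := hy1.trans h1
    have h4 : 64 * (n : ℝ) ^ 2 = 64 * (n : ℝ) ^ 2 * (scal A / sing A (n - 1)) ^ 2 *
        (sing A (n - 1) / scal A) ^ 2 := by
      field_simp
    rw [h4]
    exact mul_le_mul_of_nonneg_right h3 (sq_nonneg _)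
  · have h1 : y ≤ 2 ^ ⌈Real.logb 2 y⌉₊ := by
      have h2 : Real.logb 2 y ≤ (⌈Real.logb 2 y⌉₊ : ℝ) := Nat.le_ceil _
      rw [Real.logb_le_iff_le_rpow (by norm_num) (by linarith)] at h2
      rwa [Real.rpow_natCast] at h2
    have h2 := hy2.trans h1
    rw [div_le_iff₀ hε] at h2
    linarith
  · have h1 : (⌈Real.logb 2 y⌉₊ : ℝ) < Real.logb 2 y + 1 :=
      Nat.ceil_lt_add_one (Real.logb_nonneg (by norm_num) hy0)
    have h2 : Real.logb 2 y ≤ 2 * Real.log y := by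
      unfold Real.logb
      rw [div_le_iff₀ (by linarith)]
      nlinarith
    have h3 : Real.log y = 8 * Real.log 2 + 6 * Real.log n + 2 * Real.log κ +
        Real.log (1 / ε) := by
      rw [hy, Real.log_mul (by positivity) (by positivity),
        Real.log_mul (by positivity) (by positivity),
        Real.log_mul (by positivity) (by positivity), Real.log_pow, Real.log_pow]
      have : (256 : ℝ) = 2 ^ 8 := by norm_num
      rw [this, Real.log_pow]
      push_cast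
      ring
    rw [h3] at h2
    linarith

theorem ell_log_le (hn : 1 ≤ n) : (ell n : ℝ) ≤ 2 + 2 * Real.log n := by
  have hn1 : (1 : ℝ) ≤ n := by exact_mod_cast hn
  have h1 := ell_le hn
  have h2 := Real.log_le_log (by positivity) h1
  rw [Real.log_pow, Real.log_mul (by norm_num) (by linarith)] at h2
  have h3 := Real.log_two_gt_d9
  have h4 : 0 ≤ Real.log n := Real.log_nonneg hn1
  have h5 : (0 : ℝ) ≤ ell n := Nat.cast_nonneg _
  nlinarith

theorem cube_le {x : ℝ} (hx : 1 ≤ x) : (1 + Real.log x) ^ 3 ≤ 27 * x := by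
  have h0 : 0 ≤ Real.log x := Real.log_nonneg hx
  have h1 : 1 + Real.log x ≤ 3 * Real.exp (Real.log x / 3) := by
    have := Real.add_one_le_exp (Real.log x / 3)
    linarith
  calc (1 + Real.log x) ^ 3 ≤ (3 * Real.exp (Real.log x / 3)) ^ 3 :=
        pow_le_pow_left₀ (by linarith) h1 3
    _ = 27 * Real.exp (Real.log x) := by
        rw [mul_pow, ← Real.exp_nat_mul]
        have : ((3 : ℕ) : ℝ) * (Real.log x / 3) = Real.log x := by push_cast; ring
        rw [this]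
        norm_num
    _ = 27 * x := by rw [Real.exp_log (by linarith)]

/-- the cost in terms of the averaged condition number -/
theorem cost_le {t Q l : ℝ} {a e κ K N p : ℝ} (hp : 0 < p) (hN : 0 ≤ N) (ha : 0 ≤ a)
    (he : 0 ≤ e) (hK : 1 ≤ K) (hQ0 : 0 ≤ Q) (hl0 : 0 ≤ l)
    (h2 : t ≤ 3000 * N * (Q + l + 1) ^ 3)
    (hQ : Q ≤ 13 + 12 * a + 4 * κ + 2 * e) (hl : l ≤ 2 + 2 * a)
    (hκ : κ ≤ 1 / p * a + Real.log K) :
    t ≤ 81000 * (16 + 4 / p) ^ 3 * (1 + a + e) ^ 3 * (N * K) := by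
  have hk : 0 ≤ Real.log K := Real.log_nonneg hK
  have hp' : 0 < 1 / p := by positivity
  have h5 : Q + l + 1 ≤ (16 + 4 / p) * (1 + a + e) * (1 + Real.log K) := by
    have e1 : 4 / p = 4 * (1 / p) := by ring
    rw [e1]
    set r := 1 / p
    have e2 : 0 ≤ r * a := by positivity
    have e3 : 0 ≤ r * e := by positivity
    have e4 : 0 ≤ r * Real.log K := by positivity
    have e5 : 0 ≤ a * Real.log K := by positivity
    have e6 : 0 ≤ e * Real.log K := by positivity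
    have e7 : 0 ≤ r * (a * Real.log K) := by positivity
    have e8 : 0 ≤ r * (e * Real.log K) := by positivity
    nlinarith
  have h6 : (Q + l + 1) ^ 3 ≤ ((16 + 4 / p) * (1 + a + e) * (1 + Real.log K)) ^ 3 :=
    pow_le_pow_left₀ (by positivity) h5 3
  calc t ≤ 3000 * N * (Q + l + 1) ^ 3 := h2
    _ ≤ 3000 * N * ((16 + 4 / p) * (1 + a + e) * (1 + Real.log K)) ^ 3 :=
        mul_le_mul_of_nonneg_left h6 (by positivity)
    _ = 3000 * (16 + 4 / p) ^ 3 * (1 + a + e) ^ 3 * N * (1 + Real.log K) ^ 3 := by ring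
    _ ≤ 3000 * (16 + 4 / p) ^ 3 * (1 + a + e) ^ 3 * N * (27 * K) :=
        mul_le_mul_of_nonneg_left (cube_le hK) (by positivity)
    _ = _ := by ring

/-- Every exponent `p > 0` is achievable with the cost measure `n²`. -/
theorem achievable_of_pos (p : ℝ) (hp : 0 < p) : Achievable p := by
  refine ⟨solver, 17, 81000 * (16 + 4 / p) ^ 3, 3, ?_⟩
  intro n hn A hA b ε hε hε1
  have hn1 : (1 : ℝ) ≤ n := by exact_mod_cast hn
  have hS := scal_pos hn hA
  have hs := sing_pos hA (i := n - 1) (by omega)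
  obtain ⟨Q, hQ1, hQ2, hQ3⟩ := exists_stage hA hn hε hε1
  have hgood : ∀ (q : ℕ) (m : Mem), Inp A b ε m → (stage n q).res m = true →
      norm2 (output n 17 ((stage n q).mem m) - A⁻¹.mulVec b) ≤ ε * norm2 (A⁻¹.mulVec b) := by
    intro q m hm hr
    have h := (stage_spec hn hA hm q).1 hr
    generalize (stage n q).mem m = m' at h ⊢
    exact h
  have hQ : ∀ m : Mem, Inp A b ε m → (stage n Q).res m = true := fun m hm =>
    (stage_spec hn hA hm Q).2 _ (div_pos hs hS) (scaled_lower hS) hQ1 hQ2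
  obtain ⟨t, ρ, m, hx1, hx2, hx3⟩ := exec_solver (n := n) (Inp A b ε)
    (fun m => norm2 (output n 17 m - A⁻¹.mulVec b) ≤ ε * norm2 (A⁻¹.mulVec b)) Q
    (fun q m hm => inp_stage q hm) hgood hQ (input A b ε) (inp_input A b ε)
  refine ⟨t, ρ, m, hx1, hx2, ?_⟩
  have h1 : t ≤ 3000 * n ^ 2 * (Q + ell n + 1) ^ 3 := hx3.trans (total_le n Q hn)
  have h2 : (t : ℝ) ≤ 3000 * (n : ℝ) ^ 2 * ((Q : ℝ) + ell n + 1) ^ 3 := by exact_mod_cast h1
  have hkb := one_le_kappaBar hA hn hp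
  have hk1 := one_le_kappa hA hn
  have hkl := kappa_le hA hn hp
  have h3 : Real.log (sing A 0 / sing A (n - 1)) ≤
      1 / p * Real.log n + Real.log (kappaBar p A) := by
    have := Real.log_le_log (by linarith) hkl
    rwa [Real.log_mul (by positivity) (by positivity), Real.log_rpow (by linarith)] at this
  exact cost_le hp (by positivity) (Real.log_nonneg hn1)
    (Real.log_nonneg (by rw [one_le_div hε]; exact hε1.le)) hkb (Nat.cast_nonneg Q)
    (Nat.cast_nonneg (ell n)) h2 hQ3 (ell_log_le hn) h3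

end Pool.Agent.Lib.MP_2781e4_lc
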